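import Pool.Agent.H87.PMCSP.Table

/-!
# The table in a larger arity

The variables of the gadget are embedded among the `n` inputs by `e`; the table ignores the
other inputs.
-/

namespace Pool.Agent.H87.PMCSP

/-- Renaming of the variables of a formula. -/
def Fm.map {V V' : Type} (e : V → V') : Fm V → Fm V'
  | leaf v => leaf (e v)
  | node c l r => node c (l.map e) (r.map e)

theorem Fm.map_nodes {V V' : Type} (e : V → V') (F : Fm V) : (F.map e).nodes = F.nodes := by
  induction F with
  | leaf v => rfl
  | node c l r ihl ihr => simp [Fm.map, Fm.nodes, ihl, ihr]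

theorem Fm.map_fn {V V' : Type} (e : V → V') (F : Fm V) (x : V' → Bool) :
    (F.map e).fn x = F.fn (fun v => x (e v)) := by
  induction F with
  | leaf v => rfl
  | node c l r ihl ihr => simp [Fm.map, Fm.fn, ihl, ihr]

/-- Circuits for assignments of types, in a larger arity. -/
theorem exists_typed_circuit_emb {X Y : Type} [DecidableEq X] [DecidableEq Y] [Fintype X]
    [Fintype Y] [Nonempty X] {n : ℕ} (e : Var X Y → Fin n) (g : X ⊕ Y → X)
    (hg : ∀ v, g (Sum.inl v) = v) :
    ∃ c : Circuit n, c.size + 1 = Fintype.card (Var X Y) ∧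
      ∀ (S : X → Bool) (S' : X ⊕ Y → Bool) (x : Fin n → Bool),
      (fun v => x (e v)) = (Sum.elim S S' : Var X Y → Bool) →
      (c.eval x = true ↔ ∃ a, S' a = true ∧ S (g a) = true) := by
  have hcard : Fintype.card (Var X Y) = Fintype.card X + (Fintype.card X + Fintype.card Y) := by
    rw [← Fintype.card_sum, ← Fintype.card_sum]
  obtain ⟨u0, us, hus⟩ : ∃ u0 us, (Finset.univ : Finset X).toList = u0 :: us := by
    cases h : (Finset.univ : Finset X).toList with
    | nil =>
      exfalso
      rw [Finset.toList_eq_nil] at h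
      exact Finset.univ_nonempty.ne_empty h
    | cons a l => exact ⟨a, l, rfl⟩
  obtain ⟨c, hc, hev⟩ := exists_circuit (Equiv.refl (Fin n))
    ((orList (term g u0) (us.map (term g))).map e)
  refine ⟨c, ?_, fun S S' x hx => ?_⟩
  · rw [hc, Fm.map_nodes, orList_nodes, ← List.map_cons, ← hus, List.map_map]
    have h1 := Finset.sum_map_toList (Finset.univ : Finset X)
      ((fun G : Fm (Var X Y) => G.nodes + 1) ∘ term g)
    rw [h1]
    simp only [Function.comp_def, term_nodes]
    have h2 := Finset.card_eq_sum_card_fiberwise (s := (Finset.univ : Finset Y))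
      (t := (Finset.univ : Finset X)) (f := fun y => g (Sum.inr y)) (by
        intro y _; simp)
    rw [Finset.sum_add_distrib, Finset.sum_add_distrib, ← h2]
    simp only [Finset.sum_const, Finset.card_univ, smul_eq_mul, mul_one]
    omega
  · have h := hev x
    simp only [Equiv.refl_apply] at h
    rw [h, Fm.map_fn, hx, orList_fn, ← List.map_cons, ← hus]
    simp only [List.mem_map, Finset.mem_toList, Finset.mem_univ, true_and,
      exists_exists_eq_and]
    constructor
    · rintro ⟨u, hu⟩
      obtain ⟨h1, a, h2, h3⟩ := (term_fn g hg u S S').mp hu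
      exact ⟨a, h2, by rw [h3]; exact h1⟩
    · rintro ⟨a, h1, h2⟩
      exact ⟨g a, (term_fn g hg _ S S').mpr ⟨h2, a, h1, rfl⟩⟩

theorem beq_not_of_ne {c κ : Bool} (h : ¬ c = κ) : (c == !κ) = true := by
  revert h
  cases c <;> cases κ <;> simp

/-- **Structure theorem.** A circuit with fewer gates than the gadget has variables that
agrees with the table of the gadget comes from two tuples of words. -/
theorem struct_emb {k m r n : ℕ} (hm : 0 < m)
    (bad : Fin k → (Fin m → Bool) → Fin k → (Fin m → Bool) → Prop)
    (e : VT k m r ↪ Fin n) (c : Circuit n)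
    (hsize : c.size + 1 ≤ Fintype.card (VT k m r))
    (hc : ∀ (x : Fin n → Bool) (b : Bool),
      tab k m r bad (fun v => x (e v)) = some b → c.eval x = b) :
    ∃ w0 w1 : Fin k → Fin m → Bool, ∀ (a b : Fin k) (p q : Fin m → Bool) (x : Fin n → Bool),
      (fun v => x (e v)) = (Sum.elim (quX a b) (quY p q) : VT k m r → Bool) →
      (c.eval x = true ↔ ¬ (w0 a = p ∧ w1 b = q)) := by
  classical
  -- extension of an assignment to all inputs
  let ext : (VT k m r → Bool) → (Fin n → Bool) := fun z i =>
    if h : ∃ v, e v = i then z h.choose else false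
  have hext : ∀ z v, ext z (e v) = z v := by
    intro z v
    have h : ∃ v', e v' = e v := ⟨v, rfl⟩
    simp only [ext, h, dite_true]
    rw [e.injective h.choose_spec]
  have hext' : ∀ z j, (¬ ∃ v, e v = j) → ext z j = false := fun z j h => dif_neg h
  set f : (VT k m r → Bool) → Bool := fun z => c.eval (ext z) with hf
  have f0 : ∀ z, Zer k m r z → f z = false := fun z hz => hc _ false (by
    simp only [hext]; exact tab_zer hz)
  have f1 : ∀ z, One k m r bad z → f z = true := fun z hz => hc _ true (by
    simp only [hext]; exact tab_one hm hz)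
  -- positive dependence on all variables
  have hpos : ∀ v : VT k m r, ∃ z : VT k m r → Bool, z v = false ∧ f z = false ∧
      f (@Function.update (VT k m r) (fun _ => Bool) (instDecVT k m r) z v true) = true := by
    rintro (u | a)
    · refine ⟨_, rfl, f0 _ Zer.b, ?_⟩
      refine Eq.trans (congrArg f ?_) (f1 _ (One.a u))
      funext v
      rcases v with v | v
      · by_cases h : v = u
        · subst h; simp [sgX]
        · rw [Function.update_of_ne (by simpa using h)]
          simp [sgX, h]
      · rw [Function.update_of_ne (by simp)]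
        simp
    · refine ⟨_, rfl, f0 _ Zer.a, ?_⟩
      refine Eq.trans (congrArg f ?_) (f1 _ (One.b a))
      funext v
      rcases v with v | v
      · rw [Function.update_of_ne (by simp)]
        simp
      · by_cases h : v = a
        · subst h; simp [sgY]
        · rw [Function.update_of_ne (by simpa using h)]
          simp [sgY, h]
  have hdep : ∀ v : VT k m r, Dep c.eval (e v) := by
    intro v
    obtain ⟨z, h1, h2, h3⟩ := hpos v
    refine ⟨ext z, ?_⟩
    have h4 : Function.update (ext z) (e v) (!(ext z (e v))) =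
        ext (@Function.update (VT k m r) (fun _ => Bool) (instDecVT k m r) z v true) := by
      funext j
      by_cases h : ∃ v', e v' = j
      · obtain ⟨v', rfl⟩ := h
        by_cases hv : v' = v
        · subst hv
          rw [Function.update_self, hext, hext, Function.update_self, h1]
          rfl
        · rw [Function.update_of_ne (fun h => hv (e.injective h)), hext, hext,
            Function.update_of_ne hv]
      · rw [Function.update_of_ne (fun h' => h ⟨v, h'.symm⟩), hext' _ _ h, hext' _ _ h]
    rw [h4]
    simp only [hf] at h2 h3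
    rw [h2, h3]
    simp
  obtain ⟨h1, h2⟩ := circuit_dep c (Finset.univ.map e) (by
    intro i hi
    obtain ⟨v, -, rfl⟩ := Finset.mem_map.mp hi
    exact hdep v)
  rw [Finset.card_map, Finset.card_univ] at h1 h2
  obtain ⟨r0, hr⟩ := h2 (by omega)
  have hloc : ∀ x y : Fin n → Bool, (∀ v, x (e v) = y (e v)) → c.eval x = c.eval y := by
    intro x y hxy
    refine hr.local' fun i hi => ?_
    obtain ⟨v, -, rfl⟩ := Finset.mem_map.mp hi
    exact hxy v
  have h3 := @REx.subst (VT k m r) (Fin n) (instDecVT k m r) _ _ _ _ hr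
    (fun i => if h : ∃ v, e v = i then {h.choose} else ∅)
    (fun i z => ext z i)
    (by
      intro i hi
      obtain ⟨v, -, rfl⟩ := Finset.mem_map.mp hi
      have h : ∃ v', e v' = e v := ⟨v, rfl⟩
      simp only [h, dite_true, hext]
      rw [e.injective h.choose_spec]
      have := @REx.lit (VT k m r) (instDecVT k m r) v false
      convert this using 2 with z
      simp) (by
      intro i hi j hj hij
      obtain ⟨v, -, rfl⟩ := Finset.mem_map.mp hi
      obtain ⟨v', -, rfl⟩ := Finset.mem_map.mp hj
      have h : ∃ v', e v' = e v := ⟨v, rfl⟩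
      have h' : ∃ v'', e v'' = e v' := ⟨v', rfl⟩
      simp only [h, h', dite_true]
      rw [e.injective h.choose_spec, e.injective h'.choose_spec, Finset.disjoint_singleton]
      exact fun h => hij (by rw [h]))
  have h4 : (Finset.univ.map e).biUnion
      (fun i => if h : ∃ v, e v = i then ({h.choose} : Finset (VT k m r)) else ∅) =
        Finset.univ := by
    ext v
    simp only [Finset.mem_biUnion, Finset.mem_univ, iff_true]
    refine ⟨e v, Finset.mem_map.mpr ⟨v, Finset.mem_univ v, rfl⟩, ?_⟩
    have h : ∃ v', e v' = e v := ⟨v, rfl⟩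
    simp only [h, dite_true, Finset.mem_singleton]
    exact (e.injective h.choose_spec).symm
  rw [h4] at h3
  obtain ⟨r', hr'⟩ := h3
  have hM : @MRO (VT k m r) (instDecVT k m r) Finset.univ f := MRO.of_sign hr' hpos
  obtain ⟨g, hg, hgf⟩ := rigid hM (f0 _ Zer.a) (f0 _ Zer.b) (fun u => f1 _ (One.a u))
    (fun a => f1 _ (One.b a)) (by
      intro u v
      by_cases h : u = v
      · subst h
        rw [decide_eq_true rfl]
        exact f1 _ (One.c u)
      · rw [decide_eq_false h]
        exact f0 _ (Zer.c u v h))
  -- the copy of the type of `y^κ_{i,β}`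
  have hcp : ∀ κ i β, (g (Sum.inr (Sum.inl (κ, i, β)))).1 = κ := by
    intro κ i β
    by_contra hne
    have h5 := f0 _ (Zer.d κ i β)
    have h6 := (hgf (cpX (!κ)) (sgY (Sum.inr (Sum.inl (κ, i, β))))).mpr
      ⟨Sum.inr (Sum.inl (κ, i, β)), by simp [sgY], beq_not_of_ne hne⟩
    rw [h5] at h6
    cases h6
  have hbit : ∀ κ i a, (g (Sum.inr (Sum.inl (κ, i, false)))).2 a =
      !(g (Sum.inr (Sum.inl (κ, i, true)))).2 a := by
    intro κ i a
    have key : ∀ σ, (g (Sum.inr (Sum.inl (κ, i, false)))).2 a = σ ∨
        (g (Sum.inr (Sum.inl (κ, i, true)))).2 a = σ := by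
      intro σ
      obtain ⟨y, h5, h6⟩ := (hgf _ _).mp (f1 _ (One.d κ a σ i))
      rcases y with u | (⟨κ', i', β⟩ | j)
      · simp [prY] at h5
      · simp only [prY, Sum.elim_inr, Sum.elim_inl, Bool.and_eq_true, beq_iff_eq,
          decide_eq_true_eq] at h5
        obtain ⟨rfl, rfl⟩ := h5
        simp only [coX, Bool.and_eq_true, beq_iff_eq] at h6
        cases β
        · exact Or.inl h6.2
        · exact Or.inr h6.2
      · simp [prY] at h5
    have k1 := key true
    have k2 := key false
    revert k1 k2
    cases (g (Sum.inr (Sum.inl (κ, i, false)))).2 a <;>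
      cases (g (Sum.inr (Sum.inl (κ, i, true)))).2 a <;> simp
  refine ⟨fun a i => (g (Sum.inr (Sum.inl (false, i, true)))).2 a,
    fun a i => (g (Sum.inr (Sum.inl (true, i, true)))).2 a, fun a b p q x hx => ?_⟩
  have hgt : ∀ κ i β, g (Sum.inr (Sum.inl (κ, i, β))) =
      typ (r := r) (fun a i => (g (Sum.inr (Sum.inl (false, i, true)))).2 a)
      (fun a i => (g (Sum.inr (Sum.inl (true, i, true)))).2 a)
      (Sum.inr (Sum.inl (κ, i, β))) := by
    intro κ i β
    refine Prod.ext (hcp κ i β) ?_
    funext a
    simp only [typ]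
    cases κ <;> cases β <;> simp [hbit]
  have h7 : c.eval x = f (Sum.elim (quX a b) (quY p q)) := by
    rw [← hx]
    exact hloc _ _ fun v => (hext (fun v => x (e v)) v).symm
  rw [h7, hgf]
  refine Iff.trans ?_ (typ_query (r := r) (fun a i => (g (Sum.inr (Sum.inl (false, i, true)))).2 a)
    (fun a i => (g (Sum.inr (Sum.inl (true, i, true)))).2 a) a b p q)
  constructor
  · rintro ⟨y, h5, h6⟩
    refine ⟨y, h5, ?_⟩
    rcases y with u | (⟨κ, i, β⟩ | j)
    · simp [quY] at h5
    · rw [hgt κ i β] at h6
      exact h6
    · simp [quY] at h5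
  · rintro ⟨y, h5, h6⟩
    refine ⟨y, h5, ?_⟩
    rcases y with u | (⟨κ, i, β⟩ | j)
    · simp [quY] at h5
    · rw [hgt κ i β]
      exact h6
    · simp [quY] at h5

/-- The circuits given by two tuples of words, in a larger arity. -/
theorem exists_emb {k m r n : ℕ} (e : VT k m r ↪ Fin n) (w0 w1 : Fin k → Fin m → Bool) :
    ∃ c : Circuit n, c.size + 1 = Fintype.card (VT k m r) ∧
      (∀ (a b : Fin k) (p q : Fin m → Bool) (x : Fin n → Bool),
        (fun v => x (e v)) = (Sum.elim (quX a b) (quY p q) : VT k m r → Bool) →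
        (c.eval x = true ↔ ¬ (w0 a = p ∧ w1 b = q))) ∧
      ∀ bad : Fin k → (Fin m → Bool) → Fin k → (Fin m → Bool) → Prop,
        (∀ a b, ¬ bad a (w0 a) b (w1 b)) → ∀ (x : Fin n → Bool) (b : Bool),
          tab k m r bad (fun v => x (e v)) = some b → c.eval x = b := by
  obtain ⟨c, hc, hev⟩ := exists_typed_circuit_emb (fun v => e v) (typ (r := r) w0 w1)
    (fun v => rfl)
  refine ⟨c, hc, fun a b p q x hx => ?_, fun bad hw x b hb => ?_⟩
  · rw [hev _ _ x hx, typ_query]
  · obtain ⟨S, S', hS⟩ := elim_surj (fun v => x (e v))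
    rw [hS] at hb
    unfold tab at hb
    split_ifs at hb with h1 h2
    · cases hb
      cases hv : c.eval x with
      | false => rfl
      | true => exact absurd ((hev S S' x hS).mp hv) (typ_zer w0 w1 h1)
    · cases hb
      rcases typ_one w0 w1 h2 with h3 | ⟨a, b, h3, -⟩
      · exact (hev S S' x hS).mpr h3
      · exact absurd h3 (hw a b)

/-- **The table of a system of pair constraints is consistent with a circuit with fewer gates
than the gadget has variables iff the system has a solution.** -/
theorem core_emb {k m r n : ℕ} (hm : 0 < m)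
    (bad : Fin k → (Fin m → Bool) → Fin k → (Fin m → Bool) → Prop)
    (e : VT k m r ↪ Fin n) :
    (∃ c : Circuit n, c.size + 1 ≤ Fintype.card (VT k m r) ∧
      ∀ (x : Fin n → Bool) (b : Bool),
        tab k m r bad (fun v => x (e v)) = some b → c.eval x = b) ↔
    ∃ w0 w1 : Fin k → Fin m → Bool, ∀ a b, ¬ bad a (w0 a) b (w1 b) := by
  constructor
  · rintro ⟨c, hsize, hc⟩
    obtain ⟨w0, w1, hw⟩ := struct_emb hm bad e c hsize hc
    refine ⟨w0, w1, fun a b hbad => ?_⟩
    classical
    -- a point where the table is 1
    let x : Fin n → Bool := fun i =>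
      if h : ∃ v, e v = i then
        (Sum.elim (quX a b) (quY (w0 a) (w1 b)) : VT k m r → Bool) h.choose else false
    have hx : (fun v => x (e v)) = (Sum.elim (quX a b) (quY (w0 a) (w1 b)) :
        VT k m r → Bool) := by
      funext v
      have h : ∃ v', e v' = e v := ⟨v, rfl⟩
      simp only [x, h, dite_true]
      rw [e.injective h.choose_spec]
    have h1 : c.eval x = true := hc x true (by
      rw [hx]; exact tab_one hm (One.e a b _ _ hbad))
    exact (hw a b _ _ x hx).mp h1 ⟨rfl, rfl⟩
  · rintro ⟨w0, w1, hw⟩
    obtain ⟨c, hc, -, h⟩ := exists_emb e w0 w1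
    exact ⟨c, hc.le, h bad hw⟩

theorem card_VT (k m r : ℕ) : Fintype.card (VT k m r) = 4 * (2 ^ k + m) + r := by
  simp only [Fintype.card_fin, Fintype.card_sum, Fintype.card_prod, Fintype.card_bool,
      Fintype.card_pi, Finset.prod_const, Finset.card_univ]
  ring

end Pool.Agent.H87.PMCSP
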