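import Pool.Agent.H87.PMCSP.Corr

/-!
# The reduction from Clique to Partial MCSP
-/

namespace Pool.Agent.H87.PMCSP

open Pool.Agent.PPS

/-! ### The encoding of instances is injective -/

/-- Letters: `none` is the separator. -/
def codeLetter : Option (Option Bool) → List Bool
  | none => codeSep
  | some e => codeEntry e

theorem codeLetter_flat_inj : ∀ (l l' : List (Option (Option Bool))),
    l.flatMap codeLetter = l'.flatMap codeLetter → l = l' := by
  intro l
  induction l with
  | nil =>
    intro l' h
    cases l' with
    | nil => rfl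
    | cons a l' =>
      rcases a with _ | (_ | _ | _) <;> simp [codeLetter, codeSep, codeEntry] at h
  | cons a l ih =>
    intro l' h
    cases l' with
    | nil => rcases a with _ | (_ | _ | _) <;> simp [codeLetter, codeSep, codeEntry] at h
    | cons b l' =>
      rcases a with _ | (_ | _ | _) <;> rcases b with _ | (_ | _ | _) <;>
        simp [codeLetter, codeSep, codeEntry] at h ⊢ <;> exact ih _ h

theorem split_sep {a a' : List (Option Bool)} {b b' : List (Option (Option Bool))}
    (h : a.map some ++ none :: b = a'.map some ++ none :: b') : a = a' ∧ b = b' := by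
  induction a generalizing a' with
  | nil =>
    cases a' with
    | nil => simpa using h
    | cons c a' => simp at h
  | cons c a ih =>
    cases a' with
    | nil => simp at h
    | cons c' a' =>
      simp only [List.map_cons, List.cons_append, List.cons.injEq, Option.some.injEq] at h
      obtain ⟨h1, h2⟩ := ih h.2
      exact ⟨by rw [h.1, h1], h2⟩

theorem flatMap_some (l : List (Option Bool)) :
    l.flatMap codeEntry = (l.map some).flatMap codeLetter := by
  rw [List.flatMap_map]
  rfl

theorem encodeInstance_eq (n : ℕ) (T : List (Option Bool)) (s : ℕ) :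
    encodeInstance n T s = (((Nat.bits n).reverse.map some).map some ++ none ::
      (T.map some ++ none :: (List.replicate s (some true)).map some)).flatMap codeLetter := by
  unfold encodeInstance
  rw [flatMap_some, flatMap_some, flatMap_some]
  simp only [List.flatMap_append, List.flatMap_cons]
  rfl

theorem bits_inj {n n' : ℕ} (h : Nat.bits n = Nat.bits n') : n = n' := by
  induction n using Nat.binaryRec' generalizing n' with
  | zero =>
    by_contra hne
    have h1 : 0 < Nat.size n' := Nat.size_pos.mpr (by omega)
    rw [← Nat.size_eq_bits_len, ← h] at h1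
    simp at h1
  | bit b n hb ih =>
    induction n' using Nat.binaryRec' with
    | zero =>
      rw [Nat.bits_append_bit n b hb] at h
      simp at h
    | bit b' n' hb' _ =>
      rw [Nat.bits_append_bit n b hb, Nat.bits_append_bit n' b' hb'] at h
      simp only [List.cons.injEq] at h
      rw [h.1, ih h.2]

theorem encodeInstance_inj {n n' s s' : ℕ} {T T' : List (Option Bool)}
    (h : encodeInstance n T s = encodeInstance n' T' s') : n = n' ∧ T = T' ∧ s = s' := by
  rw [encodeInstance_eq, encodeInstance_eq] at h
  have h1 := codeLetter_flat_inj _ _ h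
  obtain ⟨h2, h3⟩ := split_sep h1
  obtain ⟨h4, h5⟩ := split_sep h3
  refine ⟨?_, h4, ?_⟩
  · have h6 : Function.Injective (some : Bool → Option Bool) := Option.some_injective _
    exact bits_inj (List.reverse_injective (List.map_injective_iff.mpr h6 h2))
  · have := congrArg List.length h5
    simpa using this

theorem encodeInstance_mem {n s : ℕ} {T : List (Option Bool)} (hT : T.length = 2 ^ n) :
    encodeInstance n T s ∈ PartialMCSP ↔ ∃ c : Circuit n, c.size ≤ s ∧ c.Consistent T := by
  constructor
  · rintro ⟨n', s', T', h1, h2, h3⟩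
    obtain ⟨rfl, rfl, rfl⟩ := encodeInstance_inj h1
    exact h3
  · intro h
    exact ⟨n, s, T, rfl, hT, h⟩

/-! ### The reduction -/

/-- The parameters read off from a word. -/
def rk (w : List Bool) : ℕ := lead w

def r1 (w : List Bool) : List Bool := w.drop (lead w + 1)

def rV (w : List Bool) : ℕ := lead (r1 w)

def rM (w : List Bool) : List Bool := (r1 w).drop (lead (r1 w) + 1)

def rm (w : List Bool) : ℕ := Nat.size (rV w)

def rk' (w : List Bool) : ℕ :=
  bif decide (rk w ≤ Nat.size (rm w) - 1) then rk w else Nat.size (rm w) - 1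

/-- The reduction. -/
def red (w : List Bool) : List Bool :=
  encodeInstance (4 * (2 ^ rk' w + rm w)) (table (rk' w) (rm w) (rV w) (rM w))
    (4 * (2 ^ rk' w + rm w) - 1)

section PT

variable {t : Bool} {α : Type} [Rep α]

theorem PT.codeEntry' : PT t codeEntry := by
  have h := PT.optCase (m := t) (α := Option Bool) (β := Bool) (γ := List Bool)
    (o := fun a => a) (f := fun _ => [true, false]) (g := fun z => [false, z.1])
    (by fun_prop) (by fun_prop) (by fun_prop)
  refine h.of_eq fun a => ?_
  cases a <;> rfl

theorem PT.encodeInstance' {n s : α → ℕ} {T : α → List (Option Bool)} (hn : PT t n)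
    (hT : PT t T) (hs : PT t s) : PT t (fun a => encodeInstance (n a) (T a) (s a)) := by
  unfold encodeInstance
  have hc : ∀ {l : α → List (Option Bool)}, PT t l →
      PT t (fun a => (l a).flatMap codeEntry) := by
    intro l hl
    exact PT.flatMap' (f := fun z : α × Option Bool => codeEntry z.2) hl
      (PT.codeEntry'.comp (by fun_prop))
  have h1 : PT t (fun a => (Nat.bits (n a)).reverse.map some) :=
    PT.map' (f := fun z : α × Bool => some z.2) (by fun_prop) (by fun_prop)
  have h2 : PT t (fun a => List.replicate (s a) (some true)) := by fun_prop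
  have h3 : PT t (fun _ : α => codeSep) := PT.const' _
  exact PT.append' (hc h1) (PT.append' h3 (PT.append' (hc hT) (PT.append' h3 (hc h2))))

theorem PT.rk0 : PT t rk := by unfold rk; fun_prop

theorem PT.r10 : PT t r1 := by unfold r1; fun_prop

theorem PT.rV0 : PT t rV := by
  have := PT.r10 (t := t)
  unfold rV; fun_prop

theorem PT.rM0 : PT t rM := by
  have := PT.r10 (t := t)
  unfold rM; fun_prop

theorem PT.rm0 : PT t rm := by
  have := PT.rV0 (t := t)
  unfold rm; fun_prop

theorem PT.rk'0 : PT t rk' := by
  have h1 := PT.rk0 (t := t)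
  have h2 := PT.rm0 (t := t)
  unfold rk'; fun_prop

theorem rk'_le (w : List Bool) : 2 ^ rk' w ≤ rm w + 1 := by
  have h : rk' w ≤ Nat.size (rm w) - 1 := by
    unfold rk'
    by_cases hd : rk w ≤ Nat.size (rm w) - 1
    · rw [decide_eq_true hd]; exact hd
    · rw [decide_eq_false hd]; exact le_rfl
  rcases Nat.eq_zero_or_pos (Nat.size (rm w)) with h0 | h0
  · rw [h0] at h
    have : rk' w = 0 := by omega
    rw [this]
    simp
  · have h1 : rk' w < Nat.size (rm w) := by omega
    have := Nat.lt_size.mp h1
    omega

theorem two_pow_rm_le (w : List Bool) : 2 ^ rm w ≤ 2 * rV w + 1 := by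
  unfold rm
  rcases Nat.eq_zero_or_pos (Nat.size (rV w)) with h | h
  · rw [h]; simp
  · obtain ⟨j, hj⟩ : ∃ j, Nat.size (rV w) = j + 1 := ⟨Nat.size (rV w) - 1, by omega⟩
    have h4 := Nat.lt_size.mp (show j < Nat.size (rV w) by omega)
    rw [hj, pow_succ]
    omega

theorem rV_le (w : List Bool) : rV w ≤ size w := by
  unfold rV r1
  refine (lead_le _).trans ?_
  rw [List.length_drop]
  exact (Nat.sub_le _ _).trans (length_le_size w)

theorem PT.red0 : PT t red := by
  unfold red
  have hk := PT.rk'0 (t := t)
  have hm := PT.rm0 (t := t)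
  have hV := PT.rV0 (t := t)
  have hM := PT.rM0 (t := t)
  have hq : ∀ w : List Bool, 2 ^ (2 ^ rk' w + rm w) ≤
      (2 * (2 * Polynomial.X + 1) ^ 2 : Polynomial ℕ).eval (size w) := by
    intro w
    have h1 := rk'_le w
    have h2 := two_pow_rm_le w
    have h3 := rV_le w
    have h4 : 2 ^ (2 ^ rk' w + rm w) ≤ 2 * (2 ^ rm w) ^ 2 := by
      have : (2 : ℕ) * (2 ^ rm w) ^ 2 = 2 ^ (rm w + 1 + rm w) := by ring
      rw [this]
      exact Nat.pow_le_pow_right (by norm_num) (by omega)
    refine h4.trans ?_
    simp only [Polynomial.eval_mul, Polynomial.eval_pow, Polynomial.eval_add,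
      Polynomial.eval_ofNat, Polynomial.eval_X, Polynomial.eval_one]
    refine Nat.mul_le_mul_left _ (Nat.pow_le_pow_left ?_ 2)
    omega
  have hT := PT.table' (t := t) hk hm hV hM _ hq
  have h2 : ∀ a : List Bool, 2 ^ (rk' a) ≤
      (2 * (2 * Polynomial.X + 1) ^ 2 : Polynomial ℕ).eval (size a) := fun a =>
    (Nat.lt_two_pow_self.le.trans (Nat.pow_le_pow_right (by norm_num)
      (Nat.le_add_right _ (rm a)))).trans (hq a)
  have hU : PT t (fun a => allBits (rk' a)) := PT.allBits' hk _ h2
  have hn : PT t (fun a => 4 * (2 ^ rk' a + rm a)) := by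
    have h4 : PT t (fun a => 4 * ((allBits (rk' a)).length + rm a)) := by fun_prop
    convert h4 using 2 with a
    rw [length_allBits]
  exact PT.encodeInstance' hn hT (by fun_prop)

end PT

theorem red_mem_FP : red ∈ FP := mem_FP_iff.mpr PT.red0

/-! ### Correctness -/

theorem allBits_nodup (n : ℕ) : (allBits n).Nodup := by
  induction n with
  | zero => simp [allBits]
  | succ n ih =>
    simp only [allBits]
    refine List.Nodup.append (ih.map (List.cons_injective)) (ih.map (List.cons_injective)) ?_
    intro l h1 h2
    simp only [List.mem_map] at h1 h2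
    obtain ⟨a, -, rfl⟩ := h1
    obtain ⟨b, -, h⟩ := h2
    simp at h

theorem getD_inj {m i j : ℕ} (hi : i < 2 ^ m) (hj : j < 2 ^ m)
    (h : (allBits m).getD i [] = (allBits m).getD j []) : i = j := by
  rw [List.getD_eq_getElem _ _ (by rw [length_allBits]; exact hi),
    List.getD_eq_getElem _ _ (by rw [length_allBits]; exact hj)] at h
  exact (List.Nodup.getElem_inj_iff (allBits_nodup m)).mp h

theorem exists_getD {m : ℕ} (p : Fin m → Bool) :
    ∃ i, i < 2 ^ m ∧ (allBits m).getD i [] = List.ofFn p := by
  obtain ⟨i, hi, h⟩ := List.mem_iff_getElem.mp (ofFn_mem p)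
  refine ⟨i, by rw [length_allBits] at hi; exact hi, ?_⟩
  rw [List.getD_eq_getElem _ _ hi]
  exact h

theorem bitAt_matrix {V W : ℕ} (A : Fin V → Fin W → Bool) (i : Fin V) (j : Fin W) :
    bitAt ((List.finRange V).flatMap fun i => (List.finRange W).map fun j => A i j)
      (i * W + j) = A i j := by
  induction V with
  | zero => exact i.elim0
  | succ V ih =>
    rw [List.finRange_succ, List.flatMap_cons, bitAt_append]
    simp only [List.length_map, List.length_finRange]
    refine Fin.cases ?_ (fun i => ?_) i
    · simp only [Fin.val_zero, Nat.zero_mul, Nat.zero_add, j.2, decide_true, cond_true]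
      unfold bitAt
      rw [List.getD_eq_getElem _ _ (by simp)]
      simp
    · have h1 : ¬ ((i.succ : Fin (V + 1)) : ℕ) * W + j < W := by
        rw [Fin.val_succ, Nat.add_mul]
        omega
      rw [decide_eq_false h1, cond_false]
      have h2 : ((i.succ : Fin (V + 1)) : ℕ) * W + j - W = i * W + j := by
        rw [Fin.val_succ, Nat.add_mul]
        omega
      rw [h2, List.flatMap_map]
      exact ih (fun i j => A i.succ j) i

open Classical in
/-- The adjacency matrix. -/
noncomputable def adjM {V : ℕ} (G : SimpleGraph (Fin V)) : List Bool :=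
  (List.finRange V).flatMap fun i => (List.finRange V).map fun j => decide (G.Adj i j)

theorem bitAt_adjM {V : ℕ} (G : SimpleGraph (Fin V)) (i j : Fin V) :
    bitAt (adjM G) (i * V + j) = true ↔ G.Adj i j := by
  unfold adjM
  rw [bitAt_matrix]
  simp

theorem solvable_iff {k m V : ℕ} (hV : V ≤ 2 ^ m) (G : SimpleGraph (Fin V)) :
    (∃ w0 w1 : Fin k → Fin m → Bool, ∀ a b, ¬ badR V (adjM G) a (w0 a) b (w1 b)) ↔
      ∃ K : Finset (Fin V), G.IsNClique k K := by
  classical
  constructor
  · rintro ⟨w0, w1, hw⟩
    choose i hi hi' using fun a => exists_getD (w0 a)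
    choose j hj hj' using fun a => exists_getD (w1 a)
    have hok : ∀ a b : Fin k, okP V (adjM G) a b (i a) (j b) = true := by
      intro a b
      by_contra h
      exact hw a b ⟨i a, j b, hi a, hj b, hi' a, hj' b, by simpa using h⟩
    have hiV : ∀ a, i a < V := by
      intro a
      have := hok a a
      simp only [okP, Bool.and_eq_true, decide_eq_true_eq] at this
      exact this.1
    have hij : ∀ a, i a = j a := by
      intro a
      have := hok a a
      simp only [okP, Bool.and_eq_true, decide_eq_true_eq, decide_true, cond_true] at this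
      exact this.2.2
    have hadj : ∀ a b : Fin k, a ≠ b → G.Adj ⟨i a, hiV a⟩ ⟨i b, hiV b⟩ := by
      intro a b hab
      have := hok a b
      have hne : ¬ (a : ℕ) = b := fun h => hab (Fin.ext h)
      simp only [okP, Bool.and_eq_true, hne, decide_false, cond_false] at this
      rw [← hij b] at this
      exact (bitAt_adjM G ⟨i a, hiV a⟩ ⟨i b, hiV b⟩).mp this.2.2
    let c : Fin k → Fin V := fun a => ⟨i a, hiV a⟩
    have hc : Function.Injective c := by
      intro a b hab
      by_contra hne
      have := hadj a b hne
      simp only [c] at hab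
      rw [hab] at this
      exact G.irrefl this
    refine ⟨Finset.univ.image c, ?_, ?_⟩
    · intro x hx y hy hxy
      simp only [Finset.coe_image, Finset.coe_univ, Set.image_univ, Set.mem_range] at hx hy
      obtain ⟨a, rfl⟩ := hx
      obtain ⟨b, rfl⟩ := hy
      exact hadj a b (fun h => hxy (by rw [h]))
    · rw [Finset.card_image_of_injective _ hc]
      simp
  · rintro ⟨K, hK, hcard⟩
    let c : Fin k → Fin V := fun a => (K.equivFinOfCardEq hcard).symm a
    have hc : Function.Injective c := fun a b h => by
      have := Subtype.ext h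
      exact (K.equivFinOfCardEq hcard).symm.injective this
    have hadj : ∀ a b, a ≠ b → G.Adj (c a) (c b) := by
      intro a b hab
      exact hK ((K.equivFinOfCardEq hcard).symm a).2 ((K.equivFinOfCardEq hcard).symm b).2
        (fun h => hab (hc h))
    have hlt : ∀ a, (c a : ℕ) < 2 ^ m := fun a => (c a).2.trans_le hV
    refine ⟨fun a => tup ((allBits m).getD (c a) []), fun a => tup ((allBits m).getD (c a) []),
      ?_⟩
    rintro a b ⟨i, j, hi, hj, h1, h2, h3⟩
    rw [ofFn_tup (getD_length (hlt a))] at h1
    rw [ofFn_tup (getD_length (hlt b))] at h2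
    have e1 := getD_inj hi (hlt a) h1
    have e2 := getD_inj hj (hlt b) h2
    subst e1 e2
    have h4 : okP V (adjM G) a b (c a) (c b) = true := by
      simp only [okP, (c a).2, (c b).2, decide_true, Bool.true_and]
      by_cases hab : a = b
      · subst hab; simp
      · have hne : ¬ (a : ℕ) = b := fun h => hab (Fin.ext h)
        rw [decide_eq_false hne, cond_false]
        exact (bitAt_adjM G _ _).mpr (hadj a b hab)
    rw [h4] at h3
    cases h3

theorem encodeGraph_eq (k : ℕ) {V : ℕ} (G : SimpleGraph (Fin V)) : encodeGraph k G =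
    List.replicate k true ++ false :: (List.replicate V true ++ false :: adjM G) := rfl

theorem red_correct (k V : ℕ) (G : SimpleGraph (Fin V)) (h : 2 ^ 2 ^ k ≤ V) :
    (∃ (n : ℕ) (T : List (Option Bool)),
      red (encodeGraph k G) = encodeInstance n T (n - 1)) ∧
    ((∃ K : Finset (Fin V), G.IsNClique k K) ↔ red (encodeGraph k G) ∈ PartialMCSP) := by
  have hk : rk (encodeGraph k G) = k := by
    rw [encodeGraph_eq]; exact lead_append _ _
  have hdrop : ∀ (k : ℕ) (l : List Bool), (List.replicate k true ++ false :: l).drop (k + 1) =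
      l := by
    intro k l
    rw [List.drop_append]
    simp
  have h1 : r1 (encodeGraph k G) = List.replicate V true ++ false :: adjM G := by
    unfold r1
    rw [show lead (encodeGraph k G) = k from hk, encodeGraph_eq, hdrop]
  have hV : rV (encodeGraph k G) = V := by
    unfold rV; rw [h1]; exact lead_append _ _
  have hM : rM (encodeGraph k G) = adjM G := by
    unfold rM; rw [h1, lead_append, hdrop]
  have hm : rm (encodeGraph k G) = Nat.size V := by unfold rm; rw [hV]
  have hkm : 2 ^ k < Nat.size V := Nat.lt_size.mpr h
  have hk' : rk' (encodeGraph k G) = k := by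
    unfold rk'
    rw [hk, hm]
    have : k < Nat.size (Nat.size V) := Nat.lt_size.mpr hkm.le
    rw [decide_eq_true (by omega)]
    rfl
  have hmpos : 0 < Nat.size V := lt_of_le_of_lt (Nat.zero_le _) hkm
  refine ⟨⟨_, _, rfl⟩, ?_⟩
  unfold red
  rw [hk', hm, hV, hM, encodeInstance_mem (by simp [table]), table_consistent hmpos,
    solvable_iff (Nat.lt_size_self V).le]

end Pool.Agent.H87.PMCSP
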