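import Pool.Agent.H87.PMCSP.Rigid

/-!
# Circuits from formulas, and circuits for assignments of types
-/

namespace Pool.Agent.H87.PMCSP

/-- Monotone formulas. -/
inductive Fm (V : Type) : Type
  | leaf (v : V) : Fm V
  | node (c : Bool) (l r : Fm V) : Fm V

namespace Fm

variable {V : Type}

/-- The number of gates. -/
def nodes : Fm V → ℕ
  | leaf _ => 0
  | node _ l r => l.nodes + r.nodes + 1

/-- The function of a formula. -/
def fn : Fm V → (V → Bool) → Bool
  | leaf v => fun z => z v
  | node c l r => fun z => gop c (l.fn z) (r.fn z)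

end Fm

/-- `f` can be computed with `s` further gates when the wires carry the functions `W`. -/
def Can {Z : Type} (N : ℕ) (W : Fin N → Z → Bool) (s : ℕ) (f : Z → Bool) : Prop :=
  ∃ c : Circuit N, c.size = s ∧ ∀ z, c.eval (fun i => W i z) = f z

theorem Can.out {Z : Type} {N : ℕ} (W : Fin N → Z → Bool) (i : Fin N) :
    Can N W 0 (W i) :=
  ⟨Circuit.out i false, rfl, fun z => by simp [Circuit.eval]⟩

theorem Can.gate {Z : Type} {N : ℕ} {W : Fin N → Z → Bool} {s : ℕ} {f : Z → Bool} (c : Bool)
    (i j : Fin N)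
    (h : Can (N + 1) (Fin.snoc (α := fun _ => Z → Bool) W (fun z => gop c (W i z) (W j z)))
      s f) : Can N W (s + 1) f := by
  obtain ⟨C, hs, hC⟩ := h
  refine ⟨Circuit.gate c i false j false C, by simp [Circuit.size, hs], fun z => ?_⟩
  rw [← hC z]
  simp only [Circuit.eval, Bool.bne_false]
  congr 1
  funext k
  refine Fin.lastCases ?_ (fun k => ?_) k
  · simp
  · simp

theorem build {V : Type} (F : Fm V) : ∀ (N : ℕ) (W : Fin N → (V → Bool) → Bool) (s : ℕ)
    (f : (V → Bool) → Bool), (∀ v, ∃ i, W i = fun z => z v) →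
    (∀ (M : ℕ) (W' : Fin M → (V → Bool) → Bool), (∀ i, ∃ j, W' j = W i) →
      (∃ j, W' j = F.fn) → Can M W' s f) → Can N W (s + F.nodes) f := by
  induction F with
  | leaf v =>
    intro N W s f hv hW
    exact hW N W (fun i => ⟨i, rfl⟩) (hv v)
  | node c l r ihl ihr =>
    intro N W s f hv hW
    have h1 := ihl N W (s + r.nodes + 1) f hv (by
      intro M W' h1 h2
      have h3 := ihr M W' (s + 1) f (by
        intro v
        obtain ⟨i, hi⟩ := hv v
        obtain ⟨j, hj⟩ := h1 i
        exact ⟨j, hj.trans hi⟩) (by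
        intro M' W'' h3 h4
        obtain ⟨a, ha⟩ := h2
        obtain ⟨a', ha'⟩ := h3 a
        obtain ⟨b, hb⟩ := h4
        apply Can.gate c a' b
        apply hW
        · intro i
          obtain ⟨j, hj⟩ := h1 i
          obtain ⟨j', hj'⟩ := h3 j
          exact ⟨j'.castSucc, by rw [Fin.snoc_castSucc, hj', hj]⟩
        · refine ⟨Fin.last _, ?_⟩
          rw [Fin.snoc_last, hb, ha', ha]
          rfl)
      have e : s + r.nodes + 1 = s + 1 + r.nodes := by omega
      rw [e]
      exact h3)
    have e : s + (Fm.node c l r).nodes = s + r.nodes + 1 + l.nodes := by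
      simp only [Fm.nodes]; omega
    rw [e]
    exact h1

theorem exists_circuit {V : Type} {n : ℕ} (e : Fin n ≃ V) (F : Fm V) :
    ∃ c : Circuit n, c.size = F.nodes ∧ ∀ z : V → Bool, c.eval (fun i => z (e i)) = F.fn z := by
  have := build F n (fun i z => z (e i)) 0 F.fn
    (fun v => ⟨e.symm v, by simp⟩) (by
      rintro M W' - ⟨j, hj⟩
      rw [← hj]
      exact Can.out W' j)
  rw [Nat.zero_add] at this
  exact this

/-! ### Disjunctions of lists of formulas -/

/-- The disjunction of a nonempty list of formulas. -/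
def orList {V : Type} : Fm V → List (Fm V) → Fm V
  | F, [] => F
  | F, G :: L => Fm.node false F (orList G L)

theorem orList_nodes {V : Type} (F : Fm V) (L : List (Fm V)) :
    (orList F L).nodes + 1 = ((F :: L).map (fun G => G.nodes + 1)).sum := by
  induction L generalizing F with
  | nil => simp [orList]
  | cons G L ih =>
    rw [List.map_cons, List.sum_cons, ← ih G]
    simp only [orList, Fm.nodes]
    omega

theorem orList_fn {V : Type} (F : Fm V) (L : List (Fm V)) (z : V → Bool) :
    (orList F L).fn z = true ↔ ∃ G ∈ F :: L, G.fn z = true := by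
  induction L generalizing F with
  | nil => simp [orList]
  | cons G L ih =>
    simp only [orList, Fm.fn, gop_false, Bool.or_eq_true]
    rw [ih G]
    simp

variable {X Y : Type} [DecidableEq X] [DecidableEq Y] [Fintype X] [Fintype Y]

/-- The elements of `Y` of type `u`. -/
noncomputable def ofType (g : X ⊕ Y → X) (u : X) : List Y :=
  (Finset.univ.filter fun y => g (Sum.inr y) = u).toList

/-- `x_u ∧ (d_u ∨ ⋁_{g y = u} y)` -/
noncomputable def term (g : X ⊕ Y → X) (u : X) : Fm (Var X Y) :=
  Fm.node true (Fm.leaf (Sum.inl u)) (orList (Fm.leaf (Sum.inr (Sum.inl u)))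
    ((ofType g u).map fun y => Fm.leaf (Sum.inr (Sum.inr y))))

theorem term_nodes (g : X ⊕ Y → X) (u : X) :
    (term g u).nodes = (Finset.univ.filter fun y => g (Sum.inr y) = u).card + 1 := by
  have h := orList_nodes (Fm.leaf (Sum.inr (Sum.inl u)) : Fm (Var X Y))
    ((ofType g u).map fun y => Fm.leaf (Sum.inr (Sum.inr y)))
  simp only [List.map_cons, List.map_map, List.sum_cons, Fm.nodes, Function.comp_def,
    List.map_const', List.sum_replicate, ofType, Finset.length_toList] at h
  simp only [term, Fm.nodes]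
  simp only [ofType]
  simp only [smul_eq_mul] at h
  omega

theorem term_fn (g : X ⊕ Y → X) (hg : ∀ v, g (Sum.inl v) = v) (u : X) (S : X → Bool)
    (S' : X ⊕ Y → Bool) : (term g u).fn (Sum.elim S S') = true ↔
      S u = true ∧ ∃ e, S' e = true ∧ g e = u := by
  simp only [term, Fm.fn, gop_true, Bool.and_eq_true, Sum.elim_inl]
  refine and_congr_right fun _ => ?_
  rw [orList_fn]
  simp only [List.mem_cons, exists_eq_or_imp, Fm.fn, Sum.elim_inr, List.mem_map, ofType,
    Finset.mem_toList, Finset.mem_filter, Finset.mem_univ, true_and]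
  constructor
  · rintro (h | ⟨G, ⟨y, hy, rfl⟩, hG⟩)
    · exact ⟨_, h, hg u⟩
    · exact ⟨_, hG, hy⟩
  · rintro ⟨v | y, h1, h2⟩
    · rw [hg] at h2
      subst h2
      exact Or.inl h1
    · exact Or.inr ⟨_, ⟨y, h2, rfl⟩, h1⟩

theorem exists_typed_circuit [Nonempty X] {n : ℕ} (e : Fin n ≃ Var X Y) (g : X ⊕ Y → X)
    (hg : ∀ v, g (Sum.inl v) = v) :
    ∃ c : Circuit n, c.size + 1 = n ∧ ∀ (S : X → Bool) (S' : X ⊕ Y → Bool),
      c.eval (fun i => (Sum.elim S S' : Var X Y → Bool) (e i)) = true ↔
        ∃ a, S' a = true ∧ S (g a) = true := by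
  have hcard : n = Fintype.card X + (Fintype.card X + Fintype.card Y) := by
    rw [← Fintype.card_sum, ← Fintype.card_sum, ← Fintype.card_congr e, Fintype.card_fin]
  obtain ⟨u0, us, hus⟩ : ∃ u0 us, (Finset.univ : Finset X).toList = u0 :: us := by
    cases h : (Finset.univ : Finset X).toList with
    | nil =>
      exfalso
      rw [Finset.toList_eq_nil] at h
      exact Finset.univ_nonempty.ne_empty h
    | cons a l => exact ⟨a, l, rfl⟩
  obtain ⟨c, hc, hev⟩ := exists_circuit e (orList (term g u0) (us.map (term g)))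
  refine ⟨c, ?_, fun S S' => ?_⟩
  · rw [hc, orList_nodes, ← List.map_cons, ← hus, List.map_map]
    have h1 := Finset.sum_map_toList (Finset.univ : Finset X)
      ((fun G : Fm (Var X Y) => G.nodes + 1) ∘ term g)
    rw [h1]
    simp only [Function.comp_def, term_nodes]
    have h2 := Finset.card_eq_sum_card_fiberwise (s := (Finset.univ : Finset Y))
      (t := (Finset.univ : Finset X)) (f := fun y => g (Sum.inr y)) (by
        intro y _; simp)
    rw [Finset.sum_add_distrib, Finset.sum_add_distrib, ← h2]
    simp only [Finset.sum_const, Finset.card_univ, smul_eq_mul, mul_one]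
    omega
  · rw [hev, orList_fn, ← List.map_cons, ← hus]
    simp only [List.mem_map, Finset.mem_toList, Finset.mem_univ, true_and,
      exists_exists_eq_and]
    constructor
    · rintro ⟨u, hu⟩
      obtain ⟨h1, a, h2, h3⟩ := (term_fn g hg u S S').mp hu
      exact ⟨a, h2, by rw [h3]; exact h1⟩
    · rintro ⟨a, h1, h2⟩
      exact ⟨g a, (term_fn g hg _ S S').mpr ⟨h2, a, h1, rfl⟩⟩

end Pool.Agent.H87.PMCSP
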