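import Pool.Agent.H87.PMCSP.Defs

/-!
# Boolean circuits over AND and OR with free negations; read-once functions
-/

namespace Pool.Agent.H87.PMCSP

/-! ### Read-once functions -/

/-- `RO r S f`: the function `f` is computed by a read-once formula whose variables are those
of `S`, the leaf of the variable `v` being negated iff `r v`. -/
inductive RO {V : Type} [DecidableEq V] (r : V → Bool) :
    Finset V → ((V → Bool) → Bool) → Prop
  | lit (v : V) : RO r {v} (fun x => xor (x v) (r v))
  | node (c : Bool) (S T : Finset V) (f g : (V → Bool) → Bool) (h : Disjoint S T)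
      (hf : RO r S f) (hg : RO r T g) : RO r (S ∪ T) (fun x => gop c (f x) (g x))

variable {V V' : Type} [DecidableEq V] [DecidableEq V']

theorem RO.congr {r r' : V → Bool} {S : Finset V} {f : (V → Bool) → Bool} (h : RO r S f)
    (hr : ∀ v ∈ S, r v = r' v) : RO r' S f := by
  induction h with
  | lit v =>
    rw [hr v (by simp)]
    exact RO.lit v
  | node c S T f g h hf hg ihf ihg =>
    exact RO.node c S T f g h (ihf fun v hv => hr v (by simp [hv]))
      (ihg fun v hv => hr v (by simp [hv]))

theorem RO.nonempty {r : V → Bool} {S : Finset V} {f : (V → Bool) → Bool} (h : RO r S f) :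
    S.Nonempty := by
  induction h with
  | lit v => exact ⟨v, by simp⟩
  | node c S T f g h hf hg ihf ihg =>
    obtain ⟨v, hv⟩ := ihf
    exact ⟨v, by simp [hv]⟩

theorem RO.local' {r : V → Bool} {S : Finset V} {f : (V → Bool) → Bool} (h : RO r S f) :
    ∀ {x y : V → Bool}, (∀ v ∈ S, x v = y v) → f x = f y := by
  induction h with
  | lit v => intro x y hxy; simp only; rw [hxy v (by simp)]
  | node c S T f g h hf hg ihf ihg =>
    intro x y hxy
    simp only
    rw [ihf fun v hv => hxy v (by simp [hv]), ihg fun v hv => hxy v (by simp [hv])]

theorem gop_not (c a b : Bool) : gop (!c) (!a) (!b) = !gop c a b := by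
  cases c <;> cases a <;> cases b <;> rfl

/-- Read-once for some choice of signs. -/
def REx (S : Finset V) (f : (V → Bool) → Bool) : Prop := ∃ r : V → Bool, RO r S f

theorem REx.lit (v : V) (b : Bool) : REx {v} (fun x : V → Bool => xor (x v) b) :=
  ⟨fun _ => b, RO.lit (r := fun _ => b) v⟩

theorem REx.node (c : Bool) {S T : Finset V} {f g : (V → Bool) → Bool} (h : Disjoint S T)
    (hf : REx S f) (hg : REx T g) : REx (S ∪ T) (fun x => gop c (f x) (g x)) := by
  obtain ⟨r, hf⟩ := hf
  obtain ⟨r', hg⟩ := hg
  refine ⟨fun v => if v ∈ S then r v else r' v, RO.node c S T f g h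
    (hf.congr fun v hv => by simp [hv]) (hg.congr fun v hv => ?_)⟩
  have : v ∉ S := fun h' => Finset.disjoint_left.mp h h' hv
  simp [this]

theorem REx.not {S : Finset V} {f : (V → Bool) → Bool} (h : REx S f) :
    REx S (fun x => !f x) := by
  obtain ⟨r, h⟩ := h
  induction h with
  | lit v =>
    have := REx.lit v (!(r v))
    have h2 : (fun x : V → Bool => !(xor (x v) (r v))) = fun x => xor (x v) (!(r v)) := by
      funext x
      cases x v <;> cases r v <;> rfl
    exact h2 ▸ this
  | node c S T f g h hf hg ihf ihg =>
    have := REx.node (!c) h ihf ihg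
    convert this using 2 with x
    exact (gop_not _ _ _).symm

theorem REx.subst {r' : V' → Bool} {S' : Finset V'} {f' : (V' → Bool) → Bool}
    (h : RO r' S' f') (A : V' → Finset V) (φ : V' → (V → Bool) → Bool)
    (hφ : ∀ v ∈ S', REx (A v) (φ v))
    (hd : ∀ v ∈ S', ∀ w ∈ S', v ≠ w → Disjoint (A v) (A w)) :
    REx (S'.biUnion A) (fun x => f' (fun v => φ v x)) := by
  induction h with
  | lit v =>
    rw [Finset.singleton_biUnion]
    have h1 := hφ v (by simp)
    cases hr : r' v
    · convert h1 using 2 with x
      simp
    · convert h1.not using 2 with x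
      simp
  | node c S T f g h hf hg ihf ihg =>
    rw [Finset.union_biUnion]
    refine REx.node c ?_ (ihf (fun v hv => hφ v (by simp [hv]))
      (fun v hv w hw => hd v (by simp [hv]) w (by simp [hw])))
      (ihg (fun v hv => hφ v (by simp [hv]))
      (fun v hv w hw => hd v (by simp [hv]) w (by simp [hw])))
    rw [Finset.disjoint_biUnion_left]
    intro v hv
    rw [Finset.disjoint_biUnion_right]
    intro w hw
    refine hd v (by simp [hv]) w (by simp [hw]) ?_
    rintro rfl
    exact Finset.disjoint_left.mp h hv hw

/-! ### Circuits with few gates -/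

/-- The function `f` depends on the variable `v`. -/
def Dep (f : (V → Bool) → Bool) (v : V) : Prop :=
  ∃ x : V → Bool, f x ≠ f (Function.update x v (!x v))

theorem snoc_update_castSucc {n : ℕ} (x : Fin n → Bool) (t b : Bool) (v : Fin n) :
    (Fin.snoc (α := fun _ => Bool) (Function.update x v b) t : Fin (n + 1) → Bool) =
      Function.update (Fin.snoc (α := fun _ => Bool) x t) v.castSucc b := by
  funext i
  refine Fin.lastCases ?_ (fun i => ?_) i
  · rw [Function.update_of_ne (by simp [Fin.ext_iff]; omega)]
    simp
  · by_cases h : i = v
    · subst h; simp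
    · rw [Function.update_of_ne (by simpa using h)]
      simp [Function.update_of_ne h]

theorem circuit_dep {n : ℕ} (c : Circuit n) : ∀ S : Finset (Fin n),
    (∀ v ∈ S, Dep c.eval v) →
      S.card ≤ c.size + 1 ∧ (S.card = c.size + 1 → REx S c.eval) := by
  classical
  induction c with
  | out w neg =>
    intro S hS
    have h1 : S ⊆ {w} := by
      intro v hv
      obtain ⟨x, hx⟩ := hS v hv
      by_contra hne
      simp only [Finset.mem_singleton] at hne
      apply hx
      simp only [Circuit.eval]
      rw [Function.update_of_ne (fun h => hne h.symm)]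
    have h2 := Finset.card_le_card h1
    simp only [Finset.card_singleton] at h2
    refine ⟨by simpa [Circuit.size] using h2, fun h => ?_⟩
    have h3 : S = {w} := Finset.eq_of_subset_of_card_le h1 (by
      simp only [Circuit.size] at h
      simp [h])
    rw [h3]
    exact REx.lit w neg
  | @gate n conj a na b nb rest ih =>
    intro S hS
    set t : (Fin n → Bool) → Bool := fun x => gop conj (xor (x a) na) (xor (x b) nb) with ht
    have hev : ∀ x, (Circuit.gate conj a na b nb rest).eval x =
        rest.eval (Fin.snoc (α := fun _ => Bool) x (t x)) := fun x => rfl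
    set S0 : Finset (Fin n) := S \ {a, b} with hS0
    have hdep0 : ∀ v ∈ S0, Dep rest.eval v.castSucc := by
      intro v hv
      rw [hS0, Finset.mem_sdiff] at hv
      obtain ⟨hvS, hvab⟩ := hv
      simp only [Finset.mem_insert, Finset.mem_singleton, not_or] at hvab
      obtain ⟨x, hx⟩ := hS v hvS
      refine ⟨Fin.snoc (α := fun _ => Bool) x (t x), ?_⟩
      rw [hev, hev, snoc_update_castSucc] at hx
      have h1 : t (Function.update x v (!x v)) = t x := by
        simp only [ht]
        rw [Function.update_of_ne (Ne.symm hvab.1), Function.update_of_ne (Ne.symm hvab.2)]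
      rw [h1] at hx
      simpa using hx
    have hinj : Function.Injective (Fin.castSucc : Fin n → Fin (n + 1)) :=
      Fin.castSucc_injective n
    by_cases hlast : Dep rest.eval (Fin.last n)
    · set S' : Finset (Fin (n + 1)) := insert (Fin.last n) (S0.image Fin.castSucc) with hS'
      have hdep' : ∀ v ∈ S', Dep rest.eval v := by
        intro v hv
        rw [hS', Finset.mem_insert] at hv
        rcases hv with rfl | hv
        · exact hlast
        · obtain ⟨w, hw, rfl⟩ := Finset.mem_image.mp hv
          exact hdep0 w hw
      have hcard' : S'.card = S0.card + 1 := by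
        rw [hS', Finset.card_insert_of_notMem, Finset.card_image_of_injective _ hinj]
        intro h
        obtain ⟨w, hw, h⟩ := Finset.mem_image.mp h
        exact absurd h (Fin.castSucc_lt_last w).ne
      obtain ⟨h1, h2⟩ := ih S' hdep'
      have h3 : S.card ≤ S0.card + (S ∩ {a, b}).card := by
        rw [hS0, Finset.card_sdiff_add_card_inter]
      have h4 : (S ∩ {a, b}).card ≤ ({a, b} : Finset (Fin n)).card :=
        Finset.card_le_card Finset.inter_subset_right
      have h5 : ({a, b} : Finset (Fin n)).card ≤ 2 := Finset.card_le_two
      have h6 : (Circuit.gate conj a na b nb rest).size = rest.size + 1 := rfl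
      rw [h6]
      refine ⟨by omega, fun hcard => ?_⟩
      have h7 : S'.card = rest.size + 1 := by omega
      have h8 : (S ∩ {a, b}).card = ({a, b} : Finset (Fin n)).card := by omega
      have h9 : ({a, b} : Finset (Fin n)).card = 2 := by omega
      have hab : a ≠ b := by
        rintro rfl
        simp at h9
      have h10 : S ∩ {a, b} = {a, b} :=
        Finset.eq_of_subset_of_card_le Finset.inter_subset_right (by omega)
      have h11 : ({a, b} : Finset (Fin n)) ⊆ S := by
        rw [← h10]; exact Finset.inter_subset_left
      obtain ⟨r', hro⟩ := h2 h7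
      -- the substitution
      let A : Fin (n + 1) → Finset (Fin n) :=
        Fin.lastCases (motive := fun _ => Finset (Fin n)) {a, b} (fun i => {i})
      let φ : Fin (n + 1) → (Fin n → Bool) → Bool :=
        fun v x => Fin.snoc (α := fun _ => Bool) x (t x) v
      have hAl : A (Fin.last n) = {a, b} := by simp [A]
      have hAc : ∀ i : Fin n, A i.castSucc = {i} := by intro i; simp [A]
      have hkey := REx.subst hro A φ (by
          intro v hv
          rw [hS', Finset.mem_insert] at hv
          rcases hv with rfl | hv
          · rw [hAl]
            have h12 := REx.node conj (f := fun x : Fin n → Bool => xor (x a) na)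
              (g := fun x : Fin n → Bool => xor (x b) nb) (S := {a}) (T := {b})
              (by simpa using hab) (REx.lit a na) (REx.lit b nb)
            rw [show ({a} ∪ {b} : Finset (Fin n)) = {a, b} from rfl] at h12
            convert h12 using 2 with x
            simp [φ, ht]
          · obtain ⟨w, hw, rfl⟩ := Finset.mem_image.mp hv
            rw [hAc]
            convert REx.lit w false using 2 with x
            simp [φ]) (by
          intro v hv w hw hvw
          rw [hS', Finset.mem_insert] at hv hw
          rcases hv with rfl | hv
          · rcases hw with rfl | hw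
            · exact absurd rfl hvw
            · obtain ⟨w, hw', rfl⟩ := Finset.mem_image.mp hw
              rw [hAl, hAc, Finset.disjoint_singleton_right]
              exact (Finset.mem_sdiff.mp hw').2
          · obtain ⟨v, hv', rfl⟩ := Finset.mem_image.mp hv
            rcases hw with rfl | hw
            · rw [hAl, hAc, Finset.disjoint_singleton_left]
              exact (Finset.mem_sdiff.mp hv').2
            · obtain ⟨w, hw, rfl⟩ := Finset.mem_image.mp hw
              rw [hAc, hAc]
              simp only [Finset.disjoint_singleton]
              rintro rfl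
              exact hvw rfl)
      have h13 : S'.biUnion A = S := by
        rw [hS', Finset.biUnion_insert, hAl, Finset.image_biUnion]
        simp only [hAc]
        rw [Finset.biUnion_singleton_eq_self, hS0]
        exact Finset.union_sdiff_of_subset h11
      rw [h13] at hkey
      exact hkey
    · -- `rest` does not depend on the last wire
      have hind : ∀ (y : Fin n → Bool) (t t' : Bool),
          rest.eval (Fin.snoc (α := fun _ => Bool) y t) =
            rest.eval (Fin.snoc (α := fun _ => Bool) y t') := by
        intro y t t'
        by_contra hne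
        apply hlast
        refine ⟨Fin.snoc (α := fun _ => Bool) y t, ?_⟩
        have h1 : Function.update (Fin.snoc (α := fun _ => Bool) y t : Fin (n + 1) → Bool)
            (Fin.last n) (!(Fin.snoc (α := fun _ => Bool) y t : Fin (n + 1) → Bool)
              (Fin.last n)) = Fin.snoc (α := fun _ => Bool) y t' := by
          have h2 : t' = !t := by
            cases t <;> cases t' <;> simp_all
          rw [Fin.snoc_last, Fin.update_snoc_last, h2]
        rw [h1]
        exact hne
      have hdep : ∀ v ∈ S, Dep rest.eval v.castSucc := by
        intro v hv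
        obtain ⟨x, hx⟩ := hS v hv
        refine ⟨Fin.snoc (α := fun _ => Bool) x (t x), ?_⟩
        rw [hev, hev, hind (Function.update x v (!x v)) _ (t x), snoc_update_castSucc] at hx
        simpa using hx
      obtain ⟨h1, -⟩ := ih (S.image Fin.castSucc) (by
        intro v hv
        obtain ⟨w, hw, rfl⟩ := Finset.mem_image.mp hv
        exact hdep w hw)
      rw [Finset.card_image_of_injective _ hinj] at h1
      have h6 : (Circuit.gate conj a na b nb rest).size = rest.size + 1 := rfl
      rw [h6]
      exact ⟨by omega, fun h => by omega⟩

end Pool.Agent.H87.PMCSP
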