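import Pool.Agent.H87.PMCSP.Build

/-!
# The partial table of a system of pair constraints
-/

namespace Pool.Agent.H87.PMCSP

/-- The types: two copies of `{0,1}^k`. -/
abbrev XT (k : ℕ) : Type := Bool × (Fin k → Bool)

/-- The proper variables `y^κ_{i,β}`, and `r` further variables. -/
abbrev YT (m r : ℕ) : Type := (Bool × Fin m × Bool) ⊕ Fin r

/-- All variables. -/
abbrev VT (k m r : ℕ) : Type := Var (XT k) (YT m r)

instance instDecVT (k m r : ℕ) : DecidableEq (VT k m r) :=
  @instDecidableEqSum (XT k) (XT k ⊕ YT m r) inferInstance inferInstance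

section points

variable {k m r : ℕ}

/-- one type -/
def sgX (u : XT k) : XT k → Bool := fun v => decide (v = u)

/-- one variable of the second kind -/
def sgY (e : XT k ⊕ YT m r) : XT k ⊕ YT m r → Bool := fun e' => decide (e' = e)

/-- all types of copy `κ` whose coordinate `a` is `σ` -/
def coX (κ : Bool) (a : Fin k) (σ : Bool) : XT k → Bool := fun u => u.1 == κ && u.2 a == σ

/-- all types of copy `κ` -/
def cpX (κ : Bool) : XT k → Bool := fun u => u.1 == κ

/-- the two variables `y^κ_{i,0}` and `y^κ_{i,1}` -/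
def prY (κ : Bool) (i : Fin m) : XT k ⊕ YT m r → Bool :=
  Sum.elim (fun _ => false) (Sum.elim (fun y => y.1 == κ && decide (y.2.1 = i))
    (fun _ => false))

/-- first part of a query point -/
def quX (a b : Fin k) : XT k → Bool := fun u => bif u.1 then u.2 b else u.2 a

/-- second part of a query point -/
def quY (p q : Fin m → Bool) : XT k ⊕ YT m r → Bool :=
  Sum.elim (fun _ => false) (Sum.elim
    (fun y => xor y.2.2 (bif y.1 then q y.2.1 else p y.2.1)) (fun _ => false))

end points

/-- The points at which the table is `0`. -/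
inductive Zer (k m r : ℕ) : (VT k m r → Bool) → Prop
  | a : Zer k m r (Sum.elim (fun _ => true) (fun _ => false))
  | b : Zer k m r (Sum.elim (fun _ => false) (fun _ => true))
  | c (u v : XT k) (h : u ≠ v) : Zer k m r (Sum.elim (sgX u) (sgY (Sum.inl v)))
  | d (κ : Bool) (i : Fin m) (β : Bool) :
      Zer k m r (Sum.elim (cpX (!κ)) (sgY (Sum.inr (Sum.inl (κ, i, β)))))

/-- The points at which the table is `1`. -/
inductive One (k m r : ℕ) (bad : Fin k → (Fin m → Bool) → Fin k → (Fin m → Bool) → Prop) :
    (VT k m r → Bool) → Prop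
  | a (u : XT k) : One k m r bad (Sum.elim (sgX u) (fun _ => true))
  | b (e : XT k ⊕ YT m r) : One k m r bad (Sum.elim (fun _ => true) (sgY e))
  | c (u : XT k) : One k m r bad (Sum.elim (sgX u) (sgY (Sum.inl u)))
  | d (κ : Bool) (a : Fin k) (σ : Bool) (i : Fin m) :
      One k m r bad (Sum.elim (coX κ a σ) (prY κ i))
  | e (a b : Fin k) (p q : Fin m → Bool) (h : bad a p b q) :
      One k m r bad (Sum.elim (quX a b) (quY p q))

open Classical in
/-- The partial table. -/
noncomputable def tab (k m r : ℕ)
    (bad : Fin k → (Fin m → Bool) → Fin k → (Fin m → Bool) → Prop)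
    (z : VT k m r → Bool) : Option Bool :=
  if Zer k m r z then some false else if One k m r bad z then some true else none

/-- The types given by a pair of words. -/
def typ {k m r : ℕ} (w0 w1 : Fin k → Fin m → Bool) : XT k ⊕ YT m r → XT k
  | Sum.inl u => u
  | Sum.inr (Sum.inl (κ, i, β)) => (κ, fun a => (bif κ then w1 a i else w0 a i) == β)
  | Sum.inr (Sum.inr _) => (false, fun _ => false)

theorem typ_zer {k m r : ℕ} (w0 w1 : Fin k → Fin m → Bool) {S : XT k → Bool}
    {S' : XT k ⊕ YT m r → Bool} (h : Zer k m r (Sum.elim S S')) :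
    ¬ ∃ e, S' e = true ∧ S (typ w0 w1 e) = true := by
  generalize hz : (Sum.elim S S' : VT k m r → Bool) = z at h
  have hS : ∀ (A : XT k → Bool) (B : XT k ⊕ YT m r → Bool), Sum.elim S S' = Sum.elim A B →
      S = A ∧ S' = B := by
    intro A B h
    exact ⟨funext fun u => congrFun h (Sum.inl u), funext fun u => congrFun h (Sum.inr u)⟩
  cases h with
  | a =>
    obtain ⟨rfl, rfl⟩ := hS _ _ hz
    simp
  | b =>
    obtain ⟨rfl, rfl⟩ := hS _ _ hz
    simp
  | c u v h =>
    obtain ⟨rfl, rfl⟩ := hS _ _ hz
    rintro ⟨e, h1, h2⟩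
    simp only [sgY, decide_eq_true_eq] at h1
    subst h1
    simp only [sgX, typ, decide_eq_true_eq] at h2
    exact h h2.symm
  | d κ i β =>
    obtain ⟨rfl, rfl⟩ := hS _ _ hz
    rintro ⟨e, h1, h2⟩
    simp only [sgY, decide_eq_true_eq] at h1
    subst h1
    simp only [cpX, typ] at h2
    cases κ <;> simp at h2

theorem typ_query {k m r : ℕ} (w0 w1 : Fin k → Fin m → Bool) (a b : Fin k)
    (p q : Fin m → Bool) :
    (∃ e : XT k ⊕ YT m r, quY p q e = true ∧ quX a b (typ w0 w1 e) = true) ↔
      ¬ (w0 a = p ∧ w1 b = q) := by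
  constructor
  · rintro ⟨e, h1, h2⟩ ⟨rfl, rfl⟩
    rcases e with u | (⟨κ, i, β⟩ | j)
    · simp [quY] at h1
    · simp only [quY, Sum.elim_inr, Sum.elim_inl, quX, typ] at h1 h2
      cases κ <;> cases β <;> simp_all
    · simp [quY] at h1
  · intro h
    by_cases h0 : w0 a = p
    · have h1 : w1 b ≠ q := fun h1 => h ⟨h0, h1⟩
      obtain ⟨i, hi⟩ := Function.ne_iff.mp h1
      refine ⟨Sum.inr (Sum.inl (true, i, !(q i))), ?_, ?_⟩
      · simp only [quY, Sum.elim_inr, Sum.elim_inl, cond_true]; cases q i <;> rfl
      · simp only [quX, typ, cond_true]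
        revert hi
        cases q i <;> cases w1 b i <;> simp
    · obtain ⟨i, hi⟩ := Function.ne_iff.mp h0
      refine ⟨Sum.inr (Sum.inl (false, i, !(p i))), ?_, ?_⟩
      · simp only [quY, Sum.elim_inr, Sum.elim_inl, cond_false]; cases p i <;> rfl
      · simp only [quX, typ, cond_false]
        revert hi
        cases p i <;> cases w0 a i <;> simp

theorem typ_one {k m r : ℕ} {bad : Fin k → (Fin m → Bool) → Fin k → (Fin m → Bool) → Prop}
    (w0 w1 : Fin k → Fin m → Bool) {S : XT k → Bool}
    {S' : XT k ⊕ YT m r → Bool} (h : One k m r bad (Sum.elim S S')) :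
    (∃ e, S' e = true ∧ S (typ w0 w1 e) = true) ∨
      ∃ a b, bad a (w0 a) b (w1 b) ∧ S = quX a b ∧ S' = quY (w0 a) (w1 b) := by
  generalize hz : (Sum.elim S S' : VT k m r → Bool) = z at h
  have hS : ∀ (A : XT k → Bool) (B : XT k ⊕ YT m r → Bool), Sum.elim S S' = Sum.elim A B →
      S = A ∧ S' = B := by
    intro A B h
    exact ⟨funext fun u => congrFun h (Sum.inl u), funext fun u => congrFun h (Sum.inr u)⟩
  cases h with
  | a u =>
    obtain ⟨rfl, rfl⟩ := hS _ _ hz
    exact Or.inl ⟨Sum.inl u, rfl, by simp [sgX, typ]⟩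
  | b e =>
    obtain ⟨rfl, rfl⟩ := hS _ _ hz
    exact Or.inl ⟨e, by simp [sgY], rfl⟩
  | c u =>
    obtain ⟨rfl, rfl⟩ := hS _ _ hz
    exact Or.inl ⟨Sum.inl u, by simp [sgY], by simp [sgX, typ]⟩
  | d κ a σ i =>
    obtain ⟨rfl, rfl⟩ := hS _ _ hz
    refine Or.inl ⟨Sum.inr (Sum.inl (κ, i, ((bif κ then w1 a i else w0 a i) == σ))), ?_, ?_⟩
    · simp [prY]
    · simp only [coX, typ]
      cases κ <;> cases σ <;> simp
  | e a b p q h =>
    obtain ⟨rfl, rfl⟩ := hS _ _ hz
    by_cases hw : w0 a = p ∧ w1 b = q
    · obtain ⟨rfl, rfl⟩ := hw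
      exact Or.inr ⟨a, b, h, rfl, rfl⟩
    · exact Or.inl ((typ_query w0 w1 a b p q).mpr hw)

theorem elim_surj {k m r : ℕ} (z : VT k m r → Bool) :
    ∃ (S : XT k → Bool) (S' : XT k ⊕ YT m r → Bool), z = Sum.elim S S' :=
  ⟨fun u => z (Sum.inl u), fun e => z (Sum.inr e), by funext v; cases v <;> rfl⟩

theorem not_zer_of_one {k m r : ℕ} (hm : 0 < m)
    {bad : Fin k → (Fin m → Bool) → Fin k → (Fin m → Bool) → Prop} {z : VT k m r → Bool}
    (h : One k m r bad z) : ¬ Zer k m r z := by
  intro h0
  obtain ⟨S, S', rfl⟩ := elim_surj z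
  by_cases hq : ∃ (a b : Fin k) (p q : Fin m → Bool), S = quX a b ∧ S' = quY p q
  · obtain ⟨a, b, p, q, rfl, rfl⟩ := hq
    refine typ_zer (fun _ i => !(p i)) (fun _ _ => true) h0
      ((typ_query _ _ a b p q).mpr ?_)
    rintro ⟨h1, -⟩
    have := congrFun h1 ⟨0, hm⟩
    simp at this
  · rcases typ_one (fun _ _ => true) (fun _ _ => true) h with h1 | ⟨a, b, -, h2, h3⟩
    · exact typ_zer _ _ h0 h1
    · exact hq ⟨a, b, _, _, h2, h3⟩

theorem tab_zer {k m r : ℕ} {bad : Fin k → (Fin m → Bool) → Fin k → (Fin m → Bool) → Prop}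
    {z : VT k m r → Bool} (h : Zer k m r z) : tab k m r bad z = some false := by
  simp [tab, h]

theorem tab_one {k m r : ℕ} (hm : 0 < m)
    {bad : Fin k → (Fin m → Bool) → Fin k → (Fin m → Bool) → Prop}
    {z : VT k m r → Bool} (h : One k m r bad z) : tab k m r bad z = some true := by
  simp [tab, h, not_zer_of_one hm h]

/-- **The table of a system of pair constraints is consistent with a circuit with fewer gates
than variables iff the system has a solution.** -/
theorem core {k m r n : ℕ} (hm : 0 < m)
    (bad : Fin k → (Fin m → Bool) → Fin k → (Fin m → Bool) → Prop)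
    (e : Fin n ≃ VT k m r) :
    (∃ c : Circuit n, c.size + 1 ≤ n ∧ ∀ (z : VT k m r → Bool) (b : Bool),
      tab k m r bad z = some b → c.eval (fun i => z (e i)) = b) ↔
    ∃ w0 w1 : Fin k → Fin m → Bool, ∀ a b, ¬ bad a (w0 a) b (w1 b) := by
  constructor
  · rintro ⟨c, hsize, hc⟩
    set f : (VT k m r → Bool) → Bool := fun z => c.eval (fun i => z (e i)) with hf
    have f0 : ∀ z, Zer k m r z → f z = false := fun z hz => hc z false (tab_zer hz)
    have f1 : ∀ z, One k m r bad z → f z = true := fun z hz => hc z true (tab_one hm hz)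
    -- positive dependence on all variables
    have hpos : ∀ v : VT k m r, ∃ z : VT k m r → Bool, z v = false ∧ f z = false ∧
        f (Function.update z v true) = true := by
      rintro (u | a)
      · refine ⟨_, rfl, f0 _ Zer.b, ?_⟩
        refine Eq.trans (congrArg f ?_) (f1 _ (One.a u))
        funext v
        rcases v with v | v
        · by_cases h : v = u
          · subst h; simp [sgX]
          · rw [Function.update_of_ne (by simpa using h)]
            simp [sgX, h]
        · rw [Function.update_of_ne (by simp)]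
          simp
      · refine ⟨_, rfl, f0 _ Zer.a, ?_⟩
        refine Eq.trans (congrArg f ?_) (f1 _ (One.b a))
        funext v
        rcases v with v | v
        · rw [Function.update_of_ne (by simp)]
          simp
        · by_cases h : v = a
          · subst h; simp [sgY]
          · rw [Function.update_of_ne (by simpa using h)]
            simp [sgY, h]
    have hdep : ∀ i : Fin n, Dep c.eval i := by
      intro i
      obtain ⟨z, h1, h2, h3⟩ := hpos (e i)
      refine ⟨fun j => z (e j), ?_⟩
      have h4 : Function.update (fun j => z (e j)) i (!(z (e i))) =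
          fun j => Function.update z (e i) true (e j) := by
        funext j
        by_cases h : j = i
        · subst h; simp [h1]
        · rw [Function.update_of_ne h, Function.update_of_ne (by simpa using h)]
      rw [h4]
      simp only [hf] at h2 h3
      rw [h2, h3]
      simp
    obtain ⟨h1, h2⟩ := circuit_dep c Finset.univ fun v _ => hdep v
    rw [Finset.card_univ, Fintype.card_fin] at h1 h2
    obtain ⟨r0, hr⟩ := h2 (by omega)
    have h3 := REx.subst hr (fun i => ({e i} : Finset (VT k m r))) (fun i z => z (e i))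
      (by
        intro i _
        convert REx.lit (e i) false using 2 with z
        simp) (by
        intro i _ j _ hij
        simp only [Finset.disjoint_singleton]
        exact fun h => hij (e.injective h))
    have h4 : (Finset.univ : Finset (Fin n)).biUnion
        (fun i => ({e i} : Finset (VT k m r))) = Finset.univ := by
      ext v
      simp only [Finset.mem_biUnion, Finset.mem_univ, true_and, Finset.mem_singleton, iff_true]
      exact ⟨e.symm v, by simp⟩
    rw [h4] at h3
    obtain ⟨r', hr'⟩ := h3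
    have hM : MRO Finset.univ f := MRO.of_sign hr' hpos
    obtain ⟨g, hg, hgf⟩ := rigid hM (f0 _ Zer.a) (f0 _ Zer.b) (fun u => f1 _ (One.a u))
      (fun a => f1 _ (One.b a)) (by
        intro u v
        by_cases h : u = v
        · subst h
          rw [decide_eq_true rfl]
          exact f1 _ (One.c u)
        · rw [decide_eq_false h]
          exact f0 _ (Zer.c u v h))
    -- the copy of the type of `y^κ_{i,β}`
    have hcp : ∀ κ i β, (g (Sum.inr (Sum.inl (κ, i, β)))).1 = κ := by
      intro κ i β
      by_contra hne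
      have h5 := f0 _ (Zer.d κ i β)
      have h6 := (hgf (cpX (!κ)) (sgY (Sum.inr (Sum.inl (κ, i, β))))).mpr
        ⟨Sum.inr (Sum.inl (κ, i, β)), by simp [sgY], by
          simp only [cpX]
          cases hk : (g (Sum.inr (Sum.inl (κ, i, β)))).1 <;> cases κ <;> simp_all⟩
      rw [h5] at h6
      cases h6
    have hbit : ∀ κ i a, (g (Sum.inr (Sum.inl (κ, i, false)))).2 a = !(g (Sum.inr (Sum.inl (κ, i, true)))).2 a := by
      intro κ i a
      have key : ∀ σ, (g (Sum.inr (Sum.inl (κ, i, false)))).2 a = σ ∨
          (g (Sum.inr (Sum.inl (κ, i, true)))).2 a = σ := by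
        intro σ
        obtain ⟨y, h5, h6⟩ := (hgf _ _).mp (f1 _ (One.d κ a σ i))
        rcases y with u | (⟨κ', i', β⟩ | j)
        · simp [prY] at h5
        · simp only [prY, Sum.elim_inr, Sum.elim_inl, Bool.and_eq_true, beq_iff_eq,
            decide_eq_true_eq] at h5
          obtain ⟨rfl, rfl⟩ := h5
          simp only [coX, Bool.and_eq_true, beq_iff_eq] at h6
          cases β
          · exact Or.inl h6.2
          · exact Or.inr h6.2
        · simp [prY] at h5
      have k1 := key true
      have k2 := key false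
      revert k1 k2
      cases (g (Sum.inr (Sum.inl (κ, i, false)))).2 a <;> cases (g (Sum.inr (Sum.inl (κ, i, true)))).2 a <;> simp
    refine ⟨fun a i => (g (Sum.inr (Sum.inl (false, i, true)))).2 a,
      fun a i => (g (Sum.inr (Sum.inl (true, i, true)))).2 a, fun a b hbad => ?_⟩
    have hgt : ∀ κ i β, g (Sum.inr (Sum.inl (κ, i, β))) =
        typ (r := r) (fun a i => (g (Sum.inr (Sum.inl (false, i, true)))).2 a)
        (fun a i => (g (Sum.inr (Sum.inl (true, i, true)))).2 a)
        (Sum.inr (Sum.inl (κ, i, β))) := by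
      intro κ i β
      refine Prod.ext (hcp κ i β) ?_
      funext a
      simp only [typ]
      cases κ <;> cases β <;> simp [hbit]
    obtain ⟨y, h5, h6⟩ := (hgf _ _).mp (f1 _ (One.e a b _ _ hbad))
    rcases y with u | (⟨κ, i, β⟩ | j)
    · simp [quY] at h5
    · rw [hgt κ i β] at h6
      exact (typ_query _ _ a b _ _).mp ⟨_, h5, h6⟩ ⟨rfl, rfl⟩
    · simp [quY] at h5
  · rintro ⟨w0, w1, hw⟩
    obtain ⟨c, hc, hev⟩ := exists_typed_circuit e (typ w0 w1) (fun v => rfl)
    refine ⟨c, hc.le, fun z b hb => ?_⟩
    obtain ⟨S, S', rfl⟩ := elim_surj z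
    unfold tab at hb
    split_ifs at hb with h1 h2
    · cases hb
      cases hv : c.eval (fun i => (Sum.elim S S' : VT k m r → Bool) (e i)) with
      | false => rfl
      | true => exact absurd ((hev S S').mp hv) (typ_zer w0 w1 h1)
    · cases hb
      rcases typ_one w0 w1 h2 with h3 | ⟨a, b, h3, -⟩
      · exact (hev S S').mpr h3
      · exact absurd h3 (hw a b)

end Pool.Agent.H87.PMCSP
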