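import Pool.Agent.H87.PMCSP.Prog
import Pool.Agent.H87.PMCSP.Table

/-!
# The program writes the right table
-/

namespace Pool.Agent.H87.PMCSP

open Pool.Agent.PPS

/-- The tuple of the first `k` letters of a word. -/
def tup {k : ℕ} (l : List Bool) : Fin k → Bool := fun i => bitAt l i

theorem ofFn_tup {k : ℕ} {l : List Bool} (h : l.length = k) :
    List.ofFn (tup l : Fin k → Bool) = l := by
  subst h
  apply List.ext_getElem (by simp)
  intro i h1 h2
  simp [tup, bitAt, h2]

theorem tup_ofFn {k : ℕ} (v : Fin k → Bool) : tup (List.ofFn v) = v := by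
  funext i
  simp [tup, bitAt]

theorem tup_eq_iff {k : ℕ} {l : List Bool} (h : l.length = k) (v : Fin k → Bool) :
    tup l = v ↔ l = List.ofFn v := by
  constructor
  · rintro rfl; exact (ofFn_tup h).symm
  · rintro rfl; exact tup_ofFn v

theorem ofFn_mem {k : ℕ} (v : Fin k → Bool) : List.ofFn v ∈ allBits k := by
  rw [mem_allBits]; simp

/-- The list of all types. -/
def vX (k : ℕ) : List (XT k) :=
  (allBits k).map (fun l => (false, tup l)) ++ (allBits k).map (fun l => (true, tup l))

/-- The list of the variables `y`. -/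
def vY (m : ℕ) : List (Bool × Fin m × Bool) :=
  ((List.finRange m).map (fun i => (false, i, false)) ++
    (List.finRange m).map (fun i => (false, i, true))) ++
  ((List.finRange m).map (fun i => (true, i, false)) ++
    (List.finRange m).map (fun i => (true, i, true)))

/-- The list of all variables. -/
def vV (k m : ℕ) : List (VT k m 0) :=
  (vX k).map Sum.inl ++ ((vX k).map (fun u => Sum.inr (Sum.inl u)) ++
    (vY m).map (fun y => Sum.inr (Sum.inr (Sum.inl y))))

theorem length_vX (k : ℕ) : (vX k).length = (allBits k).length + (allBits k).length := by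
  simp [vX]

theorem length_vY (m : ℕ) : (vY m).length = 4 * m := by
  simp [vY]; ring

theorem length_vV (k m : ℕ) : (vV k m).length = 4 * (2 ^ k + m) := by
  simp only [vV, List.length_append, List.length_map, length_vX, length_vY, length_allBits]
  ring

theorem mem_vX {k : ℕ} (u : XT k) : u ∈ vX k := by
  obtain ⟨κ, v⟩ := u
  simp only [vX, List.mem_append, List.mem_map]
  cases κ
  · exact Or.inl ⟨List.ofFn v, ofFn_mem v, by rw [tup_ofFn]⟩
  · exact Or.inr ⟨List.ofFn v, ofFn_mem v, by rw [tup_ofFn]⟩

theorem mem_vY {m : ℕ} (y : Bool × Fin m × Bool) : y ∈ vY m := by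
  obtain ⟨κ, i, β⟩ := y
  cases κ <;> cases β <;> simp [vY]

theorem mem_vV {k m : ℕ} (v : VT k m 0) : v ∈ vV k m := by
  simp only [vV, List.mem_append, List.mem_map]
  rcases v with u | (u | (y | j))
  · exact Or.inl ⟨u, mem_vX u, rfl⟩
  · exact Or.inr (Or.inl ⟨u, mem_vX u, rfl⟩)
  · exact Or.inr (Or.inr ⟨y, mem_vY y, rfl⟩)
  · exact j.elim0

/-- The numbering of the variables. -/
theorem exists_numbering (k m : ℕ) : ∃ e : Fin (4 * (2 ^ k + m)) ≃ VT k m 0,
    ∀ z : VT k m 0 → Bool, List.ofFn (fun i => z (e i)) = (vV k m).map z := by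
  let f : Fin (4 * (2 ^ k + m)) → VT k m 0 := fun i => (vV k m)[i.1]'(by
    rw [length_vV]; exact i.2)
  have hsurj : Function.Surjective f := by
    intro v
    obtain ⟨i, hi, h⟩ := List.mem_iff_getElem.mp (mem_vV v)
    exact ⟨⟨i, by rw [length_vV] at hi; exact hi⟩, h⟩
  have hbij : Function.Bijective f := by
    rw [Fintype.bijective_iff_surjective_and_card]
    refine ⟨hsurj, ?_⟩
    simp only [Fintype.card_fin, Fintype.card_sum, Fintype.card_prod, Fintype.card_bool,
      Fintype.card_pi, Finset.prod_const, Finset.card_univ]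
    ring
  refine ⟨Equiv.ofBijective f hbij, fun z => ?_⟩
  apply List.ext_getElem (by simp [length_vV])
  intro i h1 h2
  simp [f]

/-! ### Blocks -/

theorem map_const_zz {α : Type} (l : List α) : l.map (fun _ => false) = zz l.length := by
  rw [List.map_const']; rfl

theorem map_const_oo {α : Type} (l : List α) : l.map (fun _ => true) = oo l.length := by
  rw [List.map_const']; rfl

theorem vX_map {k : ℕ} (S : XT k → Bool) : (vX k).map S =
    (allBits k).map (fun l => S (false, tup l)) ++ (allBits k).map (fun l => S (true, tup l)) := by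
  simp [vX, Function.comp_def]

theorem vY_map {m : ℕ} (S : Bool × Fin m × Bool → Bool) : (vY m).map S =
    ((List.finRange m).map (fun i => S (false, i, false)) ++
      (List.finRange m).map (fun i => S (false, i, true))) ++
    ((List.finRange m).map (fun i => S (true, i, false)) ++
      (List.finRange m).map (fun i => S (true, i, true))) := by
  simp [vY, Function.comp_def]

theorem vV_map {k m : ℕ} (S : XT k → Bool) (S' : XT k ⊕ YT m 0 → Bool) :
    (vV k m).map (Sum.elim S S') = (vX k).map S ++
      ((vX k).map (fun u => S' (Sum.inl u)) ++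
        (vY m).map (fun y => S' (Sum.inr (Sum.inl y)))) := by
  simp [vV, Function.comp_def]

theorem sX_eq {k : ℕ} (v : Fin k → Bool) :
    (allBits k).map (fun l => decide (tup l = v)) = sX (List.ofFn v) (allBits k) := by
  unfold sX
  apply List.map_congr_left
  intro l hl
  rw [mem_allBits] at hl
  exact decide_eq_decide.mpr (tup_eq_iff hl v)

theorem vX_sg {k : ℕ} (κ : Bool) (v : Fin k → Bool) : (vX k).map (sgX (κ, v)) =
    pX κ (sX (List.ofFn v) (allBits k)) (allBits k).length := by
  rw [vX_map]
  cases κ
  · simp only [sgX, pX, cond_false, Prod.mk.injEq, true_and, Bool.true_eq_false, false_and,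
      decide_false]
    rw [sX_eq, map_const_zz]
  · simp only [sgX, pX, cond_true, Prod.mk.injEq, true_and, Bool.false_eq_true, false_and,
      decide_false]
    rw [sX_eq, map_const_zz]

theorem beq_tf : (true == false) = false := rfl

theorem beq_ft : (false == true) = false := rfl

theorem vX_cp {k : ℕ} (κ : Bool) : (vX k).map (cpX κ) =
    pX κ (oo (allBits k).length) (allBits k).length := by
  rw [vX_map]
  cases κ
  · simp only [cpX, pX, cond_false, beq_self_eq_true, beq_tf]
    rw [map_const_zz, map_const_oo]
  · simp only [cpX, pX, cond_true, beq_self_eq_true, beq_ft]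
    rw [map_const_zz, map_const_oo]

theorem vX_co {k : ℕ} (κ : Bool) (a : Fin k) (σ : Bool) : (vX k).map (coX κ a σ) =
    pX κ (bX a σ (allBits k)) (allBits k).length := by
  rw [vX_map]
  cases κ
  · simp only [coX, pX, cond_false, beq_self_eq_true, beq_tf,
      Bool.true_and, Bool.false_and, tup, bX]
    rw [map_const_zz]
  · simp only [coX, pX, cond_true, beq_self_eq_true, beq_ft,
      Bool.true_and, Bool.false_and, tup, bX]
    rw [map_const_zz]

theorem vX_qu {k : ℕ} (a b : Fin k) : (vX k).map (quX a b) =
    bX a true (allBits k) ++ bX b true (allBits k) := by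
  rw [vX_map]
  simp [quX, bX, tup]

theorem sY_eq {m : ℕ} (i : Fin m) :
    (List.finRange m).map (fun i' => decide (i' = i)) = sY i m := by
  unfold sY
  rw [← List.map_coe_finRange_eq_range, List.map_map]
  apply List.map_congr_left
  intro i' _
  simp [Fin.ext_iff]

theorem length_sY (i m : ℕ) : (sY i m).length = m := by simp [sY]

theorem vY_sg {m : ℕ} (κ : Bool) (i : Fin m) (β : Bool) :
    (vY m).map (fun y => decide (y = (κ, i, β))) = pY κ β (sY i m) m := by
  rw [vY_map]
  have hz : zz (m + m) = zz m ++ zz m := by simp [zz]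
  cases κ <;> cases β <;>
  · simp only [pY, pX, cond_false, cond_true, Prod.mk.injEq, true_and, and_true,
      Bool.true_eq_false, Bool.false_eq_true, false_and, and_false, decide_false]
    rw [sY_eq, map_const_zz, List.length_finRange, hz]

theorem vY_pr {m : ℕ} (κ : Bool) (i : Fin m) :
    (vY m).map (fun y => y.1 == κ && decide (y.2.1 = i)) =
      pX κ (sY i m ++ sY i m) (m + m) := by
  rw [vY_map]
  have hz : zz (m + m) = zz m ++ zz m := by simp [zz]
  cases κ
  · simp only [pX, cond_false, beq_self_eq_true, beq_tf,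
      Bool.true_and, Bool.false_and]
    rw [sY_eq, map_const_zz, List.length_finRange, hz]
  · simp only [pX, cond_true, beq_self_eq_true, beq_ft,
      Bool.true_and, Bool.false_and]
    rw [sY_eq, map_const_zz, List.length_finRange, hz]

theorem vY_qu {m : ℕ} (p q : Fin m → Bool) :
    (vY m).map (fun y => xor y.2.2 (bif y.1 then q y.2.1 else p y.2.1)) =
      (List.ofFn p ++ cpl (List.ofFn p)) ++ (List.ofFn q ++ cpl (List.ofFn q)) := by
  rw [vY_map]
  simp [cpl, List.ofFn_eq_map, Function.comp_def]

theorem mem_BB (b : Bool) : b ∈ BB := by cases b <;> simp [BB]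

theorem mem_zeroPts {k m : ℕ} (x : List Bool) : x ∈ zeroPts (allBits k) m ↔
    ∃ z : VT k m 0 → Bool, Zer k m 0 z ∧ (vV k m).map z = x := by
  have e1 : ∀ b : Bool, (vV k m).map (Sum.elim (fun _ => b) (fun _ => !b)) =
      List.replicate ((allBits k).length + (allBits k).length) b ++
        (List.replicate ((allBits k).length + (allBits k).length) (!b) ++
          List.replicate (4 * m) (!b)) := by
    intro b
    rw [vV_map, List.map_const', List.map_const', List.map_const', length_vX, length_vY]
  have e2 : ∀ (κ : Bool) (v : Fin k → Bool) (κ' : Bool) (v' : Fin k → Bool),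
      (vV k m).map (Sum.elim (sgX (κ, v)) (sgY (Sum.inl (κ', v')))) =
      pX κ (sX (List.ofFn v) (allBits k)) (allBits k).length ++
        (pX κ' (sX (List.ofFn v') (allBits k)) (allBits k).length ++ zz (4 * m)) := by
    intro κ v κ' v'
    rw [vV_map]
    simp only [sgY, Sum.inl.injEq, reduceCtorEq, decide_false]
    rw [show (fun u : XT k => decide (u = (κ', v'))) = sgX (κ', v') from rfl, vX_sg, vX_sg,
      map_const_zz, length_vY]
  have e3 : ∀ (κ : Bool) (i : Fin m) (β : Bool),
      (vV k m).map (Sum.elim (cpX (!κ)) (sgY (Sum.inr (Sum.inl (κ, i, β))))) =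
      pX (!κ) (oo (allBits k).length) (allBits k).length ++
        (zz ((allBits k).length + (allBits k).length) ++ pY κ β (sY i m) m) := by
    intro κ i β
    rw [vV_map]
    simp only [sgY, Sum.inr.injEq, Sum.inl.injEq, reduceCtorEq, decide_false]
    rw [vX_cp, vY_sg, map_const_zz, length_vX]
  simp only [zeroPts, List.mem_append]
  constructor
  · rintro (h | h | h)
    · simp only [fam1, List.mem_cons, List.not_mem_nil, or_false] at h
      rcases h with rfl | rfl
      · exact ⟨_, Zer.a, e1 true⟩
      · exact ⟨_, Zer.b, e1 false⟩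
    · simp only [fam2, List.mem_flatMap] at h
      obtain ⟨κ, -, l, hl, κ', -, l', hl', h⟩ := h
      rw [mem_allBits] at hl hl'
      unfold body2 at h
      by_cases hne : κ = κ' ∧ l = l'
      · simp [hne.1, hne.2] at h
      · have hc : (decide (κ = κ') && decide (l = l')) = false := by
          rw [← Bool.decide_and]; simpa using hne
        rw [hc, cond_false, List.mem_singleton] at h
        subst h
        refine ⟨_, Zer.c (κ, tup l) (κ', tup l') ?_, ?_⟩
        · intro h
          rw [Prod.mk.injEq] at h
          refine hne ⟨h.1, ?_⟩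
          rw [← ofFn_tup hl, ← ofFn_tup hl', h.2]
        · rw [e2, ofFn_tup hl, ofFn_tup hl']
    · simp only [fam3, List.mem_flatMap] at h
      obtain ⟨κ, -, i, hi, β, -, h⟩ := h
      rw [List.mem_range] at hi
      unfold body3 at h
      rw [List.mem_singleton] at h
      subst h
      exact ⟨_, Zer.d κ ⟨i, hi⟩ β, e3 κ ⟨i, hi⟩ β⟩
  · rintro ⟨z, hz, rfl⟩
    cases hz with
    | a => left; simp only [fam1, List.mem_cons]; left; exact e1 true
    | b => left; simp only [fam1, List.mem_cons]; right; left; exact e1 false
    | c u v h =>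
      right; left
      obtain ⟨κ, v0⟩ := u
      obtain ⟨κ', v0'⟩ := v
      simp only [fam2, List.mem_flatMap]
      refine ⟨κ, mem_BB κ, List.ofFn v0, ofFn_mem v0, κ', mem_BB κ', List.ofFn v0',
        ofFn_mem v0', ?_⟩
      have hc : (decide (κ = κ') && decide (List.ofFn v0 = List.ofFn v0')) = false := by
        rw [← Bool.decide_and]
        simp only [decide_eq_false_iff_not]
        rintro ⟨h1, h2⟩
        exact h (by rw [h1, List.ofFn_injective h2])
      unfold body2
      rw [hc, cond_false, List.mem_singleton]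
      exact e2 κ v0 κ' v0'
    | d κ i β =>
      right; right
      simp only [fam3, List.mem_flatMap]
      refine ⟨κ, mem_BB κ, i.1, List.mem_range.mpr i.2, β, mem_BB β, ?_⟩
      unfold body3
      rw [List.mem_singleton]
      exact e3 κ i β

/-- The forbidden pairs of words. -/
def badR {k m : ℕ} (V : ℕ) (M : List Bool) (a : Fin k) (p : Fin m → Bool) (b : Fin k)
    (q : Fin m → Bool) : Prop :=
  ∃ i j : ℕ, i < 2 ^ m ∧ j < 2 ^ m ∧ (allBits m).getD i [] = List.ofFn p ∧
    (allBits m).getD j [] = List.ofFn q ∧ okP V M a b i j = false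

theorem getD_length {m i : ℕ} (hi : i < 2 ^ m) : ((allBits m).getD i []).length = m := by
  rw [← mem_allBits, List.getD_eq_getElem _ _ (by rw [length_allBits]; exact hi)]
  exact List.getElem_mem _

theorem mem_onePts {k m : ℕ} (V : ℕ) (M : List Bool) (x : List Bool) :
    x ∈ onePts k (allBits k) m (allBits m) V M ↔
    ∃ z : VT k m 0 → Bool, One k m 0 (badR V M) z ∧ (vV k m).map z = x := by
  have e1 : ∀ (κ : Bool) (v : Fin k → Bool),
      (vV k m).map (Sum.elim (sgX (κ, v)) (fun _ => true)) =
      pX κ (sX (List.ofFn v) (allBits k)) (allBits k).length ++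
        (oo ((allBits k).length + (allBits k).length) ++ oo (4 * m)) := by
    intro κ v
    rw [vV_map, vX_sg, map_const_oo, map_const_oo, length_vX, length_vY]
  have e2 : ∀ (κ : Bool) (v : Fin k → Bool),
      (vV k m).map (Sum.elim (fun _ => true) (sgY (Sum.inl (κ, v)))) =
      oo ((allBits k).length + (allBits k).length) ++
        (pX κ (sX (List.ofFn v) (allBits k)) (allBits k).length ++ zz (4 * m)) := by
    intro κ v
    rw [vV_map]
    simp only [sgY, Sum.inl.injEq, reduceCtorEq, decide_false]
    rw [show (fun u : XT k => decide (u = (κ, v))) = sgX (κ, v) from rfl, vX_sg,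
      map_const_zz, length_vY, map_const_oo, length_vX]
  have e3 : ∀ (κ : Bool) (v : Fin k → Bool),
      (vV k m).map (Sum.elim (sgX (κ, v)) (sgY (Sum.inl (κ, v)))) =
      pX κ (sX (List.ofFn v) (allBits k)) (allBits k).length ++
        (pX κ (sX (List.ofFn v) (allBits k)) (allBits k).length ++ zz (4 * m)) := by
    intro κ v
    rw [vV_map]
    simp only [sgY, Sum.inl.injEq, reduceCtorEq, decide_false]
    rw [show (fun u : XT k => decide (u = (κ, v))) = sgX (κ, v) from rfl, vX_sg,
      map_const_zz, length_vY]
  have e4 : ∀ (κ : Bool) (i : Fin m) (β : Bool),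
      (vV k m).map (Sum.elim (fun _ => true) (sgY (Sum.inr (Sum.inl (κ, i, β))))) =
      oo ((allBits k).length + (allBits k).length) ++
        (zz ((allBits k).length + (allBits k).length) ++ pY κ β (sY i m) m) := by
    intro κ i β
    rw [vV_map]
    simp only [sgY, Sum.inr.injEq, Sum.inl.injEq, reduceCtorEq, decide_false]
    rw [vY_sg, map_const_zz, map_const_oo, length_vX]
  have e5 : ∀ (κ : Bool) (a : Fin k) (σ : Bool) (i : Fin m),
      (vV k m).map (Sum.elim (coX κ a σ) (prY κ i)) =
      pX κ (bX a σ (allBits k)) (allBits k).length ++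
        (zz ((allBits k).length + (allBits k).length) ++
          pX κ (sY i m ++ sY i m) (m + m)) := by
    intro κ a σ i
    rw [vV_map]
    simp only [prY, Sum.elim_inl, Sum.elim_inr]
    rw [vX_co, vY_pr, map_const_zz, length_vX]
  have e6 : ∀ (a b : Fin k) (p q : Fin m → Bool),
      (vV k m).map (Sum.elim (quX a b) (quY p q)) =
      (bX a true (allBits k) ++ bX b true (allBits k)) ++
        (zz ((allBits k).length + (allBits k).length) ++
          ((List.ofFn p ++ cpl (List.ofFn p)) ++ (List.ofFn q ++ cpl (List.ofFn q)))) := by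
    intro a b p q
    rw [vV_map]
    simp only [quY, Sum.elim_inl, Sum.elim_inr]
    rw [vX_qu, vY_qu, map_const_zz, length_vX]
  simp only [onePts, List.mem_append]
  constructor
  · rintro (h | h | h | h)
    · simp only [fam4, List.mem_flatMap] at h
      obtain ⟨κ, -, l, hl, h⟩ := h
      rw [mem_allBits] at hl
      simp only [body4, List.mem_cons, List.not_mem_nil, or_false] at h
      rcases h with rfl | rfl | rfl
      · exact ⟨_, One.a (κ, tup l), by rw [e1, ofFn_tup hl]⟩
      · exact ⟨_, One.b (Sum.inl (κ, tup l)), by rw [e2, ofFn_tup hl]⟩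
      · exact ⟨_, One.c (κ, tup l), by rw [e3, ofFn_tup hl]⟩
    · simp only [fam5, List.mem_flatMap] at h
      obtain ⟨κ, -, i, hi, β, -, h⟩ := h
      rw [List.mem_range] at hi
      unfold body5 at h
      rw [List.mem_singleton] at h
      subst h
      exact ⟨_, One.b (Sum.inr (Sum.inl (κ, ⟨i, hi⟩, β))), e4 κ ⟨i, hi⟩ β⟩
    · simp only [fam6, List.mem_flatMap] at h
      obtain ⟨κ, -, a, ha, σ, -, i, hi, h⟩ := h
      rw [List.mem_range] at hi ha
      unfold body6 at h
      rw [List.mem_singleton] at h
      subst h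
      exact ⟨_, One.d κ ⟨a, ha⟩ σ ⟨i, hi⟩, e5 κ ⟨a, ha⟩ σ ⟨i, hi⟩⟩
    · simp only [fam7, List.mem_flatMap] at h
      obtain ⟨a, ha, b, hb, i, hi, j, hj, h⟩ := h
      rw [List.mem_range] at hi hj ha hb
      rw [length_allBits] at hi hj
      unfold body7 at h
      cases hok : okP V M a b i j with
      | true => rw [hok, cond_true] at h; cases h
      | false =>
        rw [hok, cond_false, List.mem_singleton] at h
        subst h
        have h1 := getD_length hi
        have h2 := getD_length hj
        refine ⟨_, One.e (⟨a, ha⟩ : Fin k) ⟨b, hb⟩ (tup ((allBits m).getD i []))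
          (tup ((allBits m).getD j [])) ⟨i, j, hi, hj, ?_, ?_, hok⟩, ?_⟩
        · rw [ofFn_tup h1]
        · rw [ofFn_tup h2]
        · rw [e6, ofFn_tup h1, ofFn_tup h2]
  · rintro ⟨z, hz, rfl⟩
    cases hz with
    | a u =>
      left
      obtain ⟨κ, v⟩ := u
      simp only [fam4, List.mem_flatMap]
      refine ⟨κ, mem_BB κ, List.ofFn v, ofFn_mem v, ?_⟩
      simp only [body4, List.mem_cons]
      exact Or.inl (e1 κ v)
    | b u =>
      rcases u with ⟨κ, v⟩ | (⟨κ, i, β⟩ | j)
      · left
        simp only [fam4, List.mem_flatMap]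
        refine ⟨κ, mem_BB κ, List.ofFn v, ofFn_mem v, ?_⟩
        simp only [body4, List.mem_cons]
        exact Or.inr (Or.inl (e2 κ v))
      · right; left
        simp only [fam5, List.mem_flatMap]
        refine ⟨κ, mem_BB κ, i.1, List.mem_range.mpr i.2, β, mem_BB β, ?_⟩
        unfold body5
        rw [List.mem_singleton]
        exact e4 κ i β
      · exact j.elim0
    | c u =>
      left
      obtain ⟨κ, v⟩ := u
      simp only [fam4, List.mem_flatMap]
      refine ⟨κ, mem_BB κ, List.ofFn v, ofFn_mem v, ?_⟩
      simp only [body4, List.mem_cons]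
      exact Or.inr (Or.inr (Or.inl (e3 κ v)))
    | d κ a σ i =>
      right; right; left
      simp only [fam6, List.mem_flatMap]
      refine ⟨κ, mem_BB κ, a.1, List.mem_range.mpr a.2, σ, mem_BB σ, i.1,
        List.mem_range.mpr i.2, ?_⟩
      unfold body6
      rw [List.mem_singleton]
      exact e5 κ a σ i
    | e a b p q h =>
      right; right; right
      obtain ⟨i, j, hi, hj, h1, h2, h3⟩ := h
      simp only [fam7, List.mem_flatMap]
      refine ⟨a.1, List.mem_range.mpr a.2, b.1, List.mem_range.mpr b.2, i,
        by rw [List.mem_range, length_allBits]; exact hi, j,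
        by rw [List.mem_range, length_allBits]; exact hj, ?_⟩
      unfold body7
      rw [h3, cond_false, List.mem_singleton, e6, h1, h2]

/-! ### The table -/

theorem lexIndex_succ {n : ℕ} (x : Fin (n + 1) → Bool) :
    lexIndex x = (if x 0 then 2 ^ n else 0) + lexIndex (fun i : Fin n => x i.succ) := by
  unfold lexIndex
  rw [Fin.sum_univ_succ]
  congr 1
  apply Finset.sum_congr rfl
  intro i _
  rw [show n + 1 - 1 - (i.succ : Fin (n + 1)).1 = n - 1 - i.1 by
    rw [Fin.val_succ]; omega]

theorem lexIndex_lt {n : ℕ} (x : Fin n → Bool) : lexIndex x < 2 ^ n := by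
  induction n with
  | zero => simp [lexIndex]
  | succ n ih =>
    rw [lexIndex_succ, pow_succ]
    have := ih (fun i => x i.succ)
    split_ifs <;> omega

theorem allBits_lexIndex {n : ℕ} (x : Fin n → Bool) :
    (allBits n)[lexIndex x]? = some (List.ofFn x) := by
  induction n with
  | zero => simp [lexIndex, allBits]
  | succ n ih =>
    rw [lexIndex_succ, List.ofFn_succ]
    have h1 := ih (fun i => x i.succ)
    have h2 := lexIndex_lt (fun i => x i.succ)
    simp only [allBits]
    cases hx : x 0 with
    | false =>
      simp only [Bool.false_eq_true, if_false, Nat.zero_add]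
      rw [List.getElem?_append_left (by simpa using h2), List.getElem?_map, h1]
      rfl
    | true =>
      simp only [if_true]
      rw [List.getElem?_append_right (by simp), List.getElem?_map]
      simp only [List.length_map, length_allBits, Nat.add_sub_cancel_left]
      rw [h1]
      rfl

theorem table_lexIndex {k m V : ℕ} {M : List Bool} (z : VT k m 0 → Bool)
    (e : Fin (4 * (2 ^ k + m)) ≃ VT k m 0)
    (he : ∀ z : VT k m 0 → Bool, List.ofFn (fun i => z (e i)) = (vV k m).map z) :
    (table k m V M)[lexIndex (fun i => z (e i))]? = some (tab k m 0 (badR V M) z) := by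
  have hinj : ∀ z' : VT k m 0 → Bool, (vV k m).map z' = (vV k m).map z → z' = z := by
    intro z' h
    rw [← he, ← he] at h
    have h1 := List.ofFn_injective h
    funext v
    have h2 := congrFun h1 (e.symm v)
    simpa using h2
  unfold table
  rw [List.getElem?_map, allBits_lexIndex, he]
  simp only [Option.map_some, Option.some.injEq]
  unfold entry tab
  have h1 : (vV k m).map z ∈ zeroPts (allBits k) m ↔ Zer k m 0 z := by
    rw [mem_zeroPts]
    constructor
    · rintro ⟨z', h, h'⟩
      rw [← hinj z' h']; exact h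
    · intro h; exact ⟨z, h, rfl⟩
  have h2 : (vV k m).map z ∈ onePts k (allBits k) m (allBits m) V M ↔
      One k m 0 (badR V M) z := by
    rw [mem_onePts]
    constructor
    · rintro ⟨z', h, h'⟩
      rw [← hinj z' h']; exact h
    · intro h; exact ⟨z, h, rfl⟩
  by_cases hz : Zer k m 0 z
  · rw [decide_eq_true (h1.mpr hz), if_pos hz]; rfl
  · rw [decide_eq_false (fun h => hz (h1.mp h)), if_neg hz]
    by_cases ho : One k m 0 (badR V M) z
    · rw [decide_eq_true (h2.mpr ho), if_pos ho]; rfl
    · rw [decide_eq_false (fun h => ho (h2.mp h)), if_neg ho]; rfl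

theorem table_consistent {k m V : ℕ} {M : List Bool} (hm : 0 < m) :
    (∃ c : Circuit (4 * (2 ^ k + m)), c.size ≤ 4 * (2 ^ k + m) - 1 ∧
      c.Consistent (table k m V M)) ↔
    ∃ w0 w1 : Fin k → Fin m → Bool, ∀ a b, ¬ badR V M a (w0 a) b (w1 b) := by
  obtain ⟨e, he⟩ := exists_numbering k m
  rw [← core hm (badR V M) e]
  have hpos : 0 < 4 * (2 ^ k + m) := by positivity
  constructor
  · rintro ⟨c, h1, h2⟩
    refine ⟨c, by omega, fun z b hb => h2 _ b ?_⟩
    rw [table_lexIndex z e he, hb]
  · rintro ⟨c, h1, h2⟩
    refine ⟨c, by omega, fun x b hb => ?_⟩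
    have h3 := table_lexIndex (V := V) (M := M) (fun v => x (e.symm v)) e he
    simp only [Equiv.symm_apply_apply] at h3
    have h4 := h2 (fun v => x (e.symm v)) b (by
      have : (some (tab k m 0 (badR V M) fun v => x (e.symm v))) = some (some b) := by
        rw [← h3]; exact hb
      exact Option.some.inj this)
    simpa using h4

end Pool.Agent.H87.PMCSP
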