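import Pool.Agent.H87.PMCSP.PolyDefs

/-!
# Rectangle covers from extended formulations, and unique disjointness
-/

namespace Pool.Agent.H87.PMCSP

variable {ι κ : Type} [Fintype ι] [Fintype κ]

/-- A linear form on pairs. -/
def lin (a : ι → ℝ) (b : κ → ℝ) (z : (ι → ℝ) × (κ → ℝ)) : ℝ :=
  ∑ x, a x * z.1 x + ∑ j, b j * z.2 j

theorem lin_comb (a : ι → ℝ) (b : κ → ℝ) (s t : ℝ) (z z' : (ι → ℝ) × (κ → ℝ)) :
    lin a b (s • z + t • z') = s * lin a b z + t * lin a b z' := by
  simp only [lin, Prod.fst_add, Prod.snd_add, Prod.smul_fst, Prod.smul_snd, Pi.add_apply,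
    Pi.smul_apply, smul_eq_mul, mul_add, Finset.sum_add_distrib, Finset.mul_sum]
  have h1 : ∀ (c : ι → ℝ) (u : ι → ℝ) (s : ℝ), ∑ x, c x * (s * u x) =
      ∑ x, s * (c x * u x) := fun c u s => Finset.sum_congr rfl fun x _ => by ring
  have h2 : ∀ (c : κ → ℝ) (u : κ → ℝ) (s : ℝ), ∑ x, c x * (s * u x) =
      ∑ x, s * (c x * u x) := fun c u s => Finset.sum_congr rfl fun x _ => by ring
  rw [h1, h1, h2, h2]
  ring

/-- An affine form. -/
def aff (c : ℝ) (a : ι → ℝ) (v : ι → ℝ) : ℝ := c + ∑ x, a x * v x

theorem aff_comb (c : ℝ) (a : ι → ℝ) {s t : ℝ} (hst : s + t = 1)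
    (z z' : (ι → ℝ) × (κ → ℝ)) :
    aff c a (s • z + t • z').1 = s * aff c a z.1 + t * aff c a z'.1 := by
  have h : ∀ v : ι → ℝ, aff c a v = c + lin a (fun j : κ => (0 : ℝ)) (v, 0) := by
    intro v; simp [aff, lin]
  have h' : ∀ z : (ι → ℝ) × (κ → ℝ), lin a (fun j : κ => (0 : ℝ)) (z.1, 0) =
      lin a (fun j : κ => (0 : ℝ)) z := by
    intro z; simp [lin]
  rw [h, h, h, h', h', h', lin_comb]
  have : c = (s + t) * c := by rw [hst, one_mul]
  linear_combination this

/-- **Rectangle cover.** -/
theorem exists_cover {P : Set (ι → ℝ)} {r : ℕ} (hP : HasExtension P r)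
    {Α W : Type} (c : Α → ℝ) (a : Α → ι → ℝ) (v : W → ι → ℝ)
    (hL : ∀ α, ∀ p ∈ P, 0 ≤ aff (c α) (a α) p) (hv : ∀ w, v w ∈ P) :
    ∃ (J : Fin r → Set Α) (U : Fin r → Set W),
      (∀ i, ∀ α ∈ J i, ∀ w ∈ U i, aff (c α) (a α) (v w) ≠ 0) ∧
      ∀ α w, 0 < aff (c α) (a α) (v w) → (∃ w', aff (c α) (a α) (v w') = 0) →
        ∃ i, α ∈ J i ∧ w ∈ U i := by
  obtain ⟨d, q, A, B, b, C, D, e, h⟩ := hP
  choose y hy1 hy2 using fun w => (h (v w)).mp (hv w)
  let Q : Set ((ι → ℝ) × (Fin d → ℝ)) :=
    {z | (∀ i, lin (A i) (B i) z ≤ b i) ∧ ∀ i, lin (C i) (D i) z = e i}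
  have hQP : ∀ z ∈ Q, z.1 ∈ P := fun z hz => (h z.1).mpr ⟨z.2, hz.1, hz.2⟩
  let z : W → (ι → ℝ) × (Fin d → ℝ) := fun w => (v w, y w)
  have hz : ∀ w, z w ∈ Q := fun w => ⟨hy1 w, hy2 w⟩
  -- the faces
  let F : Α → Set ((ι → ℝ) × (Fin d → ℝ)) := fun α => {p | p ∈ Q ∧ aff (c α) (a α) p.1 = 0}
  refine ⟨fun i => {α | ∀ p ∈ F α, lin (A i) (B i) p = b i},
    fun i => {w | lin (A i) (B i) (z w) < b i}, ?_, ?_⟩
  · intro i α hα w hw h0
    have := hα (z w) ⟨hz w, h0⟩
    simp only [Set.mem_ofPred_eq] at hw
    linarith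
  · intro α w hpos ⟨w', hw'⟩
    by_contra hne
    push Not at hne
    have hfw' : z w' ∈ F α := ⟨hz w', hw'⟩
    -- a point of the face where all the other inequalities are strict
    have key : ∀ I : Finset (Fin r), (∀ i ∈ I, ∃ p ∈ F α, lin (A i) (B i) p < b i) →
        ∃ p ∈ F α, ∀ i ∈ I, lin (A i) (B i) p < b i := by
      classical
      intro I
      induction I using Finset.induction_on with
      | empty => intro _; exact ⟨z w', hfw', by simp⟩
      | insert i I hi ih =>
        intro hI
        obtain ⟨p, hp, hp'⟩ := ih (fun j hj => hI j (by simp [hj]))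
        obtain ⟨p', hp1, hp2⟩ := hI i (by simp)
        refine ⟨(1 / 2 : ℝ) • p + (1 / 2 : ℝ) • p', ⟨⟨fun j => ?_, fun j => ?_⟩, ?_⟩, ?_⟩
        · rw [lin_comb]
          have h1 := hp.1.1 j
          have h2 := hp1.1.1 j
          linarith
        · rw [lin_comb]
          have h1 := hp.1.2 j
          have h2 := hp1.1.2 j
          linarith
        · rw [aff_comb _ _ (by norm_num), hp.2, hp1.2]
          norm_num
        · intro j hj
          rw [lin_comb]
          rcases Finset.mem_insert.mp hj with rfl | hj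
          · have h1 := hp.1.1 j
            linarith
          · have h1 := hp1.1.1 j
            have h2 := hp' j hj
            linarith
    classical
    obtain ⟨p, hp, hp'⟩ := key (Finset.univ.filter fun i =>
      ∃ p ∈ F α, lin (A i) (B i) p < b i) (by
        intro i hi
        exact (Finset.mem_filter.mp hi).2)
    have hcase : ∀ i, lin (A i) (B i) p < b i ∨
        (lin (A i) (B i) p = b i ∧ lin (A i) (B i) (z w) = b i) := by
      intro i
      by_cases hi : ∃ p ∈ F α, lin (A i) (B i) p < b i
      · exact Or.inl (hp' i (Finset.mem_filter.mpr ⟨Finset.mem_univ i, hi⟩))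
      · right
        push Not at hi
        have h1 : ∀ p ∈ F α, lin (A i) (B i) p = b i := fun p hp =>
          le_antisymm (hp.1.1 i) (hi p hp)
        refine ⟨h1 p hp, ?_⟩
        have h2 := hne i h1
        simp only [Set.mem_ofPred_eq, not_lt] at h2
        exact le_antisymm ((hz w).1 i) h2
    -- a small step
    have hstep : ∃ ε : ℝ, 0 < ε ∧ ∀ i, lin (A i) (B i) p +
        ε * (lin (A i) (B i) p - lin (A i) (B i) (z w)) ≤ b i := by
      have h1 : ∀ i, ∃ ε : ℝ, 0 < ε ∧ ∀ δ, 0 ≤ δ → δ ≤ ε → lin (A i) (B i) p +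
          δ * (lin (A i) (B i) p - lin (A i) (B i) (z w)) ≤ b i := by
        intro i
        rcases hcase i with h | ⟨h, h'⟩
        · have hzi := (hz w).1 i
          rcases le_or_gt (lin (A i) (B i) p - lin (A i) (B i) (z w)) 0 with hle | hgt
          · refine ⟨1, one_pos, fun δ hδ _ => ?_⟩
            have := mul_nonpos_of_nonneg_of_nonpos hδ hle
            linarith
          · refine ⟨(b i - lin (A i) (B i) p) /
              (lin (A i) (B i) p - lin (A i) (B i) (z w)), by
              apply div_pos <;> linarith, fun δ _ hδ => ?_⟩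
            rw [le_div_iff₀ hgt] at hδ
            linarith
        · refine ⟨1, one_pos, fun δ _ _ => ?_⟩
          rw [h, h']
          simp
      choose ε hε hε' using h1
      rcases isEmpty_or_nonempty (Fin r) with hr | hr
      · exact ⟨1, one_pos, fun i => (hr.false i).elim⟩
      · refine ⟨Finset.univ.inf' Finset.univ_nonempty ε, ?_, fun i => ?_⟩
        · rw [Finset.lt_inf'_iff]
          exact fun i _ => hε i
        · refine hε' i _ ?_ (Finset.inf'_le _ (Finset.mem_univ i))
          rw [Finset.le_inf'_iff]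
          exact fun i _ => (hε i).le
    obtain ⟨ε, hε, hstep⟩ := hstep
    have hmem : (1 + ε) • p + (-ε) • z w ∈ Q := by
      refine ⟨fun i => ?_, fun i => ?_⟩
      · rw [lin_comb]
        have := hstep i
        linarith
      · rw [lin_comb, hp.1.2 i, (hz w).2 i]
        ring
    have h1 := hL α _ (hQP _ hmem)
    rw [aff_comb _ _ (by ring), hp.2] at h1
    have h2 : 0 < ε * aff (c α) (a α) (z w).1 := mul_pos hε hpos
    linarith

/-! ### The rectangle bound for unique disjointness -/

/-- The number of places where both `a` and `b` are `true`. -/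
def meet {K : ℕ} (a b : Fin K → Bool) : ℕ := ∑ i, (a i && b i).toNat

theorem meet_cons {K : ℕ} (x y : Bool) (a b : Fin K → Bool) :
    meet (Fin.cons x a : Fin (K + 1) → Bool) (Fin.cons y b : Fin (K + 1) → Bool) =
      (x && y).toNat + meet a b := by
  simp [meet, Fin.sum_univ_succ]

open Classical in
/-- The number of disjoint pairs in a rectangle. -/
noncomputable def cnt {K : ℕ} (A B : (Fin K → Bool) → Prop) : ℕ :=
  ∑ a : Fin K → Bool, ∑ b : Fin K → Bool, if A a ∧ B b ∧ meet a b = 0 then 1 else 0

theorem sum_cons {K : ℕ} (F : (Fin (K + 1) → Bool) → ℕ) :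
    ∑ a, F a = ∑ a : Fin K → Bool, (F (Fin.cons false a : Fin (K + 1) → Bool) +
      F (Fin.cons true a : Fin (K + 1) → Bool)) := by
  rw [← (Fin.consEquiv (fun _ : Fin (K + 1) => Bool)).sum_comp]
  rw [Fintype.sum_prod_type_right]
  apply Finset.sum_congr rfl
  intro a _
  rw [Fintype.sum_bool]
  rw [add_comm]
  rfl

/-- Kaibel and Weltge: a rectangle without pairs that meet in exactly one place contains at
most `2 ^ K` disjoint pairs. -/
theorem cnt_le {K : ℕ} (A B : (Fin K → Bool) → Prop)
    (h : ∀ a b, A a → B b → meet a b ≠ 1) : cnt A B ≤ 2 ^ K := by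
  classical
  induction K with
  | zero =>
    unfold cnt
    rw [Fintype.sum_unique, Fintype.sum_unique]
    split_ifs <;> simp
  | succ K ih =>
    let c : Bool → (Fin K → Bool) → (Fin (K + 1) → Bool) := fun x a => Fin.cons x a
    have h1 := ih (fun a => A (c false a) ∨ A (c true a)) (fun b => B (c false b)) (by
      rintro a b (ha | ha) hb
      · have := h _ _ ha hb
        simpa [c, meet_cons] using this
      · have := h _ _ ha hb
        simpa [c, meet_cons] using this)
    have h2 := ih (fun a => A (c false a)) (fun b => B (c false b) ∨ B (c true b)) (by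
      rintro a b ha (hb | hb)
      · have := h _ _ ha hb
        simpa [c, meet_cons] using this
      · have := h _ _ ha hb
        simpa [c, meet_cons] using this)
    have key : cnt A B ≤ cnt (fun a => A (c false a) ∨ A (c true a)) (fun b => B (c false b)) +
        cnt (fun a => A (c false a)) (fun b => B (c false b) ∨ B (c true b)) := by
      unfold cnt
      rw [sum_cons, ← Finset.sum_add_distrib]
      apply Finset.sum_le_sum
      intro a _
      rw [sum_cons, sum_cons, ← Finset.sum_add_distrib, ← Finset.sum_add_distrib]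
      apply Finset.sum_le_sum
      intro b _
      simp only [meet_cons]
      by_cases hm : meet a b = 0
      · have hno : ¬ (A (c true a) ∧ B (c true b)) := by
          rintro ⟨ha, hb⟩
          have := h _ _ ha hb
          simp [c, meet_cons, hm] at this
        simp only [hm, and_true, Bool.false_and, Bool.and_false, Bool.toNat_false,
          Bool.and_self, Bool.toNat_true, Nat.add_zero,
          one_ne_zero, and_false, if_false]
        simp only [c] at hno ⊢
        by_cases h3 : A (Fin.cons false a : Fin (K + 1) → Bool) <;>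
        by_cases h4 : A (Fin.cons true a : Fin (K + 1) → Bool) <;>
        by_cases h5 : B (Fin.cons false b : Fin (K + 1) → Bool) <;>
        by_cases h6 : B (Fin.cons true b : Fin (K + 1) → Bool) <;>
        simp [h3, h4, h5, h6] at hno ⊢
      · simp [hm]
    rw [pow_succ]
    omega

theorem cnt_all (K : ℕ) : cnt (K := K) (fun _ => True) (fun _ => True) = 3 ^ K := by
  classical
  induction K with
  | zero =>
    unfold cnt
    rw [Fintype.sum_unique, Fintype.sum_unique]
    simp [meet]
  | succ K ih =>
    rw [pow_succ, ← ih]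
    unfold cnt
    rw [sum_cons, Finset.sum_mul]
    apply Finset.sum_congr rfl
    intro a _
    rw [sum_cons, sum_cons, Finset.sum_mul, ← Finset.sum_add_distrib]
    apply Finset.sum_congr rfl
    intro b _
    simp only [meet_cons]
    by_cases hm : meet a b = 0 <;> simp [hm]

/-- A cover of the disjoint pairs `(a, b)` with `a ≠ 0` by rectangles without pairs that meet
in exactly one place has many rectangles. -/
theorem cover_bound {K r : ℕ} (J U : Fin r → (Fin K → Bool) → Prop)
    (h1 : ∀ i a b, J i a → U i b → meet a b ≠ 1)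
    (h2 : ∀ a b, a ≠ (fun _ => false) → meet a b = 0 → ∃ i, J i a ∧ U i b) :
    3 ^ K ≤ (r + 1) * 2 ^ K := by
  classical
  have h3 : cnt (K := K) (fun _ => True) (fun _ => True) ≤
      ∑ i, cnt (J i) (U i) + cnt (K := K) (fun a => a = fun _ => false) (fun _ => True) := by
    have e : ∑ i, cnt (J i) (U i) = ∑ a : Fin K → Bool, ∑ b : Fin K → Bool, ∑ i,
        if J i a ∧ U i b ∧ meet a b = 0 then 1 else 0 := by
      unfold cnt
      rw [Finset.sum_comm]
      apply Finset.sum_congr rfl
      intro a _
      rw [Finset.sum_comm]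
    rw [e]
    unfold cnt
    rw [← Finset.sum_add_distrib]
    apply Finset.sum_le_sum
    intro a _
    rw [← Finset.sum_add_distrib]
    apply Finset.sum_le_sum
    intro b _
    by_cases hm : meet a b = 0
    · by_cases ha : a = fun _ => false
      · simp [hm, ha]
      · obtain ⟨i, hi⟩ := h2 a b ha hm
        have h4 : 1 ≤ ∑ i, if J i a ∧ U i b ∧ meet a b = 0 then 1 else 0 := by
          refine le_trans ?_ (Finset.single_le_sum (f := fun i =>
            if J i a ∧ U i b ∧ meet a b = 0 then 1 else 0) (fun _ _ => Nat.zero_le _)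
            (Finset.mem_univ i))
          simp [hi, hm]
        simp only [true_and, hm, if_true]
        simp only [hm] at h4
        omega
    · simp [hm]
  have h4 : cnt (K := K) (fun a => a = fun _ => false) (fun _ => True) ≤ 2 ^ K := by
    apply cnt_le
    rintro a b rfl -
    simp [meet]
  have h5 : ∑ i, cnt (J i) (U i) ≤ r * 2 ^ K := by
    have := Finset.sum_le_card_nsmul Finset.univ (fun i => cnt (J i) (U i)) (2 ^ K)
      (fun i _ => cnt_le _ _ (h1 i))
    simpa using this
  rw [cnt_all] at h3
  rw [Nat.add_mul, Nat.one_mul]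
  omega

end Pool.Agent.H87.PMCSP
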