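import Mathlib

/-!
# Boolean circuits, partial truth tables and the language Partial MCSP
-/

namespace Pool.Agent.H87.PMCSP

/-- The conjunction of `a` and `b` if `c` is `true`, and their disjunction otherwise. -/
def gop (c a b : Bool) : Bool := bif c then a && b else a || b

/-- Circuits with `n` available wires. Either the circuit ends, with output the wire `w`,
negated iff `neg`; or it has a gate (AND if `conj`, otherwise OR) whose two operands are the
wires `a` and `b`, negated iff `na` and iff `nb`, the value of the gate is a new wire (number
`n`), and a circuit with `n + 1` available wires follows. A circuit on the inputs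
`x_1, …, x_n` starts with the `n` inputs as wires. -/
inductive Circuit : ℕ → Type
  | out {n : ℕ} (w : Fin n) (neg : Bool) : Circuit n
  | gate {n : ℕ} (conj : Bool) (a : Fin n) (na : Bool) (b : Fin n) (nb : Bool)
      (rest : Circuit (n + 1)) : Circuit n

namespace Circuit

/-- The number of AND and OR gates. -/
def size : {n : ℕ} → Circuit n → ℕ
  | _, .out _ _ => 0
  | _, .gate _ _ _ _ _ rest => rest.size + 1

/-- The value of the circuit when the available wires carry the values `x`. -/
def eval : {n : ℕ} → Circuit n → (Fin n → Bool) → Bool
  | _, .out w neg, x => xor (x w) neg
  | _, .gate conj a na b nb rest, x =>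
      rest.eval (Fin.snoc (α := fun _ => Bool) x (gop conj (xor (x a) na) (xor (x b) nb)))

end Circuit

/-- The position of `x` in the lexicographic order of `{0,1}^n` (the first position is `0`). -/
def lexIndex {n : ℕ} (x : Fin n → Bool) : ℕ := ∑ i : Fin n, if x i then 2 ^ (n - 1 - i.1) else 0

/-- The circuit `c` is consistent with the partial truth table `T`; the entry `some b` of `T`
stands for the value `b`, and the entry `none` for an undefined value. -/
def Circuit.Consistent {n : ℕ} (c : Circuit n) (T : List (Option Bool)) : Prop :=
  ∀ (x : Fin n → Bool) (b : Bool), T[lexIndex x]? = some (some b) → c.eval x = b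

/-- The codes of the letters `0` and `1` (that is, `some false` and `some true`) and `*`
(that is, `none`). -/
def codeEntry : Option Bool → List Bool
  | some b => [false, b]
  | none => [true, false]

/-- The code of the separator. -/
def codeSep : List Bool := [true, true]

/-- The word that encodes `(n, T, 1^s)`: `n` in binary (most significant digit first), a
separator, `T`, a separator, and `s` letters `1`. -/
def encodeInstance (n : ℕ) (T : List (Option Bool)) (s : ℕ) : List Bool :=
  ((Nat.bits n).reverse.map some).flatMap codeEntry ++ (codeSep ++ (T.flatMap codeEntry ++
    (codeSep ++ (List.replicate s (some true)).flatMap codeEntry)))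

/-- The language Partial MCSP. -/
def PartialMCSP : Set (List Bool) :=
  {w | ∃ (n s : ℕ) (T : List (Option Bool)), w = encodeInstance n T s ∧ T.length = 2 ^ n ∧
    ∃ c : Circuit n, c.size ≤ s ∧ c.Consistent T}

open Classical in
/-- The word that encodes the number `k` and the graph `G` with vertices `0, …, V - 1`:
`k` in unary, a separator, `V` in unary, a separator, and the adjacency matrix row by row. -/
noncomputable def encodeGraph (k : ℕ) {V : ℕ} (G : SimpleGraph (Fin V)) : List Bool :=
  List.replicate k true ++ false :: (List.replicate V true ++ false ::
    (List.finRange V).flatMap fun i => (List.finRange V).map fun j => decide (G.Adj i j))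

end Pool.Agent.H87.PMCSP
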