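import Pool.Agent.PPS.Bits
import Pool.Agent.PPS.Bridge

/-!
# More polynomial-time functions
-/

namespace Pool.Agent.H87.PMCSP

open Pool.Agent.PPS

variable {m : Bool} {α β γ δ σ τ : Type} [Rep α] [Rep β] [Rep γ] [Rep δ] [Rep σ] [Rep τ]

theorem size_flatMap_le {l : List β} {f : β → List γ} {B : ℕ} (h : ∀ b ∈ l, size (f b) ≤ B) :
    size (l.flatMap f) ≤ l.length * B + 1 := by
  induction l with
  | nil => simp [size_nil]
  | cons b l ih =>
    rw [List.flatMap_cons, List.length_cons, Nat.add_mul, Nat.one_mul]
    have h1 := size_append (f b) (l.flatMap f)
    have h2 := h b (by simp)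
    have h3 := ih (fun c hc => h c (by simp [hc]))
    omega

theorem PT.flatMap' {l : α → List β} {f : α × β → List γ} (hl : PT m l) (hf : PT m f) :
    PT m (fun a => (l a).flatMap (fun b => f (a, b))) := by
  obtain ⟨p, hp⟩ := hl.exists_size_le
  obtain ⟨q, hq⟩ := hf.exists_size_le
  have hfold : ∀ (a : α) (l : List β), l.foldr (fun b y => f (a, b) ++ y) [] =
      l.flatMap (fun b => f (a, b)) := by
    intro a l
    induction l with
    | nil => rfl
    | cons b l ih => rw [List.foldr_cons, ih, List.flatMap_cons]
  have hs : PT m (fun z : α × (β × List γ) => f (z.1, z.2.1) ++ z.2.2) := by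
    have h1 : PT m (fun z : α × (β × List γ) => f (z.1, z.2.1)) :=
      hf.comp (f := fun z : α × (β × List γ) => (z.1, z.2.1)) (by fun_prop)
    exact PT.append' h1 (by fun_prop)
  have := PT.foldr (m := m) (s := fun z : α × (β × List γ) => f (z.1, z.2.1) ++ z.2.2)
    (ini := fun _ => []) hl (by fun_prop) hs
    (p * (q.comp (Polynomial.X + p + 1)) + 1) (by
      intro a k
      simp only
      rw [hfold]
      simp only [Polynomial.eval_add, Polynomial.eval_mul, Polynomial.eval_comp,
        Polynomial.eval_X, Polynomial.eval_one]
      have h1 : ∀ b ∈ (l a).drop k, size (f (a, b)) ≤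
          q.eval (size a + p.eval (size a) + 1) := by
        intro b hb
        refine (hq _).trans (polyMono _ ?_)
        rw [size_pair]
        have h2 := size_le_of_mem (List.mem_of_mem_drop hb)
        have h3 := hp a
        omega
      refine (size_flatMap_le h1).trans ?_
      have h4 : ((l a).drop k).length ≤ p.eval (size a) := by
        rw [List.length_drop]
        exact (Nat.sub_le _ _).trans ((length_le_size' _).trans (hp a))
      have := Nat.mul_le_mul_right (q.eval (size a + p.eval (size a) + 1)) h4
      omega)
  convert this using 2 with a
  exact (hfold a (l a)).symm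

theorem size_range_le (n : ℕ) : size (List.range n) ≤ n * (2 * n + 2) + 1 := by
  have h := size_list_le (l := List.range n) (B := 2 * n + 1) (by
    intro b hb
    rw [List.mem_range] at hb
    rw [size_nat]
    omega)
  rw [List.length_range] at h
  exact h

@[fun_prop]
theorem PT.range' {f : α → ℕ} (hf : PT m f) : PT m (fun a => List.range (f a)) := by
  obtain ⟨p, hp⟩ := hf.exists_size_le
  have hit : ∀ k : ℕ, (fun y : ℕ × List ℕ => (y.1 + 1, y.2 ++ [y.1]))^[k] (0, []) =
      (k, List.range k) := by
    intro k
    induction k with
    | zero => rfl
    | succ k ih => rw [Function.iterate_succ_apply', ih, List.range_succ]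
  have := PT.snd' (PT.iterate (m := m)
    (s := fun z : α × (ℕ × List ℕ) => ((z.2.1 + 1, z.2.2 ++ [z.2.1]) : ℕ × List ℕ))
    (ini := fun _ => (0, [])) hf (by fun_prop) (by fun_prop)
    (p * (2 * p + 2) + 2 * p + 3) (by
      intro a k hk
      simp only
      rw [hit, size_pair, size_nat]
      have h1 := size_range_le k
      have h2 := hp a
      rw [size_nat] at h2
      have h3 : k ≤ p.eval (size a) := by omega
      have h4 : k * (2 * k + 2) ≤ p.eval (size a) * (2 * p.eval (size a) + 2) :=
        Nat.mul_le_mul h3 (by omega)
      simp only [Polynomial.eval_add, Polynomial.eval_mul, Polynomial.eval_ofNat]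
      omega))
  convert this using 2 with a
  exact (congrArg Prod.snd (hit (f a))).symm

theorem PT.mem' [DecidableEq β] {x : α → β} {l : α → List β} (hx : PT m x) (hl : PT m l) :
    PT m (fun a => decide (x a ∈ l a)) := by
  have hfold : ∀ (x : β) (l : List β) (b : Bool),
      l.foldl (fun y c => y || decide (x = c)) b = (b || decide (x ∈ l)) := by
    intro x l
    induction l with
    | nil => intro b; simp
    | cons c l ih =>
      intro b
      rw [List.foldl_cons, ih]
      by_cases h : x = c <;> by_cases h' : x ∈ l <;> cases b <;> simp [h, h']
  have hs : PT m (fun z : α × (Bool × β) => z.2.1 || decide (x z.1 = z.2.2)) := by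
    have h1 : PT m (fun z : α × (Bool × β) => x z.1) := hx.comp (by fun_prop)
    have h2 : PT m (fun z : α × (Bool × β) => z.2.2) := by fun_prop
    exact PT.or' (by fun_prop) (h1.decideEq h2)
  have := PT.foldl (m := m) (s := fun z : α × (Bool × β) => z.2.1 || decide (x z.1 = z.2.2))
    (ini := fun _ => false) hl (by fun_prop) hs 3 (by
      intro a k
      simp only [Polynomial.eval_ofNat]
      exact size_bool_le _)
  convert this using 2 with a
  have h1 := hfold (x a) (l a) false
  rw [Bool.false_or] at h1
  exact h1.symm

/-! ### All words of a given length -/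

/-- All words of length `n`, in lexicographic order. -/
def allBits : ℕ → List (List Bool)
  | 0 => [[]]
  | n + 1 => (allBits n).map (List.cons false) ++ (allBits n).map (List.cons true)

@[simp] theorem length_allBits (n : ℕ) : (allBits n).length = 2 ^ n := by
  induction n with
  | zero => rfl
  | succ n ih => simp [allBits, ih, pow_succ]; ring

theorem mem_allBits {n : ℕ} {l : List Bool} : l ∈ allBits n ↔ l.length = n := by
  induction n generalizing l with
  | zero => simp [allBits]
  | succ n ih =>
    simp only [allBits, List.mem_append, List.mem_map]
    constructor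
    · rintro (⟨a, ha, rfl⟩ | ⟨a, ha, rfl⟩) <;> simp [ih.mp ha]
    · intro h
      cases l with
      | nil => simp at h
      | cons b l =>
        have h1 : l ∈ allBits n := ih.mpr (by simpa using h)
        cases b
        · exact Or.inl ⟨l, h1, rfl⟩
        · exact Or.inr ⟨l, h1, rfl⟩

theorem size_allBits_le (n : ℕ) : size (allBits n) ≤ 2 ^ n * (4 * n + 2) + 1 := by
  have h := size_list_le (l := allBits n) (B := 4 * n + 1) (by
    intro b hb
    rw [mem_allBits] at hb
    have := (size_bits b).2
    rw [hb] at this
    exact this)
  rw [length_allBits] at h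
  exact h

theorem PT.allBits' {f : α → ℕ} (hf : PT m f) (q : Polynomial ℕ)
    (hq : ∀ a, 2 ^ f a ≤ q.eval (size a)) : PT m (fun a => allBits (f a)) := by
  have hstep : PT m (fun z : α × List (List Bool) =>
      z.2.map (List.cons false) ++ z.2.map (List.cons true)) := by
    have h1 : ∀ b : Bool, PT m (fun z : α × List (List Bool) => z.2.map (List.cons b)) := by
      intro b
      exact PT.map' (f := fun w : (α × List (List Bool)) × List Bool => b :: w.2)
        (by fun_prop) (by fun_prop)
    exact PT.append' (h1 false) (h1 true)
  have hit : ∀ k : ℕ, (fun y : List (List Bool) =>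
      y.map (List.cons false) ++ y.map (List.cons true))^[k] [[]] = allBits k := by
    intro k
    induction k with
    | zero => rfl
    | succ k ih => rw [Function.iterate_succ_apply', ih]; rfl
  have := PT.iterate (m := m) (s := fun z : α × List (List Bool) =>
      z.2.map (List.cons false) ++ z.2.map (List.cons true))
    (ini := fun _ => [[]]) hf (by fun_prop) hstep (q * (4 * q + 2) + 1) (by
      intro a k hk
      simp only
      rw [hit]
      refine (size_allBits_le k).trans ?_
      simp only [Polynomial.eval_add, Polynomial.eval_mul, Polynomial.eval_ofNat,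
        Polynomial.eval_one]
      have h1 : 2 ^ k ≤ q.eval (size a) :=
        (Nat.pow_le_pow_right (by norm_num) hk).trans (hq a)
      have h2 : k ≤ q.eval (size a) := (Nat.lt_two_pow_self).le.trans h1
      have := Nat.mul_le_mul h1 (show 4 * k + 2 ≤ 4 * q.eval (size a) + 2 by omega)
      omega)
  convert this using 2 with a
  exact (hit (f a)).symm

/-! ### The number of binary digits -/

@[fun_prop]
theorem PT.size' {f : α → ℕ} (hf : PT m f) : PT m (fun a => Nat.size (f a)) := by
  obtain ⟨p, hp⟩ := hf.exists_size_le
  have hit : ∀ v k : ℕ, (fun y : ℕ × ℕ => bif decide (y.1 ≤ v) then (y.1 + y.1, y.2 + 1)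
      else y)^[k] (1, 0) = (2 ^ min k (Nat.size v), min k (Nat.size v)) := by
    intro v k
    induction k with
    | zero => simp
    | succ k ih =>
      rw [Function.iterate_succ_apply', ih]
      by_cases h : k < Nat.size v
      · have h1 := Nat.lt_size.mp h
        rw [min_eq_left h.le, min_eq_left (by omega : k + 1 ≤ Nat.size v)]
        simp [h1]
        rw [pow_succ]
        ring
      · have h1 : ¬ 2 ^ Nat.size v ≤ v := by
          rw [← Nat.lt_size]; omega
        rw [min_eq_right (by omega), min_eq_right (by omega)]
        simp [h1]
  have hs : PT m (fun z : α × (ℕ × ℕ) =>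
      (bif decide (z.2.1 ≤ f z.1) then (z.2.1 + z.2.1, z.2.2 + 1) else z.2 : ℕ × ℕ)) := by
    have h1 : PT m (fun z : α × (ℕ × ℕ) => f z.1) := hf.comp (by fun_prop)
    exact PT.cond (PT.decideLe (by fun_prop) h1) (by fun_prop) (by fun_prop)
  have := PT.snd' (PT.iterate (m := m)
    (s := fun z : α × (ℕ × ℕ) =>
      (bif decide (z.2.1 ≤ f z.1) then (z.2.1 + z.2.1, z.2.2 + 1) else z.2 : ℕ × ℕ))
    (ini := fun _ => (1, 0)) hf (by fun_prop) hs (6 * p + 10) (by
      intro a k hk
      simp only
      rw [hit, size_pair, size_nat, size_nat]
      have h2 := hp a
      rw [size_nat] at h2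
      have h3 : 2 ^ min k (Nat.size (f a)) ≤ 2 * f a + 1 := by
        refine (Nat.pow_le_pow_right (by norm_num) (min_le_right _ _)).trans ?_
        rcases Nat.eq_zero_or_pos (Nat.size (f a)) with h | h
        · rw [h]; simp
        · obtain ⟨j, hj⟩ : ∃ j, Nat.size (f a) = j + 1 := ⟨Nat.size (f a) - 1, by omega⟩
          have h4 := Nat.lt_size.mp (show j < Nat.size (f a) by omega)
          rw [hj, pow_succ]
          omega
      have h5 : min k (Nat.size (f a)) ≤ f a := (min_le_left _ _).trans hk
      simp only [Polynomial.eval_add, Polynomial.eval_mul, Polynomial.eval_ofNat]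
      omega))
  convert this using 2 with a
  have h6 := congrArg Prod.snd (hit (f a) (f a))
  simp only at h6
  rw [h6]
  refine (min_eq_right ?_).symm
  rw [Nat.size_le]
  exact Nat.lt_two_pow_self

/-! ### Binary notation -/

/-- Increment of a binary number, least significant bit first. -/
def incB : List Bool → List Bool
  | [] => [true]
  | false :: l => true :: l
  | true :: l => false :: incB l

theorem incB_eq (l : List Bool) : incB l =
    bif decide (l = List.replicate l.length true) then List.replicate l.length false ++ [true]
      else inc l := by
  induction l with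
  | nil => rfl
  | cons b l ih =>
    cases b
    · simp [incB, inc, List.replicate_succ]
    · rw [incB, ih]
      by_cases h : l = List.replicate l.length true
      · rw [show decide (l = List.replicate l.length true) = true by simpa using h]
        rw [show decide (true :: l = List.replicate (true :: l).length true) = true by
          simpa [List.replicate_succ] using h]
        simp [List.replicate_succ]
      · rw [show decide (l = List.replicate l.length true) = false by simpa using h]
        rw [show decide (true :: l = List.replicate (true :: l).length true) = false by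
          simpa [List.replicate_succ] using h]
        simp [inc]

theorem bits_succ (n : ℕ) : Nat.bits (n + 1) = incB (Nat.bits n) := by
  induction n using Nat.binaryRec' with
  | zero => simp [incB]
  | bit b n h ih =>
    cases b
    · have h0 : n ≠ 0 := fun h0 => by simpa using h h0
      rw [Nat.bits_append_bit n false h]
      simp only [incB]
      have : Nat.bit false n + 1 = Nat.bit true n := by simp [Nat.bit]
      rw [this, Nat.bits_append_bit n true (fun _ => rfl)]
    · rw [Nat.bits_append_bit n true h]
      simp only [incB]
      have : Nat.bit true n + 1 = Nat.bit false (n + 1) := by simp [Nat.bit]; ring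
      rw [this, Nat.bits_append_bit (n + 1) false (by omega), ih]

@[fun_prop]
theorem PT.bits' {f : α → ℕ} (hf : PT m f) : PT m (fun a => Nat.bits (f a)) := by
  obtain ⟨p, hp⟩ := hf.exists_size_le
  have hit : ∀ k : ℕ, (fun y : List Bool => bif decide (y = List.replicate y.length true) then
      List.replicate y.length false ++ [true] else inc y)^[k] [] = Nat.bits k := by
    intro k
    induction k with
    | zero => simp
    | succ k ih => rw [Function.iterate_succ_apply', ih, bits_succ, incB_eq]
  have hs : PT m (fun z : α × List Bool =>
      (bif decide (z.2 = List.replicate z.2.length true) then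
      List.replicate z.2.length false ++ [true] else inc z.2 : List Bool)) := by
    have h1 : PT m (fun z : α × List Bool => z.2) := by fun_prop
    exact PT.cond (PT.decideEq h1 (by fun_prop)) (by fun_prop) (by fun_prop)
  have := PT.iterate (m := m)
    (s := fun z : α × List Bool =>
      (bif decide (z.2 = List.replicate z.2.length true) then
      List.replicate z.2.length false ++ [true] else inc z.2 : List Bool))
    (ini := fun _ => []) hf (by fun_prop) hs (4 * p + 5) (by
      intro a k hk
      simp only
      rw [hit]
      have h1 := (size_bits (Nat.bits k)).2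
      have h2 := hp a
      rw [size_nat] at h2
      have h3 : (Nat.bits k).length ≤ k := by
        rw [Nat.size_eq_bits_len]
        rw [Nat.size_le]
        exact Nat.lt_two_pow_self
      simp only [Polynomial.eval_add, Polynomial.eval_mul, Polynomial.eval_ofNat]
      omega)
  convert this using 2 with a
  exact (hit (f a)).symm

end Pool.Agent.H87.PMCSP
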