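import Pool.Agent.H87.PMCSP.Emb
import Pool.Agent.H87.PMCSP.Cover

/-!
# The extension complexity of the convex hull of the truth tables of small circuits
-/

namespace Pool.Agent.H87.PMCSP

/-! ### Affine functionals -/

section aff

variable {ι : Type} [Fintype ι]

/-- affine functionals -/
def IsAff (L : (ι → ℝ) → ℝ) : Prop := ∃ (c : ℝ) (a : ι → ℝ), ∀ v, L v = aff c a v

theorem IsAff.const (c : ℝ) : IsAff (fun _ : ι → ℝ => c) :=
  ⟨c, fun _ => 0, fun v => by simp [aff]⟩

theorem IsAff.coord [DecidableEq ι] (x : ι) : IsAff (fun v : ι → ℝ => v x) :=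
  ⟨0, fun y => if y = x then 1 else 0, fun v => by simp [aff]⟩

theorem IsAff.add {L L' : (ι → ℝ) → ℝ} (h : IsAff L) (h' : IsAff L') :
    IsAff (fun v => L v + L' v) := by
  obtain ⟨c, a, h⟩ := h
  obtain ⟨c', a', h'⟩ := h'
  refine ⟨c + c', fun x => a x + a' x, fun v => ?_⟩
  show L v + L' v = _
  rw [h, h']
  simp only [aff, add_mul, Finset.sum_add_distrib]
  ring

theorem IsAff.mul (t : ℝ) {L : (ι → ℝ) → ℝ} (h : IsAff L) : IsAff (fun v => t * L v) := by
  obtain ⟨c, a, h⟩ := h
  refine ⟨t * c, fun x => t * a x, fun v => ?_⟩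
  show t * L v = _
  rw [h]
  simp only [aff, mul_assoc, mul_add, Finset.mul_sum]

theorem IsAff.sum {κ : Type} (S : Finset κ) {L : κ → (ι → ℝ) → ℝ} (h : ∀ i ∈ S, IsAff (L i)) :
    IsAff (fun v => ∑ i ∈ S, L i v) := by
  classical
  induction S using Finset.induction_on with
  | empty => simpa using IsAff.const (ι := ι) 0
  | insert i S hi ih =>
    have := (h i (by simp)).add (ih fun j hj => h j (by simp [hj]))
    simpa [Finset.sum_insert hi] using this

theorem aff_convex (c : ℝ) (a : ι → ℝ) : Convex ℝ {v : ι → ℝ | 0 ≤ aff c a v} := by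
  intro v hv w hw s t hs ht hst
  simp only [Set.mem_ofPred_eq] at hv hw ⊢
  have h : aff c a (s • v + t • w) = s * aff c a v + t * aff c a w := by
    have := aff_comb (κ := Fin 0) c a hst (v, 0) (w, 0)
    simpa using this
  rw [h]
  have := mul_nonneg hs hv
  have := mul_nonneg ht hw
  linarith

end aff

variable {k m ρ n : ℕ}

/-- number of common ones of two words -/
def com (p q : Fin m → Bool) : ℝ := ∑ i, ((p i && q i).toNat : ℝ)

theorem com_nonneg (p q : Fin m → Bool) : 0 ≤ com p q :=
  Finset.sum_nonneg fun _ _ => Nat.cast_nonneg _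

/-- coefficients of the functional of `α` -/
noncomputable def coe (α : Fin k → Fin m → Bool) (a b : Fin k) (p q : Fin m → Bool) : ℝ :=
  com (α a) p * com (α b) q - if a = b ∧ p = q then 2 * com (α a) p else 0

/-- The pairs that enforce that both tuples of words are equal. -/
def badE (a : Fin k) (p : Fin m → Bool) (b : Fin k) (q : Fin m → Bool) : Prop :=
  a = b ∧ p ≠ q

/-- the total number of common ones -/
def tot (α w : Fin k → Fin m → Bool) : ℝ := ∑ a, com (α a) (w a)

theorem sum_coe (α w : Fin k → Fin m → Bool) :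
    1 + ∑ a, ∑ b, ∑ p, ∑ q, coe α a b p q * (if w a = p ∧ w b = q then 1 else 0) =
      (1 - tot α w) ^ 2 := by
  have h1 : ∀ a b : Fin k, ∑ p, ∑ q, coe α a b p q * (if w a = p ∧ w b = q then 1 else 0) =
      coe α a b (w a) (w b) := by
    intro a b
    rw [Finset.sum_eq_single (w a), Finset.sum_eq_single (w b)]
    · simp
    · intro q _ hq
      rw [if_neg (fun h => hq h.2.symm), mul_zero]
    · intro h; exact absurd (Finset.mem_univ _) h
    · intro p _ hp
      apply Finset.sum_eq_zero
      intro q _
      rw [if_neg (fun h => hp h.1.symm), mul_zero]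
    · intro h; exact absurd (Finset.mem_univ _) h
  simp only [h1]
  have h2 : ∀ a : Fin k, ∑ b, coe α a b (w a) (w b) =
      com (α a) (w a) * tot α w - 2 * com (α a) (w a) := by
    intro a
    simp only [coe, Finset.sum_sub_distrib, tot, Finset.mul_sum]
    congr 1
    rw [Finset.sum_eq_single a]
    · simp
    · intro b _ hb
      rw [if_neg (fun h => hb h.1.symm)]
    · intro h; exact absurd (Finset.mem_univ _) h
  simp only [h2, Finset.sum_sub_distrib, ← Finset.sum_mul, ← Finset.mul_sum]
  rw [show ∑ a, com (α a) (w a) = tot α w from rfl]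
  ring

/-- **The rectangle bound for the circuit polytope.** -/
theorem polytope_bound {s r : ℕ} (hm : 0 < m) (hs : 4 * (2 ^ k + m) + ρ = s + 1)
    (hn : s + 1 ≤ n) (h : HasExtension (circuitPolytope n s) r) :
    3 ^ (k * m) ≤ (r + 1) * 2 ^ (k * m) := by
  classical
  have hcard : Fintype.card (VT k m ρ) = s + 1 := by rw [card_VT, hs]
  obtain ⟨e⟩ : Nonempty (VT k m ρ ↪ Fin n) := by
    rw [Function.Embedding.nonempty_iff_card_le, hcard, Fintype.card_fin]
    exact hn
  -- extension of an assignment to all inputs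
  let ext : (VT k m ρ → Bool) → (Fin n → Bool) := fun z i =>
    if h : ∃ v, e v = i then z h.choose else false
  have hext : ∀ z, (fun v => ext z (e v)) = z := by
    intro z
    funext v
    have h : ∃ v', e v' = e v := ⟨v, rfl⟩
    simp only [ext, h, dite_true]
    rw [e.injective h.choose_spec]
  let qx : Fin k → Fin k → (Fin m → Bool) → (Fin m → Bool) → (Fin n → Bool) :=
    fun a b p q => ext (Sum.elim (quX a b) (quY p q))
  have hqx : ∀ a b p q, (fun v => qx a b p q (e v)) = Sum.elim (quX a b) (quY p q) :=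
    fun a b p q => hext _
  let T : (Fin n → Bool) → Option Bool := fun x => tab k m ρ badE (fun v => x (e v))
  -- the penalty
  let pen : (Fin n → Bool) → ((Fin n → Bool) → ℝ) → ℝ := fun x v =>
    if T x = some false then v x else if T x = some true then 1 + (-1) * v x else 0
  have hpenaff : ∀ x, IsAff (pen x) := by
    intro x
    simp only [pen]
    split_ifs
    · exact IsAff.coord x
    · exact (IsAff.const 1).add ((IsAff.coord x).mul (-1))
    · exact IsAff.const 0
  -- the functional
  let Mα : (Fin k → Fin m → Bool) → ℝ := fun α => ∑ a, ∑ b, ∑ p, ∑ q, |coe α a b p q|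
  let L : (Fin k → Fin m → Bool) → ((Fin n → Bool) → ℝ) → ℝ := fun α v =>
    1 + ∑ a, ∑ b, ∑ p, ∑ q, coe α a b p q * (1 + (-1) * v (qx a b p q)) +
      Mα α * ∑ x, pen x v
  have hLaff : ∀ α, IsAff (L α) := by
    intro α
    refine IsAff.add (IsAff.add (IsAff.const 1) ?_) ((IsAff.sum _ fun x _ => hpenaff x).mul _)
    refine IsAff.sum _ fun a _ => IsAff.sum _ fun b _ => IsAff.sum _ fun p _ =>
      IsAff.sum _ fun q _ => ?_
    exact ((IsAff.const 1).add ((IsAff.coord _).mul (-1))).mul _
  have htt : ∀ (c : Circuit n) (x : Fin n → Bool), truthTable c x = 0 ∨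
      truthTable c x = 1 := by
    intro c x
    unfold truthTable
    split_ifs
    · exact Or.inr rfl
    · exact Or.inl rfl
  have hpen0 : ∀ (c : Circuit n) x, 0 ≤ pen x (truthTable c) := by
    intro c x
    simp only [pen]
    rcases htt c x with h | h <;> rw [h] <;> split_ifs <;> norm_num
  -- value on consistent circuits
  have hval : ∀ (α w : Fin k → Fin m → Bool) (c : Circuit n),
      (∀ (x : Fin n → Bool) (b : Bool), T x = some b → c.eval x = b) →
      (∀ (a b : Fin k) (p q : Fin m → Bool),
        c.eval (qx a b p q) = true ↔ ¬ (w a = p ∧ w b = q)) →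
      L α (truthTable c) = (1 - tot α w) ^ 2 := by
    intro α w c hc hw
    have h1 : ∀ x, pen x (truthTable c) = 0 := by
      intro x
      simp only [pen]
      by_cases h0 : T x = some false
      · rw [if_pos h0]
        have := hc x false h0
        simp [truthTable, this]
      · rw [if_neg h0]
        by_cases h1 : T x = some true
        · rw [if_pos h1]
          have := hc x true h1
          simp [truthTable, this]
        · rw [if_neg h1]
    have h2 : ∀ a b p q, 1 + (-1) * truthTable c (qx a b p q) =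
        if w a = p ∧ w b = q then (1 : ℝ) else 0 := by
      intro a b p q
      have := hw a b p q
      unfold truthTable
      by_cases h3 : w a = p ∧ w b = q
      · have h4 : c.eval (qx a b p q) = false := by
          by_contra hne
          exact (this.mp (by simpa using hne)) h3
        rw [h4, if_pos h3]
        norm_num
      · rw [this.mpr h3, if_neg h3]
        norm_num
    simp only [L, h1, h2, Finset.sum_const_zero, mul_zero, add_zero]
    exact sum_coe α w
  -- all circuits
  have hnonneg : ∀ α, ∀ p ∈ circuitPolytope n s, 0 ≤ L α p := by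
    intro α
    obtain ⟨c0, a0, hca⟩ := hLaff α
    have hsub : circuitPolytope n s ⊆ {v | 0 ≤ aff c0 a0 v} := by
      refine convexHull_min ?_ (aff_convex c0 a0)
      rintro v ⟨c, hc, rfl⟩
      simp only [Set.mem_ofPred_eq]
      rw [← hca]
      by_cases hcons : ∀ (x : Fin n → Bool) (b : Bool), T x = some b → c.eval x = b
      · obtain ⟨w0, w1, hw⟩ := struct_emb hm badE e c (by omega) hcons
        have hweq : w0 = w1 := by
          funext a
          by_contra hne
          have h1 := hcons (qx a a (w0 a) (w1 a)) true (by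
            simp only [T]
            rw [hqx]
            exact tab_one hm (One.e a a _ _ ⟨rfl, hne⟩))
          exact (hw a a _ _ _ (hqx a a _ _)).mp h1 ⟨rfl, rfl⟩
        subst hweq
        rw [hval α w0 c hcons fun a b p q => hw a b p q _ (hqx a b p q)]
        positivity
      · push Not at hcons
        obtain ⟨x, b, hx, hb⟩ := hcons
        have h1 : 1 ≤ ∑ x, pen x (truthTable c) := by
          refine le_trans ?_ (Finset.single_le_sum (fun x _ => hpen0 c x)
            (Finset.mem_univ x))
          simp only [pen, hx, truthTable]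
          cases b with
          | false => simp at hb; simp [hb]
          | true => simp at hb; simp [hb]
        have h2 : -(Mα α) ≤
            ∑ a, ∑ b, ∑ p, ∑ q, coe α a b p q * (1 + (-1) * truthTable c (qx a b p q)) := by
          simp only [Mα, ← Finset.sum_neg_distrib]
          refine Finset.sum_le_sum fun a _ => Finset.sum_le_sum fun b _ =>
            Finset.sum_le_sum fun p _ => Finset.sum_le_sum fun q _ => ?_
          rcases htt c (qx a b p q) with h | h
          · rw [h]
            have := neg_abs_le (coe α a b p q)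
            linarith
          · rw [h]
            have := abs_nonneg (coe α a b p q)
            linarith
        have h3 : 0 ≤ Mα α := Finset.sum_nonneg fun a _ => Finset.sum_nonneg fun b _ =>
          Finset.sum_nonneg fun p _ => Finset.sum_nonneg fun q _ => abs_nonneg _
        have h4 : Mα α * 1 ≤ Mα α * ∑ x, pen x (truthTable c) :=
          mul_le_mul_of_nonneg_left h1 h3
        simp only [L]
        linarith
    intro p hp
    rw [hca]
    exact hsub hp
  -- the vertices
  choose cw hcw1 hcw2 hcw3 using fun w : Fin k → Fin m → Bool => exists_emb e w w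
  have hcons : ∀ w x b, T x = some b → (cw w).eval x = b := by
    intro w
    refine hcw3 w badE ?_
    rintro a b ⟨rfl, hne⟩
    exact hne rfl
  have hLw : ∀ α w, L α (truthTable (cw w)) = (1 - tot α w) ^ 2 := fun α w =>
    hval α w (cw w) (hcons w) fun a b p q => hcw2 w a b p q _ (hqx a b p q)
  choose c0 a0 hca using hLaff
  obtain ⟨J, U, h1, h2⟩ := exists_cover h c0 a0 (fun w => truthTable (cw w))
    (fun α p hp => by rw [← hca]; exact hnonneg α p hp)
    (fun w => subset_convexHull ℝ _ ⟨cw w, by have := hcw1 w; omega, rfl⟩)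
  simp only [← hca, hLw] at h1 h2
  -- transport to words of length `k * m`
  let tr : (Fin (k * m) → Bool) → (Fin k → Fin m → Bool) := fun a i j =>
    a (finProdFinEquiv (i, j))
  have htot : ∀ a b, tot (tr a) (tr b) = (meet a b : ℝ) := by
    intro a b
    simp only [tot, com, tr, meet]
    push_cast
    rw [← Fintype.sum_prod_type (f := fun x : Fin k × Fin m =>
      (((a (finProdFinEquiv x) && b (finProdFinEquiv x)).toNat : ℕ) : ℝ))]
    exact finProdFinEquiv.sum_comp (fun x => (((a x && b x).toNat : ℕ) : ℝ))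
  refine cover_bound (fun i a => tr a ∈ J i) (fun i b => tr b ∈ U i) ?_ ?_
  · intro i a b ha hb hab
    apply h1 i _ ha _ hb
    rw [htot, hab]
    norm_num
  · intro a b ha hab
    refine h2 (tr a) (tr b) (by rw [htot, hab]; norm_num) ?_
    obtain ⟨j, hj⟩ := Function.ne_iff.mp ha
    obtain ⟨u, hu⟩ : ∃ u : Fin (k * m) → Bool, ∀ i, u i = decide (i = j) :=
      ⟨fun i => decide (i = j), fun _ => rfl⟩
    refine ⟨tr u, ?_⟩
    have h3 : meet a u = 1 := by
      unfold meet
      rw [Finset.sum_eq_single j]
      · simp at hj; simp [hj, hu]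
      · intro b _ hb; simp [hb, hu]
      · intro h; exact absurd (Finset.mem_univ _) h
    rw [htot, h3]
    norm_num

/-- Every extended formulation of the circuit polytope has many inequalities. -/
theorem extension_bound {n s r : ℕ} (hs : 255 ≤ s) (hn : s < n)
    (h : HasExtension (circuitPolytope n s) r) : s ^ s ≤ (r + 1) ^ 64 := by
  obtain ⟨m, hm⟩ : ∃ m, m = (s + 1) / 8 := ⟨_, rfl⟩
  obtain ⟨k, hk⟩ : ∃ k, k = Nat.log 2 m := ⟨_, rfl⟩
  have hm32 : 32 ≤ m := by omega
  have hk1 : 2 ^ k ≤ m := by rw [hk]; exact Nat.pow_log_le_self 2 (by omega)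
  have hk2 : m < 2 ^ (k + 1) := by rw [hk]; exact Nat.lt_pow_succ_log_self (by norm_num) m
  have hk5 : 5 ≤ k := by
    by_contra hlt
    have : 2 ^ (k + 1) ≤ 2 ^ 5 := Nat.pow_le_pow_right (by norm_num) (by omega)
    omega
  have hb := polytope_bound (k := k) (m := m) (ρ := s + 1 - 4 * (2 ^ k + m)) (by omega)
    (by omega) (by omega) h
  -- numerical estimates
  have e1 : 2 ^ (k * m) ≤ (r + 1) ^ 2 := by
    have h1 : 3 ^ (k * m) * 3 ^ (k * m) ≤ ((r + 1) * 2 ^ (k * m)) * ((r + 1) * 2 ^ (k * m)) :=
      Nat.mul_le_mul hb hb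
    have h2 : 8 ^ (k * m) ≤ 3 ^ (k * m) * 3 ^ (k * m) := by
      rw [← Nat.mul_pow]
      exact Nat.pow_le_pow_left (by norm_num) _
    have h3 : ((r + 1) * 2 ^ (k * m)) * ((r + 1) * 2 ^ (k * m)) =
        (r + 1) ^ 2 * 4 ^ (k * m) := by
      rw [show (4 : ℕ) = 2 * 2 from rfl, Nat.mul_pow]
      ring
    have h4 : 2 ^ (k * m) * 4 ^ (k * m) ≤ (r + 1) ^ 2 * 4 ^ (k * m) := by
      rw [← Nat.mul_pow, ← h3]
      exact h2.trans h1
    exact Nat.le_of_mul_le_mul_right h4 (by positivity)
  have e2 : s ≤ 2 ^ (k + 5) := by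
    have : 2 ^ (k + 5) = 16 * 2 ^ (k + 1) := by ring
    omega
  calc s ^ s ≤ (2 ^ (k + 5)) ^ s := Nat.pow_le_pow_left e2 s
    _ ≤ (2 ^ (k + 5)) ^ (16 * m) := Nat.pow_le_pow_right (by positivity) (by omega)
    _ = 2 ^ ((k + 5) * (16 * m)) := by rw [← pow_mul]
    _ ≤ 2 ^ (32 * (k * m)) := by
        apply Nat.pow_le_pow_right (by norm_num)
        have : (k + 5) * (16 * m) ≤ (2 * k) * (16 * m) := Nat.mul_le_mul_right _ (by omega)
        calc (k + 5) * (16 * m) ≤ (2 * k) * (16 * m) := this
          _ = 32 * (k * m) := by ring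
    _ = (2 ^ (k * m)) ^ 32 := by rw [← pow_mul]; ring_nf
    _ ≤ ((r + 1) ^ 2) ^ 32 := Nat.pow_le_pow_left e1 32
    _ = (r + 1) ^ 64 := by rw [← pow_mul]

end Pool.Agent.H87.PMCSP
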