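import Pool.Agent.H87.PMCSP.Defs

/-!
# Extended formulations and the circuit polytope
-/

namespace Pool.Agent.H87.PMCSP

/-- The set `P` is the projection of a polyhedron given by `r` linear inequalities and some
linear equations in the variables of `P` and some further variables. -/
def HasExtension {ι : Type} [Fintype ι] (P : Set (ι → ℝ)) (r : ℕ) : Prop :=
  ∃ (d q : ℕ) (A : Fin r → ι → ℝ) (B : Fin r → Fin d → ℝ) (b : Fin r → ℝ)
    (C : Fin q → ι → ℝ) (D : Fin q → Fin d → ℝ) (e : Fin q → ℝ),
    ∀ v : ι → ℝ, v ∈ P ↔ ∃ y : Fin d → ℝ,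
      (∀ i, ∑ x, A i x * v x + ∑ j, B i j * y j ≤ b i) ∧
      ∀ i, ∑ x, C i x * v x + ∑ j, D i j * y j = e i

/-- The truth table of a circuit, as a vector. -/
noncomputable def truthTable {n : ℕ} (c : Circuit n) : (Fin n → Bool) → ℝ :=
  fun x => if c.eval x then 1 else 0

/-- The convex hull of the truth tables of the circuits on `n` inputs with at most `s`
gates. -/
noncomputable def circuitPolytope (n s : ℕ) : Set ((Fin n → Bool) → ℝ) :=
  convexHull ℝ {v | ∃ c : Circuit n, c.size ≤ s ∧ v = truthTable c}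

end Pool.Agent.H87.PMCSP
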