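import Pool.Agent.H87.PMCSP.Kit

/-!
# The program that writes the partial table
-/

namespace Pool.Agent.H87.PMCSP

open Pool.Agent.PPS

/-- `n` letters `false` -/
def zz (n : ℕ) : List Bool := List.replicate n false

/-- `n` letters `true` -/
def oo (n : ℕ) : List Bool := List.replicate n true

/-- a block in copy `κ` -/
def pX (κ : Bool) (L : List Bool) (D : ℕ) : List Bool := bif κ then zz D ++ L else L ++ zz D

/-- a block in copy `κ` and half `β` -/
def pY (κ β : Bool) (L : List Bool) (m : ℕ) : List Bool := pX κ (pX β L m) (m + m)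

/-- a block for one word -/
def sX (l : List Bool) (U : List (List Bool)) : List Bool := U.map fun l' => decide (l' = l)

/-- a block for one index -/
def sY (i m : ℕ) : List Bool := (List.range m).map fun i' => decide (i' = i)

/-- a block for the words whose bit `a` is `σ` -/
def bX (a : ℕ) (σ : Bool) (U : List (List Bool)) : List Bool := U.map fun l' => bitAt l' a == σ

/-- the complement of a word -/
def cpl (p : List Bool) : List Bool := p.map fun b => !b

/-- both bits -/
def BB : List Bool := [false, true]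

def fam1 (U : List (List Bool)) (m : ℕ) : List (List Bool) :=
  [oo (U.length + U.length) ++ (zz (U.length + U.length) ++ zz (4 * m)),
    zz (U.length + U.length) ++ (oo (U.length + U.length) ++ oo (4 * m))]

def body2 (U : List (List Bool)) (m : ℕ) (κ : Bool) (l : List Bool) (κ' : Bool)
    (l' : List Bool) : List (List Bool) :=
  bif decide (κ = κ') && decide (l = l') then [] else
    [pX κ (sX l U) U.length ++ (pX κ' (sX l' U) U.length ++ zz (4 * m))]

def fam2 (U : List (List Bool)) (m : ℕ) : List (List Bool) :=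
  BB.flatMap fun κ => U.flatMap fun l => BB.flatMap fun κ' => U.flatMap fun l' =>
    body2 U m κ l κ' l'

def body3 (U : List (List Bool)) (m : ℕ) (κ : Bool) (i : ℕ) (β : Bool) : List (List Bool) :=
  [pX (!κ) (oo U.length) U.length ++ (zz (U.length + U.length) ++ pY κ β (sY i m) m)]

def fam3 (U : List (List Bool)) (m : ℕ) : List (List Bool) :=
  BB.flatMap fun κ => (List.range m).flatMap fun i => BB.flatMap fun β => body3 U m κ i β

/-- the points at which the table is `0` -/
def zeroPts (U : List (List Bool)) (m : ℕ) : List (List Bool) :=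
  fam1 U m ++ (fam2 U m ++ fam3 U m)

def body4 (U : List (List Bool)) (m : ℕ) (κ : Bool) (l : List Bool) : List (List Bool) :=
  [pX κ (sX l U) U.length ++ (oo (U.length + U.length) ++ oo (4 * m)),
    oo (U.length + U.length) ++ (pX κ (sX l U) U.length ++ zz (4 * m)),
    pX κ (sX l U) U.length ++ (pX κ (sX l U) U.length ++ zz (4 * m))]

def fam4 (U : List (List Bool)) (m : ℕ) : List (List Bool) :=
  BB.flatMap fun κ => U.flatMap fun l => body4 U m κ l

def body5 (U : List (List Bool)) (m : ℕ) (κ : Bool) (i : ℕ) (β : Bool) : List (List Bool) :=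
  [oo (U.length + U.length) ++ (zz (U.length + U.length) ++ pY κ β (sY i m) m)]

def fam5 (U : List (List Bool)) (m : ℕ) : List (List Bool) :=
  BB.flatMap fun κ => (List.range m).flatMap fun i => BB.flatMap fun β => body5 U m κ i β

def body6 (U : List (List Bool)) (m : ℕ) (κ : Bool) (a : ℕ) (σ : Bool) (i : ℕ) :
    List (List Bool) :=
  [pX κ (bX a σ U) U.length ++ (zz (U.length + U.length) ++
    pX κ (sY i m ++ sY i m) (m + m))]

def fam6 (k : ℕ) (U : List (List Bool)) (m : ℕ) : List (List Bool) :=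
  BB.flatMap fun κ => (List.range k).flatMap fun a => BB.flatMap fun σ =>
    (List.range m).flatMap fun i => body6 U m κ a σ i

/-- the pairs of vertex names allowed at places `a` and `b` -/
def okP (V : ℕ) (M : List Bool) (a b i j : ℕ) : Bool :=
  decide (i < V) && (decide (j < V) &&
    (bif decide (a = b) then decide (i = j) else bitAt M (i * V + j)))

def body7 (U W : List (List Bool)) (V : ℕ) (M : List Bool) (a b i j : ℕ) :
    List (List Bool) :=
  bif okP V M a b i j then [] else
    [(bX a true U ++ bX b true U) ++ (zz (U.length + U.length) ++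
      ((W.getD i [] ++ cpl (W.getD i [])) ++ (W.getD j [] ++ cpl (W.getD j []))))]

def fam7 (k : ℕ) (U W : List (List Bool)) (V : ℕ) (M : List Bool) : List (List Bool) :=
  (List.range k).flatMap fun a => (List.range k).flatMap fun b =>
    (List.range W.length).flatMap fun i => (List.range W.length).flatMap fun j =>
      body7 U W V M a b i j

/-- the points at which the table is `1` -/
def onePts (k : ℕ) (U : List (List Bool)) (m : ℕ) (W : List (List Bool)) (V : ℕ)
    (M : List Bool) : List (List Bool) :=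
  fam4 U m ++ (fam5 U m ++ (fam6 k U m ++ fam7 k U W V M))

/-- an entry of the table -/
def entry (Z O : List (List Bool)) (x : List Bool) : Option Bool :=
  bif decide (x ∈ Z) then some false else bif decide (x ∈ O) then some true else none

/-- the table -/
def table (k m V : ℕ) (M : List Bool) : List (Option Bool) :=
  (allBits (4 * (2 ^ k + m))).map
    (entry (zeroPts (allBits k) m) (onePts k (allBits k) m (allBits m) V M))

section PT

variable {t : Bool} {α β γ δ σ τ : Type} [Rep α] [Rep β] [Rep γ] [Rep δ] [Rep σ] [Rep τ]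

@[fun_prop]
theorem PT.zz' {n : α → ℕ} (hn : PT t n) : PT t (fun a => zz (n a)) := by
  unfold zz; fun_prop

@[fun_prop]
theorem PT.oo' {n : α → ℕ} (hn : PT t n) : PT t (fun a => oo (n a)) := by
  unfold oo; fun_prop

@[fun_prop]
theorem PT.pX' {κ : α → Bool} {L : α → List Bool} {D : α → ℕ} (h1 : PT t κ) (h2 : PT t L)
    (h3 : PT t D) : PT t (fun a => pX (κ a) (L a) (D a)) := by
  unfold pX; fun_prop

@[fun_prop]
theorem PT.pY' {κ β : α → Bool} {L : α → List Bool} {m : α → ℕ} (h1 : PT t κ) (h2 : PT t β)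
    (h3 : PT t L) (h4 : PT t m) : PT t (fun a => pY (κ a) (β a) (L a) (m a)) := by
  unfold pY; fun_prop

@[fun_prop]
theorem PT.sX' {l : α → List Bool} {U : α → List (List Bool)} (h1 : PT t l) (h2 : PT t U) :
    PT t (fun a => sX (l a) (U a)) := by
  unfold sX
  exact PT.map' (f := fun z : α × List Bool => decide (z.2 = l z.1)) h2
    (PT.decideEq (by fun_prop) (h1.comp (by fun_prop)))

@[fun_prop]
theorem PT.sY' {i m : α → ℕ} (h1 : PT t i) (h2 : PT t m) :
    PT t (fun a => sY (i a) (m a)) := by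
  unfold sY
  exact PT.map' (f := fun z : α × ℕ => decide (z.2 = i z.1)) (by fun_prop)
    (PT.decideEq (by fun_prop) (h1.comp (by fun_prop)))

@[fun_prop]
theorem PT.bX' {i : α → ℕ} {s : α → Bool} {U : α → List (List Bool)} (h1 : PT t i)
    (h2 : PT t s) (h3 : PT t U) : PT t (fun a => bX (i a) (s a) (U a)) := by
  unfold bX
  refine PT.map' (f := fun z : α × List Bool => bitAt z.2 (i z.1) == s z.1) h3 ?_
  have e1 : PT t (fun z : α × List Bool => i z.1) := h1.comp (by fun_prop)
  have e2 : PT t (fun z : α × List Bool => s z.1) := h2.comp (by fun_prop)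
  fun_prop

@[fun_prop]
theorem PT.cpl' {l : α → List Bool} (h1 : PT t l) : PT t (fun a => cpl (l a)) := by
  unfold cpl
  exact PT.map' (f := fun z : α × Bool => !z.2) h1 (by fun_prop)

/-- The constant list of both bits. -/
theorem PT.BB' : PT t (fun _ : α => BB) := PT.const' _

@[fun_prop]
theorem PT.fam1' {U : α → List (List Bool)} {m : α → ℕ} (hU : PT t U) (hm : PT t m) :
    PT t (fun a => fam1 (U a) (m a)) := by
  unfold fam1; fun_prop

@[fun_prop]
theorem PT.body2' {U : α → List (List Bool)} {m : α → ℕ} {κ κ' : α → Bool}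
    {l l' : α → List Bool} (hU : PT t U) (hm : PT t m) (h1 : PT t κ) (h2 : PT t l)
    (h3 : PT t κ') (h4 : PT t l') :
    PT t (fun a => body2 (U a) (m a) (κ a) (l a) (κ' a) (l' a)) := by
  unfold body2; fun_prop

@[fun_prop]
theorem PT.body3' {U : α → List (List Bool)} {m : α → ℕ} {κ β : α → Bool} {i : α → ℕ}
    (hU : PT t U) (hm : PT t m) (h1 : PT t κ) (h2 : PT t i) (h3 : PT t β) :
    PT t (fun a => body3 (U a) (m a) (κ a) (i a) (β a)) := by
  unfold body3; fun_prop

@[fun_prop]
theorem PT.body4' {U : α → List (List Bool)} {m : α → ℕ} {κ : α → Bool}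
    {l : α → List Bool} (hU : PT t U) (hm : PT t m) (h1 : PT t κ) (h2 : PT t l) :
    PT t (fun a => body4 (U a) (m a) (κ a) (l a)) := by
  unfold body4; fun_prop

@[fun_prop]
theorem PT.body5' {U : α → List (List Bool)} {m : α → ℕ} {κ β : α → Bool} {i : α → ℕ}
    (hU : PT t U) (hm : PT t m) (h1 : PT t κ) (h2 : PT t i) (h3 : PT t β) :
    PT t (fun a => body5 (U a) (m a) (κ a) (i a) (β a)) := by
  unfold body5; fun_prop

@[fun_prop]
theorem PT.body6' {U : α → List (List Bool)} {m : α → ℕ} {κ σ : α → Bool} {a' i : α → ℕ}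
    (hU : PT t U) (hm : PT t m) (h1 : PT t κ) (h2 : PT t a') (h3 : PT t σ) (h4 : PT t i) :
    PT t (fun a => body6 (U a) (m a) (κ a) (a' a) (σ a) (i a)) := by
  unfold body6; fun_prop

@[fun_prop]
theorem PT.okP' {V a b i j : α → ℕ} {M : α → List Bool} (h1 : PT t V) (h2 : PT t M)
    (h3 : PT t a) (h4 : PT t b) (h5 : PT t i) (h6 : PT t j) :
    PT t (fun x => okP (V x) (M x) (a x) (b x) (i x) (j x)) := by
  unfold okP; fun_prop

@[fun_prop]
theorem PT.body7' {U W : α → List (List Bool)} {V : α → ℕ} {M : α → List Bool}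
    {a b i j : α → ℕ} (hU : PT t U) (hW : PT t W) (h1 : PT t V) (h2 : PT t M)
    (h3 : PT t a) (h4 : PT t b) (h5 : PT t i) (h6 : PT t j) :
    PT t (fun x => body7 (U x) (W x) (V x) (M x) (a x) (b x) (i x) (j x)) := by
  have e1 : PT t (fun x => (W x).getD (i x) []) := by fun_prop
  have e2 : PT t (fun x => (W x).getD (j x) []) := by fun_prop
  unfold body7
  exact PT.cond (by fun_prop) (by fun_prop) (PT.cons' (by fun_prop) (by fun_prop))

theorem PT.fam2' {U : α → List (List Bool)} {m : α → ℕ} (hU : PT t U) (hm : PT t m) :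
    PT t (fun a => fam2 (U a) (m a)) := by
  unfold fam2
  refine PT.flatMap' (f := fun z : α × Bool => (U z.1).flatMap fun l =>
    BB.flatMap fun κ' => (U z.1).flatMap fun l' => body2 (U z.1) (m z.1) z.2 l κ' l')
    PT.BB' ?_
  refine PT.flatMap' (f := fun z : (α × Bool) × List Bool =>
    BB.flatMap fun κ' => (U z.1.1).flatMap fun l' =>
      body2 (U z.1.1) (m z.1.1) z.1.2 z.2 κ' l') (by fun_prop) ?_
  refine PT.flatMap' (f := fun z : ((α × Bool) × List Bool) × Bool =>
    (U z.1.1.1).flatMap fun l' =>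
      body2 (U z.1.1.1) (m z.1.1.1) z.1.1.2 z.1.2 z.2 l') PT.BB' ?_
  exact PT.flatMap' (f := fun z : (((α × Bool) × List Bool) × Bool) × List Bool =>
      body2 (U z.1.1.1.1) (m z.1.1.1.1) z.1.1.1.2 z.1.1.2 z.1.2 z.2)
    (by fun_prop) (by fun_prop)

theorem PT.fam3' {U : α → List (List Bool)} {m : α → ℕ} (hU : PT t U) (hm : PT t m) :
    PT t (fun a => fam3 (U a) (m a)) := by
  unfold fam3
  refine PT.flatMap' (f := fun z : α × Bool => (List.range (m z.1)).flatMap fun i =>
    BB.flatMap fun β => body3 (U z.1) (m z.1) z.2 i β) PT.BB' ?_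
  refine PT.flatMap' (f := fun z : (α × Bool) × ℕ =>
    BB.flatMap fun β => body3 (U z.1.1) (m z.1.1) z.1.2 z.2 β) (by fun_prop) ?_
  exact PT.flatMap' (f := fun z : ((α × Bool) × ℕ) × Bool =>
    body3 (U z.1.1.1) (m z.1.1.1) z.1.1.2 z.1.2 z.2) PT.BB' (by fun_prop)

theorem PT.fam4' {U : α → List (List Bool)} {m : α → ℕ} (hU : PT t U) (hm : PT t m) :
    PT t (fun a => fam4 (U a) (m a)) := by
  unfold fam4
  refine PT.flatMap' (f := fun z : α × Bool => (U z.1).flatMap fun l =>
    body4 (U z.1) (m z.1) z.2 l) PT.BB' ?_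
  exact PT.flatMap' (f := fun z : (α × Bool) × List Bool =>
    body4 (U z.1.1) (m z.1.1) z.1.2 z.2) (by fun_prop) (by fun_prop)

theorem PT.fam5' {U : α → List (List Bool)} {m : α → ℕ} (hU : PT t U) (hm : PT t m) :
    PT t (fun a => fam5 (U a) (m a)) := by
  unfold fam5
  refine PT.flatMap' (f := fun z : α × Bool => (List.range (m z.1)).flatMap fun i =>
    BB.flatMap fun β => body5 (U z.1) (m z.1) z.2 i β) PT.BB' ?_
  refine PT.flatMap' (f := fun z : (α × Bool) × ℕ =>
    BB.flatMap fun β => body5 (U z.1.1) (m z.1.1) z.1.2 z.2 β) (by fun_prop) ?_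
  exact PT.flatMap' (f := fun z : ((α × Bool) × ℕ) × Bool =>
    body5 (U z.1.1.1) (m z.1.1.1) z.1.1.2 z.1.2 z.2) PT.BB' (by fun_prop)

theorem PT.fam6' {U : α → List (List Bool)} {k m : α → ℕ} (hk : PT t k) (hU : PT t U)
    (hm : PT t m) : PT t (fun a => fam6 (k a) (U a) (m a)) := by
  unfold fam6
  refine PT.flatMap' (f := fun z : α × Bool => (List.range (k z.1)).flatMap fun a =>
    BB.flatMap fun σ => (List.range (m z.1)).flatMap fun i =>
      body6 (U z.1) (m z.1) z.2 a σ i) PT.BB' ?_
  refine PT.flatMap' (f := fun z : (α × Bool) × ℕ =>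
    BB.flatMap fun σ => (List.range (m z.1.1)).flatMap fun i =>
      body6 (U z.1.1) (m z.1.1) z.1.2 z.2 σ i) (by fun_prop) ?_
  refine PT.flatMap' (f := fun z : ((α × Bool) × ℕ) × Bool =>
    (List.range (m z.1.1.1)).flatMap fun i =>
      body6 (U z.1.1.1) (m z.1.1.1) z.1.1.2 z.1.2 z.2 i) PT.BB' ?_
  exact PT.flatMap' (f := fun z : (((α × Bool) × ℕ) × Bool) × ℕ =>
      body6 (U z.1.1.1.1) (m z.1.1.1.1) z.1.1.1.2 z.1.1.2 z.1.2 z.2)
    (by fun_prop) (by fun_prop)

theorem PT.fam7' {U W : α → List (List Bool)} {k V : α → ℕ} {M : α → List Bool}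
    (hk : PT t k) (hU : PT t U) (hW : PT t W) (hV : PT t V) (hM : PT t M) :
    PT t (fun a => fam7 (k a) (U a) (W a) (V a) (M a)) := by
  unfold fam7
  refine PT.flatMap' (f := fun z : α × ℕ => (List.range (k z.1)).flatMap fun b =>
    (List.range (W z.1).length).flatMap fun i =>
      (List.range (W z.1).length).flatMap fun j =>
      body7 (U z.1) (W z.1) (V z.1) (M z.1) z.2 b i j) (by fun_prop) ?_
  refine PT.flatMap' (f := fun z : (α × ℕ) × ℕ =>
    (List.range (W z.1.1).length).flatMap fun i =>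
      (List.range (W z.1.1).length).flatMap fun j =>
      body7 (U z.1.1) (W z.1.1) (V z.1.1) (M z.1.1) z.1.2 z.2 i j) (by fun_prop) ?_
  refine PT.flatMap' (f := fun z : ((α × ℕ) × ℕ) × ℕ =>
      (List.range (W z.1.1.1).length).flatMap fun j =>
      body7 (U z.1.1.1) (W z.1.1.1) (V z.1.1.1) (M z.1.1.1) z.1.1.2 z.1.2 z.2 j)
    (by fun_prop) ?_
  exact PT.flatMap' (f := fun z : (((α × ℕ) × ℕ) × ℕ) × ℕ =>
      body7 (U z.1.1.1.1) (W z.1.1.1.1) (V z.1.1.1.1) (M z.1.1.1.1) z.1.1.1.2 z.1.1.2
        z.1.2 z.2)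
    (by fun_prop) (by fun_prop)

theorem PT.zeroPts' {U : α → List (List Bool)} {m : α → ℕ} (hU : PT t U) (hm : PT t m) :
    PT t (fun a => zeroPts (U a) (m a)) := by
  unfold zeroPts
  exact PT.append' (PT.fam1' hU hm) (PT.append' (PT.fam2' hU hm) (PT.fam3' hU hm))

theorem PT.onePts' {U W : α → List (List Bool)} {k m V : α → ℕ} {M : α → List Bool}
    (hk : PT t k) (hU : PT t U) (hm : PT t m) (hW : PT t W) (hV : PT t V) (hM : PT t M) :
    PT t (fun a => onePts (k a) (U a) (m a) (W a) (V a) (M a)) := by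
  unfold onePts
  exact PT.append' (PT.fam4' hU hm) (PT.append' (PT.fam5' hU hm)
    (PT.append' (PT.fam6' hk hU hm) (PT.fam7' hk hU hW hV hM)))

theorem PT.entry' {Z O : α → List (List Bool)} {x : α → List Bool} (h1 : PT t Z)
    (h2 : PT t O) (h3 : PT t x) : PT t (fun a => entry (Z a) (O a) (x a)) := by
  unfold entry
  exact PT.cond ((PT.mem' h3 h1).of_eq fun a => decide_eq_decide.mpr Iff.rfl) (by fun_prop)
    (PT.cond ((PT.mem' h3 h2).of_eq fun a => decide_eq_decide.mpr Iff.rfl) (by fun_prop)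
      (by fun_prop))

theorem PT.table' {k m V : α → ℕ} {M : α → List Bool} (hk : PT t k) (hm : PT t m)
    (hV : PT t V) (hM : PT t M) (q : Polynomial ℕ)
    (hq : ∀ a, 2 ^ (2 ^ k a + m a) ≤ q.eval (size a)) :
    PT t (fun a => table (k a) (m a) (V a) (M a)) := by
  unfold table
  have h2 : ∀ a, 2 ^ (k a) ≤ q.eval (size a) := fun a =>
    (Nat.lt_two_pow_self.le.trans (Nat.pow_le_pow_right (by norm_num)
      (Nat.le_add_right _ (m a)))).trans (hq a)
  have h3 : ∀ a, 2 ^ (m a) ≤ q.eval (size a) := fun a =>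
    (Nat.pow_le_pow_right (by norm_num) (Nat.le_add_left _ _)).trans (hq a)
  have hU : PT t (fun a => allBits (k a)) := PT.allBits' hk q h2
  have hW : PT t (fun a => allBits (m a)) := PT.allBits' hm q h3
  have hZ : PT t (fun a => zeroPts (allBits (k a)) (m a)) := PT.zeroPts' hU hm
  have hO : PT t (fun a => onePts (k a) (allBits (k a)) (m a) (allBits (m a)) (V a) (M a)) :=
    PT.onePts' hk hU hm hW hV hM
  have hn : PT t (fun a => 4 * (2 ^ k a + m a)) := by
    have h4 : PT t (fun a => 4 * ((allBits (k a)).length + m a)) := by fun_prop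
    convert h4 using 2 with a
    rw [length_allBits]
  have hA : PT t (fun a => allBits (4 * (2 ^ k a + m a))) := by
    refine PT.allBits' hn (q ^ 4) fun a => ?_
    rw [Nat.mul_comm, pow_mul, Polynomial.eval_pow]
    exact Nat.pow_le_pow_left (hq a) 4
  exact PT.map' (f := fun z : α × List Bool => entry (zeroPts (allBits (k z.1)) (m z.1))
    (onePts (k z.1) (allBits (k z.1)) (m z.1) (allBits (m z.1)) (V z.1) (M z.1)) z.2) hA
    (PT.entry' (hZ.comp (by fun_prop)) (hO.comp (by fun_prop)) (by fun_prop))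

end PT

end Pool.Agent.H87.PMCSP
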