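import Pool.Agent.H87.PMCSP.Circuit

/-!
# Rigidity of monotone read-once functions
-/

namespace Pool.Agent.H87.PMCSP

variable {V : Type} [DecidableEq V]

theorem RO.sign {r : V → Bool} {S : Finset V} {f : (V → Bool) → Bool} (h : RO r S f)
    {v : V} (hv : v ∈ S) (hr : r v = true) :
    ∀ x : V → Bool, x v = false → f (Function.update x v true) = true → f x = true := by
  induction h with
  | lit w =>
    intro x hx h1
    rw [Finset.mem_singleton] at hv
    subst hv
    simp [hr] at h1
  | node c S T f g h hf hg ihf ihg =>
    intro x hx h1
    have key : ∀ {S T : Finset V} {f g : (V → Bool) → Bool}, RO r T g → v ∉ T →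
        g (Function.update x v true) = g x := by
      intro S T f g hg hvT
      refine hg.local' fun w hw => ?_
      rw [Function.update_of_ne]
      rintro rfl
      exact hvT hw
    rw [Finset.mem_union] at hv
    by_cases hvS : v ∈ S
    · have hvT : v ∉ T := fun h' => Finset.disjoint_left.mp h hvS h'
      have h2 := key (S := S) (f := f) hg hvT
      have h3 := ihf hvS x hx
      simp only at h1 ⊢
      rw [h2] at h1
      revert h1 h3
      generalize f (Function.update x v true) = p
      generalize f x = q
      generalize g x = s
      cases c <;> cases p <;> cases q <;> cases s <;> simp [gop]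
    · have hvT : v ∈ T := by tauto
      have h2 := key (S := T) (f := g) hf hvS
      have h3 := ihg hvT x hx
      simp only at h1 ⊢
      rw [h2] at h1
      revert h1 h3
      generalize g (Function.update x v true) = p
      generalize g x = q
      generalize f x = s
      cases c <;> cases p <;> cases q <;> cases s <;> simp [gop]

/-- Monotone read-once functions. -/
abbrev MRO (S : Finset V) (f : (V → Bool) → Bool) : Prop := RO (fun _ : V => false) S f

theorem MRO.mono {S : Finset V} {f : (V → Bool) → Bool} (h : MRO S f) :
    ∀ {x y : V → Bool}, (∀ v ∈ S, x v = true → y v = true) → f x = true → f y = true := by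
  unfold MRO at h
  induction h with
  | lit v =>
    intro x y hxy
    simpa using hxy v (by simp)
  | node c S T f g h hf hg ihf ihg =>
    intro x y hxy
    have h1 := ihf (x := x) (y := y) fun v hv => hxy v (by simp [hv])
    have h2 := ihg (x := x) (y := y) fun v hv => hxy v (by simp [hv])
    simp only
    revert h1 h2
    generalize f x = a
    generalize f y = b
    generalize g x = a'
    generalize g y = b'
    cases c <;> cases a <;> cases b <;> cases a' <;> cases b' <;> simp [gop]

theorem MRO.of_sign {r : V → Bool} [Fintype V] {f : (V → Bool) → Bool}
    (h : RO r Finset.univ f)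
    (hs : ∀ v, ∃ x : V → Bool, x v = false ∧ f x = false ∧
      f (Function.update x v true) = true) : MRO Finset.univ f := by
  refine h.congr fun v _ => ?_
  obtain ⟨x, h1, h2, h3⟩ := hs v
  cases hr : r v with
  | false => rfl
  | true =>
    have := h.sign (Finset.mem_univ v) hr x h1 h3
    rw [h2] at this
    cases this

theorem MRO.block {S : Finset V} {g : (V → Bool) → Bool} (h : MRO S g)
    (h0 : g (fun _ => false) = false)
    (h1 : ∀ v ∈ S, g (fun w => decide (w = v)) = true) (z : V → Bool) :
    g z = true ↔ ∃ v ∈ S, z v = true := by
  constructor
  · intro hz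
    by_contra hne
    push Not at hne
    have : g z = g (fun _ => false) := h.local' fun v hv => by
      simpa using hne v hv
    rw [this, h0] at hz
    cases hz
  · rintro ⟨v, hv, hz⟩
    refine h.mono (x := fun w => decide (w = v)) ?_ (h1 v hv)
    intro w _ hw
    simp only [decide_eq_true_eq] at hw
    subst hw
    exact hz

theorem gop_false (a b : Bool) : gop false a b = (a || b) := rfl

theorem gop_true (a b : Bool) : gop true a b = (a && b) := rfl

/-- The structure of a monotone read-once function `f` whose variables are split in two
kinds, such that `f` vanishes on the indicators of both kinds, but not on the indicator of a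
kind with one variable of the other kind added. -/
theorem MRO.struct {S : Finset V} {f : (V → Bool) → Bool} (h : MRO S f) (isX : V → Bool)
    (h1 : f isX = false) (h2 : f (fun v => !isX v) = false)
    (h3 : ∀ v ∈ S, isX v = true → f (fun w => decide (w = v) || !isX w) = true)
    (h4 : ∀ v ∈ S, isX v = false → f (fun w => decide (w = v) || isX w) = true) :
    ∃ lab : V → ℕ, ∀ z : V → Bool, f z = true ↔ ∃ v ∈ S, ∃ w ∈ S, isX v = true ∧
      isX w = false ∧ z v = true ∧ z w = true ∧ lab v = lab w := by
  unfold MRO at h
  induction h with
  | lit v =>
    exfalso
    simp only [Bool.bne_false] at h1 h2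
    rw [h1] at h2
    cases h2
  | node c S T f g h hf hg ihf ihg =>
    have hST : ∀ {v}, v ∈ S → v ∉ T := fun hv hv' => Finset.disjoint_left.mp h hv hv'
    have hTS : ∀ {v}, v ∈ T → v ∉ S := fun hv hv' => Finset.disjoint_left.mp h hv' hv
    -- evaluation of the part that does not contain the variable `v`
    have loc : ∀ {T : Finset V} {g : (V → Bool) → Bool}, MRO T g → ∀ {v : V}, v ∉ T →
        ∀ (u : V → Bool), g (fun w => decide (w = v) || u w) = g u := by
      intro T g hg v hv u
      refine hg.local' fun w hw => ?_
      have : w ≠ v := by rintro rfl; exact hv hw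
      simp [this]
    cases c with
    | false =>
      simp only [gop_false, Bool.or_eq_false_iff] at h1 h2
      obtain ⟨labf, hlf⟩ := ihf h1.1 h2.1 (by
        intro v hv hX
        have := h3 v (by simp [hv]) hX
        simp only [gop_false] at this
        rw [loc hg (hST hv), h2.2, Bool.or_false] at this
        exact this) (by
        intro v hv hX
        have := h4 v (by simp [hv]) hX
        simp only [gop_false] at this
        rw [loc hg (hST hv), h1.2, Bool.or_false] at this
        exact this)
      obtain ⟨labg, hlg⟩ := ihg h1.2 h2.2 (by
        intro v hv hX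
        have := h3 v (by simp [hv]) hX
        simp only [gop_false] at this
        rw [loc hf (hTS hv), h2.1, Bool.false_or] at this
        exact this) (by
        intro v hv hX
        have := h4 v (by simp [hv]) hX
        simp only [gop_false] at this
        rw [loc hf (hTS hv), h1.1, Bool.false_or] at this
        exact this)
      refine ⟨fun v => if v ∈ S then 2 * labf v else 2 * labg v + 1, fun z => ?_⟩
      simp only [gop_false, Bool.or_eq_true]
      rw [hlf, hlg]
      constructor
      · rintro (⟨v, hv, w, hw, a1, a2, a3, a4, a5⟩ | ⟨v, hv, w, hw, a1, a2, a3, a4, a5⟩)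
        · exact ⟨v, by simp [hv], w, by simp [hw], a1, a2, a3, a4, by simp [hv, hw, a5]⟩
        · exact ⟨v, by simp [hv], w, by simp [hw], a1, a2, a3, a4, by
            simp [hTS hv, hTS hw, a5]⟩
      · rintro ⟨v, hv, w, hw, a1, a2, a3, a4, a5⟩
        rw [Finset.mem_union] at hv hw
        by_cases hvS : v ∈ S
        · by_cases hwS : w ∈ S
          · rw [if_pos hvS, if_pos hwS] at a5
            exact Or.inl ⟨v, hvS, w, hwS, a1, a2, a3, a4, by omega⟩
          · rw [if_pos hvS, if_neg hwS] at a5
            omega
        · by_cases hwS : w ∈ S
          · rw [if_neg hvS, if_pos hwS] at a5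
            omega
          · rw [if_neg hvS, if_neg hwS] at a5
            exact Or.inr ⟨v, by tauto, w, by tauto, a1, a2, a3, a4, by omega⟩
    | true =>
      simp only [gop_true, Bool.and_eq_false_iff] at h1 h2
      have e1 : ∀ v ∈ S, isX v = true → g (fun v => !isX v) = true := by
        intro v hv hX
        have := h3 v (by simp [hv]) hX
        simp only [gop_true, Bool.and_eq_true] at this
        rw [loc hg (hST hv)] at this
        exact this.2
      have e2 : ∀ v ∈ T, isX v = true → f (fun v => !isX v) = true := by
        intro v hv hX
        have := h3 v (by simp [hv]) hX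
        simp only [gop_true, Bool.and_eq_true] at this
        rw [loc hf (hTS hv)] at this
        exact this.1
      have e3 : ∀ v ∈ S, isX v = false → g isX = true := by
        intro v hv hX
        have := h4 v (by simp [hv]) hX
        simp only [gop_true, Bool.and_eq_true] at this
        rw [loc hg (hST hv)] at this
        exact this.2
      have e4 : ∀ v ∈ T, isX v = false → f isX = true := by
        intro v hv hX
        have := h4 v (by simp [hv]) hX
        simp only [gop_true, Bool.and_eq_true] at this
        rw [loc hf (hTS hv)] at this
        exact this.1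
      obtain ⟨s, hs⟩ := hf.nonempty
      obtain ⟨t, ht⟩ := hg.nonempty
      refine ⟨fun _ => 0, fun z => ?_⟩
      simp only [gop_true, Bool.and_eq_true]
      by_cases hsX : ∃ v ∈ S, isX v = true
      · -- `S` is of the first kind and `T` of the second
        obtain ⟨v0, hv0, hX0⟩ := hsX
        have hT : ∀ w ∈ T, isX w = false := by
          intro w hw
          by_contra hne
          have b1 := e1 v0 hv0 hX0
          have b2 := e2 w hw (by simpa using hne)
          rw [b1, b2] at h2
          simp at h2
        have hS : ∀ v ∈ S, isX v = true := by
          intro v hv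
          by_contra hne
          have b1 := e3 v hv (by simpa using hne)
          have b2 := e4 t ht (hT t ht)
          rw [b1, b2] at h1
          simp at h1
        have bf := MRO.block hf (by
          have b1 := e1 v0 hv0 hX0
          rw [b1] at h2
          have b2 : f (fun v => !isX v) = false := by simpa using h2
          exact (hf.local' fun v hv => by simp [hS v hv]).trans b2) (by
          intro v hv
          have := h3 v (by simp [hv]) (hS v hv)
          simp only [gop_true, Bool.and_eq_true] at this
          rw [← this.1]
          exact hf.local' fun w hw => by simp [hS w hw]) z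
        have bg := MRO.block hg (by
          have b1 := e4 t ht (hT t ht)
          rw [b1] at h1
          have b2 : g isX = false := by simpa using h1
          exact (hg.local' fun v hv => by simp [hT v hv]).trans b2) (by
          intro v hv
          have := h4 v (by simp [hv]) (hT v hv)
          simp only [gop_true, Bool.and_eq_true] at this
          rw [← this.2]
          exact hg.local' fun w hw => by simp [hT w hw]) z
        rw [bf, bg]
        constructor
        · rintro ⟨⟨v, hv, hz⟩, w, hw, hz'⟩
          exact ⟨v, by simp [hv], w, by simp [hw], hS v hv, hT w hw, hz, hz', trivial⟩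
        · rintro ⟨v, hv, w, hw, a1, a2, a3, a4, -⟩
          rw [Finset.mem_union] at hv hw
          have hvS : v ∈ S := by
            rcases hv with hv | hv
            · exact hv
            · rw [hT v hv] at a1; cases a1
          have hwT : w ∈ T := by
            rcases hw with hw | hw
            · rw [hS w hw] at a2; cases a2
            · exact hw
          exact ⟨⟨v, hvS, a3⟩, w, hwT, a4⟩
      · have hS : ∀ v ∈ S, isX v = false := by
          intro v hv
          by_contra hne
          exact hsX ⟨v, hv, by simpa using hne⟩
        have hT : ∀ w ∈ T, isX w = true := by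
          intro w hw
          by_contra hne
          have b1 := e3 s hs (hS s hs)
          have b2 := e4 w hw (by simpa using hne)
          rw [b1, b2] at h1
          simp at h1
        have bf := MRO.block hf (by
          have b1 := e3 s hs (hS s hs)
          rw [b1] at h1
          have b2 : f isX = false := by simpa using h1
          exact (hf.local' fun v hv => by simp [hS v hv]).trans b2) (by
          intro v hv
          have := h4 v (by simp [hv]) (hS v hv)
          simp only [gop_true, Bool.and_eq_true] at this
          rw [← this.1]
          exact hf.local' fun w hw => by simp [hS w hw]) z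
        have bg := MRO.block hg (by
          have b1 := e2 t ht (hT t ht)
          rw [b1] at h2
          have b2 : g (fun v => !isX v) = false := by simpa using h2
          exact (hg.local' fun v hv => by simp [hT v hv]).trans b2) (by
          intro v hv
          have := h3 v (by simp [hv]) (hT v hv)
          simp only [gop_true, Bool.and_eq_true] at this
          rw [← this.2]
          exact hg.local' fun w hw => by simp [hT w hw]) z
        rw [bf, bg]
        constructor
        · rintro ⟨⟨v, hv, hz⟩, w, hw, hz'⟩
          exact ⟨w, by simp [hw], v, by simp [hv], hT w hw, hS v hv, hz', hz, trivial⟩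
        · rintro ⟨v, hv, w, hw, a1, a2, a3, a4, -⟩
          rw [Finset.mem_union] at hv hw
          have hvT : v ∈ T := by
            rcases hv with hv | hv
            · rw [hS v hv] at a1; cases a1
            · exact hv
          have hwS : w ∈ S := by
            rcases hw with hw | hw
            · exact hw
            · rw [hT w hw] at a2; cases a2
          exact ⟨⟨w, hwS, a4⟩, v, hvT, a3⟩

/-! ### Functions given by an assignment of types -/

variable {X Y : Type} [DecidableEq X] [DecidableEq Y]

/-- The variables: `x_u`, the dummies `d_u` (with `u : X`), and `y_i` (with `i : Y`). -/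
abbrev Var (X Y : Type) : Type := X ⊕ (X ⊕ Y)

/-- **Rigidity.** -/
theorem rigid [Fintype X] [Fintype Y] {f : (Var X Y → Bool) → Bool}
    (h : MRO Finset.univ f)
    (h1 : f (Sum.elim (fun _ => true) (fun _ => false)) = false)
    (h2 : f (Sum.elim (fun _ => false) (fun _ => true)) = false)
    (h3 : ∀ u : X, f (Sum.elim (fun v => decide (v = u)) (fun _ => true)) = true)
    (h4 : ∀ e : X ⊕ Y, f (Sum.elim (fun _ => true) (fun e' => decide (e' = e))) = true)
    (h5 : ∀ u v : X, f (Sum.elim (fun u' => decide (u' = u))
      (fun e => decide (e = Sum.inl v))) = decide (u = v)) :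
    ∃ g : X ⊕ Y → X, (∀ v, g (Sum.inl v) = v) ∧
      ∀ (S : X → Bool) (S' : X ⊕ Y → Bool),
        f (Sum.elim S S') = true ↔ ∃ e, S' e = true ∧ S (g e) = true := by
  obtain ⟨lab, hlab⟩ := h.struct (fun v => v.isLeft) (by
      rw [← h1]; congr 1; funext v; cases v <;> rfl) (by
      rw [← h2]; congr 1; funext v; cases v <;> rfl) (by
      rintro (u | e) _ hX
      · rw [← h3 u]; congr 1; funext v; cases v <;> simp
      · cases hX) (by
      rintro (u | e) _ hX
      · cases hX
      · rw [← h4 e]; congr 1; funext v; cases v <;> simp)
  have key : ∀ (S : X → Bool) (S' : X ⊕ Y → Bool), f (Sum.elim S S') = true ↔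
      ∃ u e, S u = true ∧ S' e = true ∧ lab (Sum.inl u) = lab (Sum.inr e) := by
    intro S S'
    rw [hlab]
    constructor
    · rintro ⟨v, -, w, -, a1, a2, a3, a4, a5⟩
      rcases v with u | e
      · rcases w with u' | e
        · cases a2
        · exact ⟨u, e, a3, a4, a5⟩
      · cases a1
    · rintro ⟨u, e, a1, a2, a3⟩
      exact ⟨Sum.inl u, by simp, Sum.inr e, by simp, rfl, rfl, a1, a2, a3⟩
  have hd : ∀ u v : X, lab (Sum.inl u) = lab (Sum.inr (Sum.inl v)) ↔ u = v := by
    intro u v
    have := h5 u v
    constructor
    · intro hl
      have h6 := (key (fun u' => decide (u' = u)) (fun e => decide (e = Sum.inl v))).mpr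
        ⟨u, Sum.inl v, by simp, by simp, hl⟩
      rw [this] at h6
      simpa using h6
    · rintro rfl
      simp only [decide_true] at this
      obtain ⟨u', e, a1, a2, a3⟩ := (key _ _).mp this
      simp only [decide_eq_true_eq] at a1 a2
      subst a1 a2
      exact a3
  have hg : ∀ e : X ⊕ Y, ∃ u : X, lab (Sum.inl u) = lab (Sum.inr e) := by
    intro e
    obtain ⟨u', e', a1, a2, a3⟩ := (key _ _).mp (h4 e)
    simp only [decide_eq_true_eq] at a2
    subst a2
    exact ⟨u', a3⟩
  choose g hg using hg
  have huniq : ∀ u v : X, lab (Sum.inl u) = lab (Sum.inl v) → u = v := by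
    intro u v huv
    exact (hd u v).mp (huv.trans ((hd v v).mpr rfl))
  refine ⟨g, fun v => (hd _ _).mp (hg (Sum.inl v)), fun S S' => ?_⟩
  rw [key]
  constructor
  · rintro ⟨u, e, a1, a2, a3⟩
    refine ⟨e, a2, ?_⟩
    rw [huniq (g e) u ((hg e).trans a3.symm)]
    exact a1
  · rintro ⟨e, a1, a2⟩
    exact ⟨g e, e, a2, a1, hg e⟩

end Pool.Agent.H87.PMCSP
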